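import Pool.Agent.Work.MP_02cc39_co.Mut.CatF
import Pool.Agent.Work.MP_02cc39_co.PT.Defs

/-!
# MP_02cc39_co/Mut, CatAdapt (size M): triangulations of an abstract convex configuration

PROOF.  `e := σ.symm`, `χ := chi (par e)` (`par_ori`: for different `a, b, c` the sign of `(b - a)(c - a)(c - b)` of the numbers).
(1) for different `a, b, c`: `o a b c ↔ χ a b c`: by the rules `CC` (`cyc`, `anti`, `tot`) and `h` both sides depend only on the order of the three numbers
    `e a, e b, e c` (six cases: even permutations of the increasing order are true, odd ones false).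
(2) so `Cross o a b c d ↔ PT39.Cross χ a b c d` for four different points (`(o a b c ↔ ¬ o a b d) ∧ (o c d a ↔ ¬ o c d b)` against
    `¬ (χ a b c ↔ χ a b d) ∧ ¬ (χ c d a ↔ χ c d b)`: `tauto`), `NonCr o E ↔ NC χ E` for `E` without loops, and `Fam o ∅ E ↔ PT39.Fam χ ∅ E`.
(3) `Max o ∅ E ↔ MaxFam χ ∅ E`: `Max` is maximality with respect to adding one edge, `MaxFam` with respect to inclusion; they are equivalent because subsets of
    noncrossing sets are noncrossing (a member `e ∈ E' \ E`, `insert e E ⊆ E'`; loops are not in `E'`).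
(4) `par_card` with `n = Fintype.card ι` (the two filters are the same set; `Finset.filter_congr`, `convert` for the decidability instances).
-/

set_option autoImplicit false

namespace PT39

open Finset

/-- positive cyclic order of three numbers. -/
private def Cyc3 (x y z : ℕ) : Prop := (x < y ∧ y < z) ∨ (y < z ∧ z < x) ∨ (z < x ∧ x < y)

private theorem cyc3_iff {x y z : ℕ} (hxy : x ≠ y) (hxz : x ≠ z) (hyz : y ≠ z) :
    0 < ((y : ℝ) - (x : ℝ)) * ((z : ℝ) - (x : ℝ)) * ((z : ℝ) - (y : ℝ)) ↔ Cyc3 x y z := by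
  unfold Cyc3
  have pos : ∀ {a b : ℕ}, a < b → (0 : ℝ) < (b : ℝ) - (a : ℝ) := by
    intro a b h
    have : (a : ℝ) < (b : ℝ) := by exact_mod_cast h
    linarith
  have neg : ∀ {a b : ℕ}, a < b → (a : ℝ) - (b : ℝ) < 0 := by
    intro a b h
    have : (a : ℝ) < (b : ℝ) := by exact_mod_cast h
    linarith
  rcases lt_or_gt_of_ne hxy with h1 | h1 <;> rcases lt_or_gt_of_ne hxz with h2 | h2 <;>
    rcases lt_or_gt_of_ne hyz with h3 | h3
  · exact iff_of_true (mul_pos (mul_pos (pos h1) (pos h2)) (pos h3)) (Or.inl ⟨h1, h3⟩)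
  · exact iff_of_false (not_lt.2 (mul_neg_of_pos_of_neg (mul_pos (pos h1) (pos h2)) (neg h3)).le)
      (by omega)
  · omega
  · exact iff_of_true (mul_pos_of_neg_of_neg (mul_neg_of_pos_of_neg (pos h1) (neg h2)) (neg h3))
      (Or.inr (Or.inr ⟨h2, h1⟩))
  · exact iff_of_false (not_lt.2 (mul_neg_of_neg_of_pos (mul_neg_of_neg_of_pos (neg h1) (pos h2))
      (pos h3)).le) (by omega)
  · omega
  · exact iff_of_true (mul_pos (mul_pos_of_neg_of_neg (neg h1) (neg h2)) (pos h3))
      (Or.inr (Or.inl ⟨h3, h2⟩))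
  · exact iff_of_false (not_lt.2 (mul_neg_of_pos_of_neg (mul_pos_of_neg_of_neg (neg h1) (neg h2))
      (neg h3)).le) (by omega)

private theorem o_iff {ι : Type} {o : ι → ι → ι → Prop}
    (hC : Pool.Agent.Work.MP_02cc39_co.PT.CC o) {n : ℕ} (σ : Fin n ≃ ι)
    (h : ∀ i j k : Fin n, i < j → j < k → o (σ i) (σ j) (σ k)) {a b c : ι} (hab : a ≠ b)
    (hac : a ≠ c) (hbc : b ≠ c) :
    o a b c ↔ Cyc3 (σ.symm a : ℕ) (σ.symm b) (σ.symm c) := by
  have h' : ∀ x y z : ι, σ.symm x < σ.symm y → σ.symm y < σ.symm z → o x y z := by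
    intro x y z h1 h2
    have := h _ _ _ h1 h2
    simpa using this
  have key : ∀ x y z : ι, Cyc3 (σ.symm x : ℕ) (σ.symm y) (σ.symm z) → o x y z := by
    intro x y z hc
    rcases hc with ⟨h1, h2⟩ | ⟨h1, h2⟩ | ⟨h1, h2⟩
    · exact h' x y z h1 h2
    · exact hC.cyc _ _ _ (hC.cyc _ _ _ (h' y z x h1 h2))
    · exact hC.cyc _ _ _ (h' z x y h1 h2)
  refine ⟨fun ho => ?_, key a b c⟩
  by_contra hn
  have inj : ∀ {x y : ι}, x ≠ y → (σ.symm x : ℕ) ≠ (σ.symm y : ℕ) := by
    intro x y hxy hh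
    exact hxy (σ.symm.injective (Fin.ext hh))
  have n1 := inj hab
  have n2 := inj hac
  have n3 := inj hbc
  have hc : Cyc3 (σ.symm a : ℕ) (σ.symm c) (σ.symm b) := by
    unfold Cyc3 at hn ⊢
    omega
  exact hC.anti _ _ _ ho (key _ _ _ hc)

theorem cnt_convex {ι : Type} [Fintype ι] {o : ι → ι → ι → Prop}
    (hC : Pool.Agent.Work.MP_02cc39_co.PT.CC o) {n : ℕ} (hn : 2 ≤ n) (σ : Fin n ≃ ι)
    (h : ∀ i j k : Fin n, i < j → j < k → o (σ i) (σ j) (σ k)) :
    Pool.Agent.Work.MP_02cc39_co.PT.cnt o ∅ = catalan (n - 2) := by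
  classical
  have hoc : ∀ a b c : ι, a ≠ b → a ≠ c → b ≠ c → (o a b c ↔ chi (par σ.symm) a b c) := by
    intro a b c hab hac hbc
    have inj : ∀ {x y : ι}, x ≠ y → (σ.symm x : ℕ) ≠ (σ.symm y : ℕ) := by
      intro x y hxy hh
      exact hxy (σ.symm.injective (Fin.ext hh))
    rw [o_iff hC σ h hab hac hbc]
    unfold chi
    rw [par_ori]
    exact (cyc3_iff (inj hab) (inj hac) (inj hbc)).symm
  have hcr : ∀ a b c d : ι, a ≠ b → c ≠ d → a ≠ c → a ≠ d → b ≠ c → b ≠ d →
      (Pool.Agent.Work.MP_02cc39_co.PT.Cross o a b c d ↔ Cross (chi (par σ.symm)) a b c d) := by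
    intro a b c d hab hcd hac had hbc hbd
    unfold Pool.Agent.Work.MP_02cc39_co.PT.Cross Cross
    rw [hoc a b c hab hac hbc, hoc a b d hab had hbd, hoc c d a hcd hac.symm had.symm,
      hoc c d b hcd hbc.symm hbd.symm]
    tauto
  have hfam : ∀ E : Finset (Sym2 ι), Pool.Agent.Work.MP_02cc39_co.PT.Fam o ∅ E ↔
      Fam (chi (par σ.symm)) ∅ E := by
    intro E
    constructor
    · intro hF
      refine ⟨hF.nd, ?_, fun v hv => absurd hv (Finset.notMem_empty v)⟩
      intro a b c d h1 h2 hab hcd hac had hbc hbd hX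
      exact hF.nc a b c d h1 h2 hac had hbc hbd ((hcr a b c d hab hcd hac had hbc hbd).2 hX)
    · intro hF
      refine ⟨hF.loop, ?_, fun v hv => absurd hv (Finset.notMem_empty v)⟩
      intro a b c d h1 h2 hac had hbc hbd hX
      have hab : a ≠ b := by
        intro hh
        exact hF.loop _ h1 (Sym2.mk_isDiag_iff.2 hh)
      have hcd : c ≠ d := by
        intro hh
        exact hF.loop _ h2 (Sym2.mk_isDiag_iff.2 hh)
      exact hF.nc a b c d h1 h2 hab hcd hac had hbc hbd ((hcr a b c d hab hcd hac had hbc hbd).1 hX)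
  have hmono : ∀ E1 E2 : Finset (Sym2 ι), E1 ⊆ E2 → Fam (chi (par σ.symm)) ∅ E2 →
      Fam (chi (par σ.symm)) ∅ E1 := by
    intro E1 E2 hs hF
    refine ⟨fun e he => hF.loop e (hs he), ?_, fun v hv => absurd hv (Finset.notMem_empty v)⟩
    intro a b c d h1 h2
    exact hF.nc a b c d (hs h1) (hs h2)
  have hmax : ∀ E : Finset (Sym2 ι), Pool.Agent.Work.MP_02cc39_co.PT.Max o ∅ E ↔
      MaxFam (chi (par σ.symm)) ∅ E := by
    intro E
    constructor
    · rintro ⟨hF, hM⟩
      refine ⟨(hfam E).1 hF, ?_⟩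
      intro E' hs hF'
      refine Finset.Subset.antisymm ?_ hs
      intro e he
      by_contra hne
      exact hM e (hF'.loop e he) hne ((hfam _).2 (hmono _ E' (Finset.insert_subset he hs) hF'))
    · rintro ⟨hF, hM⟩
      refine ⟨(hfam E).2 hF, ?_⟩
      intro e _ he hF'
      have h1 := hM _ (Finset.subset_insert _ _) ((hfam _).1 hF')
      apply he
      rw [← h1]
      exact Finset.mem_insert_self _ _
  rw [← par_card hn σ.symm]
  unfold Pool.Agent.Work.MP_02cc39_co.PT.cnt Pool.Agent.Work.MP_02cc39_co.PT.MaxSet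
  refine Finset.card_bij (fun E _ => E) ?_ ?_ ?_
  · intro E hE
    exact Finset.mem_filter.2 ⟨Finset.mem_univ _, (hmax E).1 (Finset.mem_filter.1 hE).2⟩
  · intro E _ E' _ hh
    exact hh
  · intro E hE
    exact ⟨E, Finset.mem_filter.2 ⟨Finset.mem_univ _, (hmax E).2 (Finset.mem_filter.1 hE).2⟩, rfl⟩

end PT39
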