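import Pool.Agent.Work.MP_02cc39_co.Mut.Chi

/-!
# MP_02cc39_co/Mut, Conv (size S-M): points on a parabola

PROOFS.  `ori (par e) a b c = (y - x) (z - x) (z - y)` for the numbers `x, y, z` of `a, b, c`
(`ring` after unfolding), so it is nonzero for different points.  `par_ptd`: `v ∉ N`, `N ≠ ∅`.  If some
element of `N` has a number larger than `v`, let `x` be the one with the smallest such number; otherwise
let `x` be the element of `N` with the smallest number.  For `y ∈ N`, `y ≠ x`:
`(x - v)(y - v)(y - x) > 0`: case 1: `x > v`; `y > x > v`: all positive; `y < v`: `y - v < 0`, `y - x < 0`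
(`v < y < x` is impossible by minimality).  Case 2: `x, y < v`, `y > x`.
`par_fpol`: `Fam (chi (par e)) W E ↔ Fam (chi (par e)) ∅ E` (`v ∉ nb E v` for loopless `E`).
-/

set_option autoImplicit false

namespace PT39

open Finset Polynomial

variable {V : Type} [Fintype V] [DecidableEq V]

/-- the points `(k, k²)`. -/
def par {n : ℕ} (e : V ≃ Fin n) : Cfg V := fun v => (((e v : ℕ) : ℝ), ((e v : ℕ) : ℝ) ^ 2)

theorem par_ori {n : ℕ} (e : V ≃ Fin n) (a b c : V) : ori (par e) a b c =
    (((e b : ℕ) : ℝ) - ((e a : ℕ) : ℝ)) * (((e c : ℕ) : ℝ) - ((e a : ℕ) : ℝ)) *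
      (((e c : ℕ) : ℝ) - ((e b : ℕ) : ℝ)) := by
  unfold ori par
  ring

private theorem par_inj {n : ℕ} (e : V ≃ Fin n) {a b : V} (h : a ≠ b) :
    ((e b : ℕ) : ℝ) - ((e a : ℕ) : ℝ) ≠ 0 := by
  intro h0
  apply h
  apply e.injective
  apply Fin.ext
  have h1 : ((e b : ℕ) : ℝ) = ((e a : ℕ) : ℝ) := sub_eq_zero.1 h0
  exact (Nat.cast_injective h1).symm

theorem par_gp {n : ℕ} (e : V ≃ Fin n) : GP (par e) := by
  intro a b c h1 h2 h3
  rw [par_ori]
  exact mul_ne_zero (mul_ne_zero (par_inj e h1) (par_inj e h2)) (par_inj e h3)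

theorem par_ptd {n : ℕ} (e : V ≃ Fin n) (v : V) (N : Finset V) (hv : v ∉ N) :
    Ptd (chi (par e)) v N := by
  rcases N.eq_empty_or_nonempty with h0 | hN
  · exact Or.inl h0
  refine Or.inr ?_
  have hne : ∀ y ∈ N, (e v : ℕ) ≠ (e y : ℕ) := by
    intro y hy h1
    have h2 : v = y := e.injective (Fin.ext h1)
    rw [h2] at hv
    exact hv hy
  by_cases h : (N.filter (fun x => (e v : ℕ) < (e x : ℕ))).Nonempty
  · obtain ⟨x, hx, hmin⟩ := Finset.exists_min_image _ (fun x => (e x : ℕ)) h
    rw [Finset.mem_filter] at hx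
    refine ⟨x, hx.1, fun y hy hyx => ?_⟩
    show 0 < ori (par e) v x y
    rw [par_ori]
    have h1 : ((e v : ℕ) : ℝ) < ((e x : ℕ) : ℝ) := by exact_mod_cast hx.2
    rcases lt_or_gt_of_ne (hne y hy) with h2 | h2
    · have h3 : (e x : ℕ) ≤ (e y : ℕ) := hmin y (Finset.mem_filter.2 ⟨hy, h2⟩)
      have h4 : (e x : ℕ) ≠ (e y : ℕ) := fun h5 => hyx (e.injective (Fin.ext h5)).symm
      have h5 : ((e x : ℕ) : ℝ) < ((e y : ℕ) : ℝ) := by exact_mod_cast lt_of_le_of_ne h3 h4
      exact mul_pos (mul_pos (by linarith) (by linarith)) (by linarith)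
    · have h5 : ((e y : ℕ) : ℝ) < ((e v : ℕ) : ℝ) := by exact_mod_cast h2
      exact mul_pos_of_neg_of_neg (mul_neg_of_pos_of_neg (by linarith) (by linarith)) (by linarith)
  · obtain ⟨x, hx, hmin⟩ := Finset.exists_min_image N (fun x => (e x : ℕ)) hN
    have hlt : ∀ y ∈ N, (e y : ℕ) < (e v : ℕ) := by
      intro y hy
      rcases lt_or_gt_of_ne (hne y hy) with h2 | h2
      · exact absurd ⟨y, Finset.mem_filter.2 ⟨hy, h2⟩⟩ h
      · exact h2
    refine ⟨x, hx, fun y hy hyx => ?_⟩
    show 0 < ori (par e) v x y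
    rw [par_ori]
    have h4 : (e x : ℕ) ≠ (e y : ℕ) := fun h5 => hyx (e.injective (Fin.ext h5)).symm
    have h5 : ((e x : ℕ) : ℝ) < ((e y : ℕ) : ℝ) := by
      exact_mod_cast lt_of_le_of_ne (hmin y hy) h4
    have h6 : ((e x : ℕ) : ℝ) < ((e v : ℕ) : ℝ) := by exact_mod_cast hlt x hx
    have h7 : ((e y : ℕ) : ℝ) < ((e v : ℕ) : ℝ) := by exact_mod_cast hlt y hy
    exact mul_pos (mul_pos_of_neg_of_neg (by linarith) (by linarith)) (by linarith)

private theorem fam_par {n : ℕ} (e : V ≃ Fin n) (W : Finset V) (E : Finset (Sym2 V)) :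
    Fam (chi (par e)) W E ↔ Fam (chi (par e)) ∅ E := by
  constructor
  · intro h
    exact ⟨h.loop, h.nc, fun v hv => absurd hv (Finset.notMem_empty v)⟩
  · intro h
    refine ⟨h.loop, h.nc, fun v _ => par_ptd e v _ fun hv => ?_⟩
    exact h.loop _ (Finset.mem_filter.1 hv).2 rfl

theorem par_fpol {n : ℕ} (e : V ≃ Fin n) (W : Finset V) :
    fpol (chi (par e)) W = fpol (chi (par e)) ∅ := by
  unfold fpol
  refine Finset.sum_congr rfl fun E _ => ?_
  classical exact if_congr (fam_par e W E) rfl rfl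

private def sE {W : Type} (σ : V ≃ W) : Sym2 V ≃ Sym2 W where
  toFun := Sym2.map σ
  invFun := Sym2.map σ.symm
  left_inv x := by
    induction x using Sym2.ind with
    | _ a b => simp
  right_inv x := by
    induction x using Sym2.ind with
    | _ a b => simp

private theorem fam_map {W : Type} [Fintype W] [DecidableEq W] (χ : Ori V) (χ' : Ori W)
    (σ : V ≃ W) (hσ : ∀ a b c, χ a b c ↔ χ' (σ a) (σ b) (σ c)) (E : Finset (Sym2 V)) :
    Fam χ ∅ E ↔ Fam χ' ∅ (E.map (sE σ).toEmbedding) := by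
  have hmem : ∀ a b : V, s(σ a, σ b) ∈ E.map (sE σ).toEmbedding ↔ s(a, b) ∈ E := by
    intro a b
    have h1 : s(σ a, σ b) = (sE σ).toEmbedding s(a, b) := rfl
    rw [h1, Finset.mem_map' (sE σ).toEmbedding]
  have hx : ∀ a b c d, Cross χ a b c d ↔ Cross χ' (σ a) (σ b) (σ c) (σ d) := by
    intro a b c d
    unfold Cross
    rw [hσ, hσ, hσ, hσ]
  constructor
  · intro h
    refine ⟨?_, ?_, fun v hv => absurd hv (Finset.notMem_empty v)⟩
    · intro x hx
      obtain ⟨y, hy, rfl⟩ := Finset.mem_map.1 hx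
      induction y using Sym2.ind with
      | _ a b =>
        intro hd
        apply h.loop _ hy
        have h1 : σ a = σ b := hd
        exact σ.injective h1
    · intro a b c d hab hcd h1 h2 h3 h4 h5 h6
      obtain ⟨a, rfl⟩ := σ.surjective a
      obtain ⟨b, rfl⟩ := σ.surjective b
      obtain ⟨c, rfl⟩ := σ.surjective c
      obtain ⟨d, rfl⟩ := σ.surjective d
      rw [← hx]
      exact h.nc a b c d ((hmem a b).1 hab) ((hmem c d).1 hcd) (fun h => h1 (congrArg σ h))
        (fun h => h2 (congrArg σ h)) (fun h => h3 (congrArg σ h)) (fun h => h4 (congrArg σ h))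
        (fun h => h5 (congrArg σ h)) (fun h => h6 (congrArg σ h))
  · intro h
    refine ⟨?_, ?_, fun v hv => absurd hv (Finset.notMem_empty v)⟩
    · intro y hy
      induction y using Sym2.ind with
      | _ a b =>
        intro hd
        have h1 : a = b := hd
        apply h.loop _ ((hmem a b).2 hy)
        rw [h1]
        exact rfl
    · intro a b c d hab hcd h1 h2 h3 h4 h5 h6
      rw [hx]
      exact h.nc _ _ _ _ ((hmem a b).2 hab) ((hmem c d).2 hcd) (σ.injective.ne h1)
        (σ.injective.ne h2) (σ.injective.ne h3) (σ.injective.ne h4) (σ.injective.ne h5)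
        (σ.injective.ne h6)

/-- two numberings give the same polynomial.
PROOF: the permutation `σ = e.symm.trans e'`-like relabelling `V → V` carries edge sets to edge sets,
preserving `Fam` (the orientation only depends on the numbers). -/
theorem par_indep {W : Type} [Fintype W] [DecidableEq W] {n : ℕ} (e : V ≃ Fin n) (e' : W ≃ Fin n) :
    fpol (chi (par e)) ∅ = fpol (chi (par e')) ∅ := by
  unfold fpol
  have hσ : ∀ a b c, chi (par e) a b c ↔
      chi (par e') ((e.trans e'.symm) a) ((e.trans e'.symm) b) ((e.trans e'.symm) c) := by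
    intro a b c
    unfold chi
    rw [par_ori, par_ori]
    simp
  refine Fintype.sum_equiv (Equiv.finsetCongr (sE (e.trans e'.symm))) _ _ fun E => ?_
  rw [Equiv.finsetCongr_apply, Finset.card_map]
  classical exact if_congr (fam_map _ _ _ hσ E) rfl rfl

end PT39
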