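import Pool.Agent.Work.MP_02cc39_co.Mut.CatN2
import Pool.Agent.Work.MP_02cc39_co.Mut.Conv

/-!
# MP_02cc39_co/Mut, CatF (size M): triangulations of the parabola configuration

PROOF.  `n = k + 1` points, `k ≥ 1`, numbers `0, …, k`.  The map `v ↦ (e v : ℕ)` carries edge sets of `V` to subsets of
`GN 0 k` (bijectively on loopless sets).  By `par_ori` four different points with numbers `a, b, c, d` have
`Cross (chi (par e)) a b c d` iff exactly one of `c, d` is strictly between `a` and `b` (sign of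
`(b - a)(c - a)(c - b)` against `(b - a)(d - a)(d - b)`; this condition already implies the second one);
so `NC` corresponds to `NCN`, and `MaxFam _ ∅` to `MaxN 0 k` (a noncrossing set which is maximal with
respect to adding one edge is maximal, because subsets of noncrossing sets are noncrossing).
`maxN_card`.
-/

set_option autoImplicit false

namespace PT39

open Finset

variable {V : Type} [Fintype V] [DecidableEq V]

/-- positive cyclic order of three numbers. -/
private def Cyc (x y z : ℕ) : Prop := (x < y ∧ y < z) ∨ (y < z ∧ z < x) ∨ (z < x ∧ x < y)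

private theorem cyc_iff {x y z : ℕ} (hxy : x ≠ y) (hxz : x ≠ z) (hyz : y ≠ z) :
    0 < ((y : ℝ) - (x : ℝ)) * ((z : ℝ) - (x : ℝ)) * ((z : ℝ) - (y : ℝ)) ↔ Cyc x y z := by
  unfold Cyc
  have pos : ∀ {a b : ℕ}, a < b → (0 : ℝ) < (b : ℝ) - (a : ℝ) := by
    intro a b h
    have : (a : ℝ) < (b : ℝ) := by exact_mod_cast h
    linarith
  have neg : ∀ {a b : ℕ}, a < b → (a : ℝ) - (b : ℝ) < 0 := by
    intro a b h
    have : (a : ℝ) < (b : ℝ) := by exact_mod_cast h
    linarith
  rcases lt_or_gt_of_ne hxy with h1 | h1 <;> rcases lt_or_gt_of_ne hxz with h2 | h2 <;>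
    rcases lt_or_gt_of_ne hyz with h3 | h3
  · exact iff_of_true (mul_pos (mul_pos (pos h1) (pos h2)) (pos h3)) (Or.inl ⟨h1, h3⟩)
  · exact iff_of_false (not_lt.2 (mul_neg_of_pos_of_neg (mul_pos (pos h1) (pos h2)) (neg h3)).le)
      (by omega)
  · omega
  · exact iff_of_true (mul_pos_of_neg_of_neg (mul_neg_of_pos_of_neg (pos h1) (neg h2)) (neg h3))
      (Or.inr (Or.inr ⟨h2, h1⟩))
  · exact iff_of_false (not_lt.2 (mul_neg_of_neg_of_pos (mul_neg_of_neg_of_pos (neg h1) (pos h2))
      (pos h3)).le) (by omega)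
  · omega
  · exact iff_of_true (mul_pos (mul_pos_of_neg_of_neg (neg h1) (neg h2)) (pos h3))
      (Or.inr (Or.inl ⟨h3, h2⟩))
  · exact iff_of_false (not_lt.2 (mul_neg_of_pos_of_neg (mul_pos_of_neg_of_neg (neg h1) (neg h2))
      (neg h3)).le) (by omega)

private theorem cyc_lt {x y z : ℕ} (h : x < y) (h1 : x ≠ z) (h2 : y ≠ z) :
    Cyc x y z ↔ ¬ (x < z ∧ z < y) := by
  unfold Cyc
  constructor
  · rintro (h3 | h3 | h3) <;> omega
  · intro h3
    rcases lt_or_gt_of_ne h1 with h4 | h4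
    · left; omega
    · right; right; omega

private theorem cyc_gt {x y z : ℕ} (h : y < x) (h1 : x ≠ z) (h2 : y ≠ z) :
    Cyc x y z ↔ (y < z ∧ z < x) := by
  unfold Cyc
  constructor
  · rintro (h3 | h3 | h3) <;> omega
  · intro h3
    right; left; exact h3

private theorem cyc_key {A B C D : ℕ} (d1 : A ≠ B) (d2 : C ≠ D) (d3 : A ≠ C) (d4 : A ≠ D)
    (d5 : B ≠ C) (d6 : B ≠ D) (h : ¬ (Cyc A B C ↔ Cyc A B D)) :
    (A < C ∧ C < B ∧ B < D) ∨ (A < D ∧ D < B ∧ B < C) ∨ (B < C ∧ C < A ∧ A < D) ∨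
        (B < D ∧ D < A ∧ A < C) ∨ (C < A ∧ A < D ∧ D < B) ∨ (C < B ∧ B < D ∧ D < A) ∨
        (D < A ∧ A < C ∧ C < B) ∨ (D < B ∧ B < C ∧ C < A) := by
  rcases lt_or_gt_of_ne d1 with h1 | h1
  · rw [cyc_lt h1 d3 d5, cyc_lt h1 d4 d6] at h
    by_cases h2 : A < C ∧ C < B <;> by_cases h3 : A < D ∧ D < B
    · exact absurd (iff_of_false (not_not.2 h2) (not_not.2 h3)) h
    · rcases lt_or_gt_of_ne d4 with h4 | h4
      · left; omega
      · right; right; right; right; right; right; left; omega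
    · rcases lt_or_gt_of_ne d3 with h4 | h4
      · right; left; omega
      · right; right; right; right; left; omega
    · exact absurd (iff_of_true h2 h3) h
  · rw [cyc_gt h1 d3 d5, cyc_gt h1 d4 d6] at h
    by_cases h2 : B < C ∧ C < A <;> by_cases h3 : B < D ∧ D < A
    · exact absurd (iff_of_true h2 h3) h
    · rcases lt_or_gt_of_ne d4 with h4 | h4
      · right; right; left; omega
      · right; right; right; right; right; right; right; omega
    · rcases lt_or_gt_of_ne d3 with h4 | h4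
      · right; right; right; left; omega
      · right; right; right; right; right; left; omega
    · exact absurd (iff_of_false h2 h3) h

private theorem chi_iff {n : ℕ} (e : V ≃ Fin n) {a b c : V} (hab : a ≠ b) (hac : a ≠ c)
    (hbc : b ≠ c) : chi (par e) a b c ↔ Cyc (e a) (e b) (e c) := by
  have inj : ∀ {x y : V}, x ≠ y → ((e x : ℕ)) ≠ ((e y : ℕ)) := by
    intro x y h h'
    exact h (e.injective (Fin.ext h'))
  unfold chi
  rw [par_ori]
  exact cyc_iff (inj hab) (inj hac) (inj hbc)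

/-- the edge map. -/
private def eF {n : ℕ} (e : V ≃ Fin n) : Sym2 V ↪ Sym2 ℕ :=
  ⟨Sym2.map (fun v => (e v : ℕ)), Sym2.map.injective (fun x y h => e.injective (Fin.ext h))⟩

private theorem eF_mk {n : ℕ} (e : V ≃ Fin n) (a b : V) :
    eF e s(a, b) = s((e a : ℕ), (e b : ℕ)) := rfl

private theorem mem_map_eF {n : ℕ} (e : V ≃ Fin n) (E : Finset (Sym2 V)) (a b : V) :
    s((e a : ℕ), (e b : ℕ)) ∈ E.map (eF e) ↔ s(a, b) ∈ E := by
  rw [← eF_mk, mem_map']

private theorem exists_of_mem_map {n : ℕ} (e : V ≃ Fin n) (E : Finset (Sym2 V)) {x y : ℕ}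
    (h : s(x, y) ∈ E.map (eF e)) : ∃ a b : V, (e a : ℕ) = x ∧ (e b : ℕ) = y ∧ s(a, b) ∈ E := by
  obtain ⟨z, hz, hz'⟩ := mem_map.1 h
  induction z using Sym2.ind with
  | h a b =>
    rw [eF_mk] at hz'
    rcases Sym2.eq_iff.1 hz' with ⟨h1, h2⟩ | ⟨h1, h2⟩
    · exact ⟨a, b, h1, h2, hz⟩
    · exact ⟨b, a, h2, h1, by rw [Sym2.eq_swap]; exact hz⟩

private theorem nc_iff {n : ℕ} (e : V ≃ Fin n) (E : Finset (Sym2 V)) :
    NC (chi (par e)) E ↔ NCN (E.map (eF e)) := by
  constructor
  · intro h x y z t hxz hyt h1 h2 h3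
    obtain ⟨a, c, rfl, rfl, hac⟩ := exists_of_mem_map e E hxz
    obtain ⟨b, d, rfl, rfl, hbd⟩ := exists_of_mem_map e E hyt
    have nab : a ≠ b := by rintro rfl; omega
    have nac : a ≠ c := by rintro rfl; omega
    have nad : a ≠ d := by rintro rfl; omega
    have nbc : b ≠ c := by rintro rfl; omega
    have nbd : b ≠ d := by rintro rfl; omega
    have ncd : c ≠ d := by rintro rfl; omega
    refine h a c b d hac hbd nac nbd nab nad nbc.symm ncd ?_
    unfold Cross
    rw [chi_iff e nac nab nbc.symm, chi_iff e nac nad ncd, chi_iff e nbd nab.symm nad.symm,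
      chi_iff e nbd nbc ncd.symm]
    constructor
    · intro hh
      have k1 := hh.2 (Or.inl ⟨h1.trans h2, h3⟩)
      unfold Cyc at k1
      omega
    · intro hh
      have k1 := hh.1 (Or.inr (Or.inr ⟨h1, h2.trans h3⟩))
      unfold Cyc at k1
      omega
  · intro h a b c d hab hcd nab ncd nac nad nbc nbd hX
    unfold Cross at hX
    rw [chi_iff e nab nac nbc, chi_iff e nab nad nbd, chi_iff e ncd nac.symm nad.symm,
      chi_iff e ncd nbc.symm nbd.symm] at hX
    have inj : ∀ {x y : V}, x ≠ y → ((e x : ℕ)) ≠ ((e y : ℕ)) := by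
      intro x y h h'
      exact h (e.injective (Fin.ext h'))
    have d1 := inj nab
    have d2 := inj ncd
    have d3 := inj nac
    have d4 := inj nad
    have d5 := inj nbc
    have d6 := inj nbd
    have m1 := (mem_map_eF e E a b).2 hab
    have m2 := (mem_map_eF e E c d).2 hcd
    have m1' := m1
    rw [Sym2.eq_swap] at m1'
    have m2' := m2
    rw [Sym2.eq_swap] at m2'
    generalize (e a : ℕ) = A at *
    generalize (e b : ℕ) = B at *
    generalize (e c : ℕ) = C at *
    generalize (e d : ℕ) = D at *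
    have key : (A < C ∧ C < B ∧ B < D) ∨ (A < D ∧ D < B ∧ B < C) ∨ (B < C ∧ C < A ∧ A < D) ∨
        (B < D ∧ D < A ∧ A < C) ∨ (C < A ∧ A < D ∧ D < B) ∨ (C < B ∧ B < D ∧ D < A) ∨
        (D < A ∧ A < C ∧ C < B) ∨ (D < B ∧ B < C ∧ C < A) :=
      cyc_key d1 d2 d3 d4 d5 d6 hX.1
    rcases key with k | k | k | k | k | k | k | k
    · exact h A C B D m1 m2 k.1 k.2.1 k.2.2
    · exact h A D B C m1 m2' k.1 k.2.1 k.2.2
    · exact h B C A D m1' m2 k.1 k.2.1 k.2.2
    · exact h B D A C m1' m2' k.1 k.2.1 k.2.2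
    · exact h C A D B m2 m1 k.1 k.2.1 k.2.2
    · exact h C B D A m2 m1' k.1 k.2.1 k.2.2
    · exact h D A C B m2' m1 k.1 k.2.1 k.2.2
    · exact h D B C A m2' m1' k.1 k.2.1 k.2.2

private theorem eF_diag {n : ℕ} (e : V ≃ Fin n) (z : Sym2 V) : (eF e z).IsDiag ↔ z.IsDiag := by
  induction z using Sym2.ind with
  | h a b =>
    rw [eF_mk, Sym2.mk_isDiag_iff, Sym2.mk_isDiag_iff]
    exact ⟨fun h => e.injective (Fin.ext h), fun h => by rw [h]⟩

private theorem eF_mem {n : ℕ} (hn : 2 ≤ n) (e : V ≃ Fin n) (z : Sym2 V) (hz : ¬ z.IsDiag) :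
    eF e z ∈ GN 0 (n - 1) := by
  unfold GN
  rw [mem_filter, eF_diag]
  refine ⟨?_, hz⟩
  induction z using Sym2.ind with
  | h a b =>
    rw [eF_mk, mk_mem_sym2_iff, mem_Icc, mem_Icc]
    have := (e a).isLt
    have := (e b).isLt
    omega

private theorem exists_of_mem_GN {n : ℕ} (hn : 2 ≤ n) (e : V ≃ Fin n) {z : Sym2 ℕ}
    (hz : z ∈ GN 0 (n - 1)) : ∃ y : Sym2 V, ¬ y.IsDiag ∧ eF e y = z := by
  unfold GN at hz
  rw [mem_filter] at hz
  induction z using Sym2.ind with
  | h a b =>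
    rw [mk_mem_sym2_iff, mem_Icc, mem_Icc, Sym2.mk_isDiag_iff] at hz
    have ha : a < n := by omega
    have hb : b < n := by omega
    refine ⟨s(e.symm ⟨a, ha⟩, e.symm ⟨b, hb⟩), ?_, ?_⟩
    · rw [Sym2.mk_isDiag_iff]
      intro h
      have := e.symm.injective h
      exact hz.2 (Fin.mk.inj_iff.1 this)
    · rw [eF_mk]
      simp

private theorem ncn_mono {E E' : Finset (Sym2 ℕ)} (h : E ⊆ E') (h' : NCN E') : NCN E :=
  fun a b c d h1 h2 => h' a b c d (h h1) (h h2)

private theorem fam_iff {n : ℕ} (e : V ≃ Fin n) (E : Finset (Sym2 V)) :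
    Fam (chi (par e)) ∅ E ↔ (∀ z ∈ E, ¬ z.IsDiag) ∧ NCN (E.map (eF e)) := by
  constructor
  · intro h
    exact ⟨h.loop, (nc_iff e E).1 h.nc⟩
  · rintro ⟨h1, h2⟩
    exact ⟨h1, (nc_iff e E).2 h2, fun v hv => absurd hv (notMem_empty v)⟩

open Classical in
theorem par_card {n : ℕ} (hn : 2 ≤ n) (e : V ≃ Fin n) :
    ((univ : Finset (Finset (Sym2 V))).filter (fun E => MaxFam (chi (par e)) ∅ E)).card =
      catalan (n - 2) := by
  have hk := maxN_card 0 (n - 1) (by omega)
  rw [show n - 1 - 1 = n - 2 by omega] at hk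
  rw [← hk]
  refine card_bij (fun E _ => E.map (eF e)) ?_ ?_ ?_
  · intro E hE
    have hE' := (mem_filter.1 hE).2
    obtain ⟨hF, hM⟩ := hE'
    obtain ⟨hl, hN⟩ := (fam_iff e E).1 hF
    have hsub : E.map (eF e) ⊆ GN 0 (n - 1) := by
      intro z hz
      obtain ⟨y, hy, rfl⟩ := mem_map.1 hz
      exact eF_mem hn e y (hl y hy)
    refine mem_filter.2 ⟨mem_powerset.2 hsub, hsub, hN, ?_⟩
    intro z hz hzE hNC
    obtain ⟨y, hy, rfl⟩ := exists_of_mem_GN hn e hz
    have hyE : y ∉ E := fun h => hzE (mem_map_of_mem _ h)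
    have h1 : Fam (chi (par e)) ∅ (insert y E) := by
      rw [fam_iff]
      refine ⟨?_, ?_⟩
      · intro w hw
        rcases mem_insert.1 hw with rfl | hw
        · exact hy
        · exact hl w hw
      · rw [map_insert]
        exact hNC
    have h2 := hM _ (subset_insert y E) h1
    exact hyE (h2 ▸ mem_insert_self y E)
  · intro E _ E' _ h
    exact map_injective _ h
  · intro E' hE'
    obtain ⟨hp, hsub, hN, hM⟩ := mem_filter.1 hE'
    have hmap : (univ.filter (fun z => eF e z ∈ E')).map (eF e) = E' := by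
      ext z
      rw [mem_map]
      constructor
      · rintro ⟨y, hy, rfl⟩
        exact (mem_filter.1 hy).2
      · intro hz
        obtain ⟨y, _, rfl⟩ := exists_of_mem_GN hn e (hsub hz)
        exact ⟨y, mem_filter.2 ⟨mem_univ _, hz⟩, rfl⟩
    refine ⟨univ.filter (fun z => eF e z ∈ E'), ?_, hmap⟩
    refine mem_filter.2 ⟨mem_univ _, ?_, ?_⟩
    · rw [fam_iff, hmap]
      refine ⟨?_, hN⟩
      intro z hz
      have h1 := hsub (mem_filter.1 hz).2
      unfold GN at h1
      rw [mem_filter, eF_diag] at h1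
      exact h1.2
    · intro E'' hEE hF
      obtain ⟨hl, hN'⟩ := (fam_iff e E'').1 hF
      refine Subset.antisymm ?_ hEE
      intro z hz
      rw [mem_filter]
      refine ⟨mem_univ _, ?_⟩
      by_contra hcon
      refine hM (eF e z) (eF_mem hn e z (hl z hz)) hcon (ncn_mono ?_ hN')
      intro y hy
      rcases mem_insert.1 hy with rfl | hy
      · exact mem_map_of_mem _ hz
      · rw [← hmap] at hy
        exact map_subset_map.2 hEE hy

end PT39
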