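import Mathlib

/-!
# MP_02cc39_co/Mut, CatN: triangulations of a convex polygon, vertices `a, a + 1, …, a + k`

`GN a k`: all edges; `NCN E`: no two edges cross (`i < j < i' < j'` pattern); `MaxN a k E`: maximal
noncrossing sets.  FIXED definitions; the theorems are in CatN1, CatN2.
-/

set_option autoImplicit false

namespace PT39

open Finset

/-- the edges between the numbers `a, …, a + k`. -/
def GN (a k : ℕ) : Finset (Sym2 ℕ) :=
  (Finset.Icc a (a + k)).sym2.filter (fun e => ¬ e.IsDiag)

/-- no two edges cross. -/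
def NCN (E : Finset (Sym2 ℕ)) : Prop :=
  ∀ a b c d : ℕ, s(a, c) ∈ E → s(b, d) ∈ E → a < b → b < c → c < d → False

/-- the maximal noncrossing sets of edges. -/
def MaxN (a k : ℕ) (E : Finset (Sym2 ℕ)) : Prop :=
  E ⊆ GN a k ∧ NCN E ∧ ∀ e ∈ GN a k, e ∉ E → ¬ NCN (insert e E)

end PT39
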