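import Pool.Agent.Work.MP_02cc39_co.Mut.CatN

/-!
# MP_02cc39_co/Mut, CatN1 (size M-L): the apex decomposition

PROOFS.
`maxN_one`: `GN a 1 = {s(a, a+1)}`.
`maxN_split` (`2 ≤ k`, `b = a + k`).
(⇒) Let `MaxN a k E`.  `s(a, b) ∈ E` (it crosses nothing inside `[a, b]`), and `s(i, i+1) ∈ E` for
`a ≤ i < b` (crosses nothing).  Let `c` be the largest number `a < c < b` with `s(a, c) ∈ E` (`a + 1` is one).
`s(c, b) ∈ E`: by maximality it is enough that it crosses no edge of `E`; an edge crossing `s(c, b)` inside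
`[a, b]` has one end `x` with `c < x < b` and the other end `y` with `a ≤ y < c`; if `y = a` then `x` contradicts
the choice of `c`; if `a < y` it crosses `s(a, c)`.  Put `j = c - a`, `E₁ = E ∩ GN a j`, `E₂ = E ∩ GN c (k - j)`.
Every edge `s(x, y) ∈ E`, `x < y`, with `x < c < y` is `s(a, b)`: if `a < x` it crosses `s(a, c)`; if `x = a`, `y < b`
it crosses `s(c, b)`.  So `E = insert s(a, b) (E₁ ∪ E₂)`.  `MaxN a j E₁`: if `e ∈ GN a j` could be added to `E₁`
it could be added to `E` (edges inside `[a, c]` and edges inside `[c, b]` do not cross, and `s(a, b)` is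
crossed by nothing).  Same for `E₂`.
(⇐) `E = insert s(a, b) (E₁ ∪ E₂)` is noncrossing, inside `GN a k`.  Maximal: let `e = s(x, y) ∈ GN a k`, `x < y`,
`e ∉ E`.  If `y ≤ c`: `e ∈ GN a j \ E₁`, so it crosses an edge of `E₁` (noncrossing fails for
`insert e E₁ ⊆ insert e E`).  Same if `c ≤ x`.  Otherwise `x < c < y`, and `e ≠ s(a, b)`: it crosses
`s(a, c) ∈ E₁` or `s(c, b) ∈ E₂` (these edges are in every maximal set of their intervals).
`maxN_uniq`: `c` is determined by `E`: it is the only number with `a < c < b`, `s(a, c), s(c, b) ∈ E` (two such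
`c < c'`: `s(a, c')` and `s(c, b)` cross), and `E₁ = E ∩ GN a j`, `E₂ = E ∩ GN c (k - j)` (`s(a, b)` is in neither,
and `GN a j ∩ GN c (k - j) = ∅`).
-/

set_option autoImplicit false

namespace PT39

open Finset

private theorem mem_GN {a k x y : ℕ} :
    s(x, y) ∈ GN a k ↔ (a ≤ x ∧ x ≤ a + k) ∧ (a ≤ y ∧ y ≤ a + k) ∧ x ≠ y := by
  unfold GN
  rw [Finset.mem_filter, Finset.mk_mem_sym2_iff, Finset.mem_Icc, Finset.mem_Icc,
    Sym2.mk_isDiag_iff]
  tauto

private theorem GN_cases {a k : ℕ} {e : Sym2 ℕ} (he : e ∈ GN a k) :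
    ∃ x y, e = s(x, y) ∧ a ≤ x ∧ x < y ∧ y ≤ a + k := by
  induction e using Sym2.ind with
  | _ x y =>
    rw [mem_GN] at he
    obtain ⟨⟨h1, h2⟩, ⟨h3, h4⟩, h5⟩ := he
    rcases lt_or_gt_of_ne h5 with h | h
    · exact ⟨x, y, rfl, h1, h, h4⟩
    · exact ⟨y, x, Sym2.eq_swap, h3, h, h2⟩

private theorem mk_eq {p r x y : ℕ} (h : s(p, r) = s(x, y)) (h1 : p < r) (h2 : x < y) :
    p = x ∧ r = y := by
  rw [Sym2.eq_iff] at h
  omega

private theorem ncn_mono {E F : Finset (Sym2 ℕ)} (h : E ⊆ F) (hF : NCN F) : NCN E :=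
  fun a b c d h1 h2 => hF a b c d (h h1) (h h2)

private theorem max_mem {a k : ℕ} {E : Finset (Sym2 ℕ)} (h : MaxN a k E) {x y : ℕ} (hx : a ≤ x)
    (hxy : x < y) (hy : y ≤ a + k)
    (hc : ∀ u v, s(u, v) ∈ E → u < v → ¬ (x < u ∧ u < y ∧ y < v) ∧ ¬ (u < x ∧ x < v ∧ v < y)) :
    s(x, y) ∈ E := by
  by_contra hn
  refine h.2.2 s(x, y) (mem_GN.2 ⟨⟨hx, by omega⟩, ⟨by omega, hy⟩, by omega⟩) hn ?_
  intro p q r t h1 h2 hpq hqr hrt
  rw [Finset.mem_insert] at h1 h2
  rcases h1 with h1 | h1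
  · obtain ⟨rfl, rfl⟩ := mk_eq h1 (by omega) hxy
    rcases h2 with h2 | h2
    · obtain ⟨h3, h4⟩ := mk_eq h2 (by omega) hxy
      omega
    · exact (hc q t h2 (by omega)).1 ⟨hpq, hqr, hrt⟩
  · rcases h2 with h2 | h2
    · obtain ⟨rfl, rfl⟩ := mk_eq h2 (by omega) hxy
      exact (hc p r h1 (by omega)).2 ⟨hpq, hqr, hrt⟩
    · exact h.2.1 p q r t h1 h2 hpq hqr hrt

private theorem lims {a k : ℕ} {E : Finset (Sym2 ℕ)} (h : E ⊆ GN a k) {u v : ℕ}
    (he : s(u, v) ∈ E) : a ≤ u ∧ u ≤ a + k ∧ a ≤ v ∧ v ≤ a + k := by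
  have h1 := mem_GN.1 (h he)
  exact ⟨h1.1.1, h1.1.2, h1.2.1.1, h1.2.1.2⟩

private theorem long_mem {a k : ℕ} {E : Finset (Sym2 ℕ)} (h : MaxN a k E) (hk : 1 ≤ k) :
    s(a, a + k) ∈ E := by
  refine max_mem h le_rfl (by omega) le_rfl ?_
  intro u v he huv
  have h1 := lims h.1 he
  constructor <;> rintro ⟨h2, h3, h4⟩ <;> omega

private theorem short_mem {a k : ℕ} {E : Finset (Sym2 ℕ)} (h : MaxN a k E) (hk : 1 ≤ k) :
    s(a, a + 1) ∈ E := by
  refine max_mem h le_rfl (by omega) (by omega) ?_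
  intro u v he huv
  have h1 := lims h.1 he
  constructor <;> rintro ⟨h2, h3, h4⟩ <;> omega

theorem maxN_one (a : ℕ) (E : Finset (Sym2 ℕ)) : MaxN a 1 E ↔ E = {s(a, a + 1)} := by
  have key : ∀ e ∈ GN a 1, e = s(a, a + 1) := by
    intro e he
    obtain ⟨x, y, rfl, h1, h2, h3⟩ := GN_cases he
    have h4 : x = a := by omega
    have h5 : y = a + 1 := by omega
    rw [h4, h5]
  constructor
  · intro h
    ext e
    rw [Finset.mem_singleton]
    constructor
    · intro he
      exact key e (h.1 he)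
    · rintro rfl
      exact long_mem h le_rfl
  · rintro rfl
    refine ⟨?_, ?_, ?_⟩
    · intro e he
      rw [Finset.mem_singleton] at he
      rw [he, mem_GN]
      omega
    · intro p q r t h1 h2 hpq hqr hrt
      rw [Finset.mem_singleton] at h1 h2
      have h3 := mk_eq h1 (by omega) (Nat.lt_succ_self a)
      have h4 := mk_eq h2 (by omega) (Nat.lt_succ_self a)
      omega
    · intro e he hn
      exact absurd (Finset.mem_singleton.2 (key e he)) hn

private theorem split_back (a k j : ℕ) (hj : 1 ≤ j) (hjk : j < k) (E₁ E₂ : Finset (Sym2 ℕ))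
    (h1 : MaxN a j E₁) (h2 : MaxN (a + j) (k - j) E₂) :
    MaxN a k (insert s(a, a + k) (E₁ ∪ E₂)) := by
  have hb : a + j + (k - j) = a + k := by omega
  have hsub : insert s(a, a + k) (E₁ ∪ E₂) ⊆ GN a k := by
    intro e he
    rw [Finset.mem_insert, Finset.mem_union] at he
    rcases he with rfl | he | he
    · rw [mem_GN]; omega
    · obtain ⟨x, y, rfl, h3, h4, h5⟩ := GN_cases (h1.1 he)
      rw [mem_GN]; omega
    · obtain ⟨x, y, rfl, h3, h4, h5⟩ := GN_cases (h2.1 he)
      rw [mem_GN]; omega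
  refine ⟨hsub, ?_, ?_⟩
  · intro p q r t e1 e2 hpq hqr hrt
    have l1 := lims hsub e1
    have l2 := lims hsub e2
    rw [Finset.mem_insert, Finset.mem_union] at e1 e2
    rcases e1 with e1 | e1 | e1
    · have := mk_eq e1 (by omega) (by omega)
      omega
    · rcases e2 with e2 | e2 | e2
      · have := mk_eq e2 (by omega) (by omega)
        omega
      · exact h1.2.1 p q r t e1 e2 hpq hqr hrt
      · have l3 := lims h1.1 e1
        have l4 := lims h2.1 e2
        omega
    · rcases e2 with e2 | e2 | e2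
      · have := mk_eq e2 (by omega) (by omega)
        omega
      · have l3 := lims h2.1 e1
        have l4 := lims h1.1 e2
        omega
      · exact h2.2.1 p q r t e1 e2 hpq hqr hrt
  · intro e he hn hnc
    rw [Finset.mem_insert, Finset.mem_union] at hn
    obtain ⟨x, y, rfl, h3, h4, h5⟩ := GN_cases he
    by_cases hy : y ≤ a + j
    · refine h1.2.2 s(x, y) (mem_GN.2 ⟨⟨h3, by omega⟩, ⟨by omega, hy⟩, by omega⟩)
        (fun hm => hn (Or.inr (Or.inl hm))) (ncn_mono ?_ hnc)
      intro f hf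
      rw [Finset.mem_insert] at hf
      rw [Finset.mem_insert, Finset.mem_insert, Finset.mem_union]
      tauto
    · by_cases hx : a + j ≤ x
      · refine h2.2.2 s(x, y) (mem_GN.2 ⟨⟨hx, by omega⟩, ⟨by omega, by omega⟩, by omega⟩)
          (fun hm => hn (Or.inr (Or.inr hm))) (ncn_mono ?_ hnc)
        intro f hf
        rw [Finset.mem_insert] at hf
        rw [Finset.mem_insert, Finset.mem_insert, Finset.mem_union]
        tauto
      · by_cases hxa : a < x
        · refine hnc a x (a + j) y ?_ (Finset.mem_insert_self _ _) hxa (by omega) (by omega)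
          have := long_mem h1 hj
          rw [Finset.mem_insert, Finset.mem_insert, Finset.mem_union]
          tauto
        · have hxa' : x = a := by omega
          subst hxa'
          by_cases hyb : y < x + k
          · refine hnc x (x + j) y (x + k) (Finset.mem_insert_self _ _) ?_ (by omega) (by omega) hyb
            have := long_mem h2 (by omega)
            rw [hb] at this
            rw [Finset.mem_insert, Finset.mem_insert, Finset.mem_union]
            tauto
          · have : y = x + k := by omega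
            subst this
            exact hn (Or.inl rfl)

theorem maxN_split (a k : ℕ) (hk : 2 ≤ k) (E : Finset (Sym2 ℕ)) : MaxN a k E ↔
    ∃ j, 1 ≤ j ∧ j < k ∧ ∃ E₁ E₂, MaxN a j E₁ ∧ MaxN (a + j) (k - j) E₂ ∧
      E = insert s(a, a + k) (E₁ ∪ E₂) := by
  constructor
  · intro h
    have hne : ((Finset.Ioo a (a + k)).filter (fun c => s(a, c) ∈ E)).Nonempty := by
      refine ⟨a + 1, ?_⟩
      rw [Finset.mem_filter, Finset.mem_Ioo]
      exact ⟨by omega, short_mem h (by omega)⟩
    obtain ⟨c, hc, hmax⟩ := Finset.exists_max_image _ id hne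
    rw [Finset.mem_filter, Finset.mem_Ioo] at hc
    obtain ⟨⟨hac, hcb⟩, hcE⟩ := hc
    have hmax' : ∀ x, a < x → x < a + k → s(a, x) ∈ E → x ≤ c := by
      intro x h1 h2 h3
      exact hmax x (by rw [Finset.mem_filter, Finset.mem_Ioo]; exact ⟨⟨h1, h2⟩, h3⟩)
    obtain ⟨j, rfl⟩ : ∃ j, c = a + j := ⟨c - a, by omega⟩
    have hb : a + j + (k - j) = a + k := by omega
    have hcb' : s(a + j, a + k) ∈ E := by
      refine max_mem h (by omega) hcb le_rfl ?_
      intro u v he huv
      have l := lims h.1 he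
      refine ⟨by rintro ⟨h1, h2, h3⟩; omega, ?_⟩
      rintro ⟨h1, h2, h3⟩
      by_cases hu : a < u
      · exact h.2.1 a u (a + j) v hcE he hu h1 h2
      · have : u = a := by omega
        subst this
        have := hmax' v (by omega) h3 he
        omega
    have F4 : ∀ x y, s(x, y) ∈ E → x < y → x < a + j → a + j < y → x = a ∧ y = a + k := by
      intro x y he hxy h1 h2
      have l := lims h.1 he
      have hx : x = a := by
        by_contra hx
        exact h.2.1 a x (a + j) y hcE he (by omega) h1 h2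
      refine ⟨hx, ?_⟩
      by_contra hy
      exact h.2.1 x (a + j) y (a + k) he hcb' h1 h2 (by omega)
    refine ⟨j, by omega, by omega, E ∩ GN a j, E ∩ GN (a + j) (k - j), ?_, ?_, ?_⟩
    · refine ⟨Finset.inter_subset_right, ncn_mono Finset.inter_subset_left h.2.1, ?_⟩
      intro e he hn hnc
      obtain ⟨x, y, rfl, h3, h4, h5⟩ := GN_cases he
      refine hn (Finset.mem_inter.2 ⟨?_, he⟩)
      refine max_mem h h3 h4 (by omega) ?_
      intro u v hm huv
      have l := lims h.1 hm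
      by_cases hv : v ≤ a + j
      · have hm1 : s(u, v) ∈ insert s(x, y) (E ∩ GN a j) := by
          rw [Finset.mem_insert, Finset.mem_inter, mem_GN]
          exact Or.inr ⟨hm, by omega⟩
        constructor
        · rintro ⟨h6, h7, h8⟩
          exact hnc x u y v (Finset.mem_insert_self _ _) hm1 h6 h7 h8
        · rintro ⟨h6, h7, h8⟩
          exact hnc u x v y hm1 (Finset.mem_insert_self _ _) h6 h7 h8
      · by_cases hu : u < a + j
        · obtain ⟨rfl, rfl⟩ := F4 u v hm huv hu (by omega)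
          constructor <;> rintro ⟨h6, h7, h8⟩ <;> omega
        · constructor <;> rintro ⟨h6, h7, h8⟩ <;> omega
    · refine ⟨Finset.inter_subset_right, ncn_mono Finset.inter_subset_left h.2.1, ?_⟩
      intro e he hn hnc
      obtain ⟨x, y, rfl, h3, h4, h5⟩ := GN_cases he
      refine hn (Finset.mem_inter.2 ⟨?_, he⟩)
      refine max_mem h (by omega) h4 (by omega) ?_
      intro u v hm huv
      have l := lims h.1 hm
      by_cases hu : a + j ≤ u
      · have hm1 : s(u, v) ∈ insert s(x, y) (E ∩ GN (a + j) (k - j)) := by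
          rw [Finset.mem_insert, Finset.mem_inter, mem_GN]
          exact Or.inr ⟨hm, by omega⟩
        constructor
        · rintro ⟨h6, h7, h8⟩
          exact hnc x u y v (Finset.mem_insert_self _ _) hm1 h6 h7 h8
        · rintro ⟨h6, h7, h8⟩
          exact hnc u x v y hm1 (Finset.mem_insert_self _ _) h6 h7 h8
      · by_cases hv : a + j < v
        · obtain ⟨rfl, rfl⟩ := F4 u v hm huv (by omega) hv
          constructor <;> rintro ⟨h6, h7, h8⟩ <;> omega
        · constructor <;> rintro ⟨h6, h7, h8⟩ <;> omega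
    · ext e
      rw [Finset.mem_insert, Finset.mem_union, Finset.mem_inter, Finset.mem_inter]
      constructor
      · intro he
        obtain ⟨x, y, rfl, h3, h4, h5⟩ := GN_cases (h.1 he)
        by_cases hy : y ≤ a + j
        · exact Or.inr (Or.inl ⟨he, mem_GN.2 (by omega)⟩)
        · by_cases hx : a + j ≤ x
          · exact Or.inr (Or.inr ⟨he, mem_GN.2 (by omega)⟩)
          · obtain ⟨rfl, rfl⟩ := F4 x y he h4 (by omega) (by omega)
            exact Or.inl rfl
      · rintro (rfl | h1 | h1)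
        · exact long_mem h (by omega)
        · exact h1.1
        · exact h1.1
  · rintro ⟨j, h1, h2, E₁, E₂, h3, h4, rfl⟩
    exact split_back a k j h1 h2 E₁ E₂ h3 h4

private theorem uniq_j (a k j j' : ℕ) (hj : 1 ≤ j) (hjk : j < k) (hj' : 1 ≤ j') (hjk' : j' < k)
    (E₁ E₂ E₁' E₂' : Finset (Sym2 ℕ)) (h1 : MaxN a j E₁) (h2 : MaxN (a + j) (k - j) E₂)
    (h1' : MaxN a j' E₁')
    (h : insert s(a, a + k) (E₁ ∪ E₂) = insert s(a, a + k) (E₁' ∪ E₂')) : j' ≤ j := by
  by_contra hlt
  have hb : a + j + (k - j) = a + k := by omega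
  have hm := split_back a k j hj hjk E₁ E₂ h1 h2
  refine hm.2.1 a (a + j) (a + j') (a + k) ?_ ?_ (by omega) (by omega) (by omega)
  · rw [h, Finset.mem_insert, Finset.mem_union]
    exact Or.inr (Or.inl (long_mem h1' hj'))
  · have := long_mem h2 (by omega)
    rw [hb] at this
    rw [Finset.mem_insert, Finset.mem_union]
    exact Or.inr (Or.inr this)

private theorem uniq_sub (a k j : ℕ) (hj : 1 ≤ j) (hjk : j < k)
    (E₁ E₂ E₁' E₂' : Finset (Sym2 ℕ)) (h1 : MaxN a j E₁) (h2 : MaxN (a + j) (k - j) E₂)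
    (h1' : MaxN a j E₁') (h2' : MaxN (a + j) (k - j) E₂')
    (h : insert s(a, a + k) (E₁ ∪ E₂) = insert s(a, a + k) (E₁' ∪ E₂')) :
    E₁ ⊆ E₁' ∧ E₂ ⊆ E₂' := by
  constructor
  · intro e he
    have hm : e ∈ insert s(a, a + k) (E₁' ∪ E₂') := by
      rw [← h, Finset.mem_insert, Finset.mem_union]
      exact Or.inr (Or.inl he)
    obtain ⟨x, y, rfl, h3, h4, h5⟩ := GN_cases (h1.1 he)
    rw [Finset.mem_insert, Finset.mem_union] at hm
    rcases hm with hm | hm | hm
    · have := mk_eq hm h4 (by omega)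
      omega
    · exact hm
    · have := lims h2'.1 hm
      omega
  · intro e he
    have hm : e ∈ insert s(a, a + k) (E₁' ∪ E₂') := by
      rw [← h, Finset.mem_insert, Finset.mem_union]
      exact Or.inr (Or.inr he)
    obtain ⟨x, y, rfl, h3, h4, h5⟩ := GN_cases (h2.1 he)
    rw [Finset.mem_insert, Finset.mem_union] at hm
    rcases hm with hm | hm | hm
    · have := mk_eq hm h4 (by omega)
      omega
    · have := lims h1'.1 hm
      omega
    · exact hm

theorem maxN_uniq (a k j j' : ℕ) (hj : 1 ≤ j) (hjk : j < k) (hj' : 1 ≤ j') (hjk' : j' < k)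
    (E₁ E₂ E₁' E₂' : Finset (Sym2 ℕ)) (h1 : MaxN a j E₁) (h2 : MaxN (a + j) (k - j) E₂)
    (h1' : MaxN a j' E₁') (h2' : MaxN (a + j') (k - j') E₂')
    (h : insert s(a, a + k) (E₁ ∪ E₂) = insert s(a, a + k) (E₁' ∪ E₂')) :
    j = j' ∧ E₁ = E₁' ∧ E₂ = E₂' := by
  have e1 := uniq_j a k j j' hj hjk hj' hjk' E₁ E₂ E₁' E₂' h1 h2 h1' h
  have e2 := uniq_j a k j' j hj' hjk' hj hjk E₁' E₂' E₁ E₂ h1' h2' h1 h.symm
  have e3 : j = j' := by omega
  subst e3
  have s1 := uniq_sub a k j hj hjk E₁ E₂ E₁' E₂' h1 h2 h1' h2' h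
  have s2 := uniq_sub a k j hj hjk E₁' E₂' E₁ E₂ h1' h2' h1 h2 h.symm
  exact ⟨rfl, Finset.Subset.antisymm s1.1 s2.1, Finset.Subset.antisymm s1.2 s2.2⟩

end PT39
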