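import Pool.Agent.Work.MP_02cc39_co.Mut.CatN1

/-!
# MP_02cc39_co/Mut, CatN2 (size M): the Catalan numbers

PROOF.  Strong induction on `k ≥ 1`, all `a`.  `T a k = (GN a k).powerset.filter (MaxN a k)` (all maximal
sets are subsets of `GN a k`).  `k = 1`: `maxN_one`, `catalan 0 = 1`.  `k ≥ 2`: by `maxN_split` and
`maxN_uniq` the map `(j, E₁, E₂) ↦ insert s(a, a + k) (E₁ ∪ E₂)` is a bijection from the disjoint union over
`1 ≤ j < k` of `T a j ×ˢ T (a + j) (k - j)` to `T a k`, so
`(T a k).card = ∑ j, catalan (j - 1) * catalan (k - j - 1)`, which is `catalan (k - 1)` by `catalan_succ`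
(`catalan (n + 1) = ∑ i : Fin n.succ, catalan i * catalan (n - i)`, `n = k - 2`, `i = j - 1`).
-/

set_option autoImplicit false

namespace PT39

open Finset

open Classical in
theorem maxN_card (a k : ℕ) (hk : 1 ≤ k) :
    ((GN a k).powerset.filter (fun E => MaxN a k E)).card = catalan (k - 1) := by
  have hmem : ∀ (a k : ℕ) (E : Finset (Sym2 ℕ)),
      E ∈ (GN a k).powerset.filter (fun E => MaxN a k E) ↔ MaxN a k E := by
    intro a k E
    rw [Finset.mem_filter, Finset.mem_powerset]
    exact ⟨fun h => h.2, fun h => ⟨h.1, h⟩⟩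
  induction k using Nat.strong_induction_on generalizing a with
  | _ k ih =>
    by_cases h1 : k = 1
    · subst h1
      have : (GN a 1).powerset.filter (fun E => MaxN a 1 E) = {{s(a, a + 1)}} := by
        ext E
        rw [hmem, maxN_one, Finset.mem_singleton]
      rw [this]
      simp
    · have hk2 : 2 ≤ k := by omega
      have hdec : (GN a k).powerset.filter (fun E => MaxN a k E) =
          (Finset.Ico 1 k).biUnion (fun j =>
            (((GN a j).powerset.filter (fun E => MaxN a j E)) ×ˢ
              ((GN (a + j) (k - j)).powerset.filter (fun E => MaxN (a + j) (k - j) E))).image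
              (fun p => insert s(a, a + k) (p.1 ∪ p.2))) := by
        ext E
        rw [hmem, maxN_split a k hk2, Finset.mem_biUnion]
        constructor
        · rintro ⟨j, hj1, hj2, E₁, E₂, m1, m2, rfl⟩
          refine ⟨j, Finset.mem_Ico.2 ⟨hj1, hj2⟩, Finset.mem_image.2 ⟨(E₁, E₂), ?_, rfl⟩⟩
          rw [Finset.mem_product]
          exact ⟨(hmem _ _ _).2 m1, (hmem _ _ _).2 m2⟩
        · rintro ⟨j, hj, hE⟩
          obtain ⟨⟨E₁, E₂⟩, hp, rfl⟩ := Finset.mem_image.1 hE
          rw [Finset.mem_product] at hp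
          rw [Finset.mem_Ico] at hj
          exact ⟨j, hj.1, hj.2, E₁, E₂, (hmem _ _ _).1 hp.1, (hmem _ _ _).1 hp.2, rfl⟩
      rw [hdec, Finset.card_biUnion]
      · have hterm : ∀ j ∈ Finset.Ico 1 k,
            ((((GN a j).powerset.filter (fun E => MaxN a j E)) ×ˢ
              ((GN (a + j) (k - j)).powerset.filter (fun E => MaxN (a + j) (k - j) E))).image
              (fun p => insert s(a, a + k) (p.1 ∪ p.2))).card =
              catalan (j - 1) * catalan (k - j - 1) := by
          intro j hj
          rw [Finset.mem_Ico] at hj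
          rw [Finset.card_image_of_injOn, Finset.card_product, ih j hj.2 a hj.1,
            ih (k - j) (by omega) (a + j) (by omega)]
          rintro ⟨E₁, E₂⟩ hp ⟨E₁', E₂'⟩ hp' he
          rw [Finset.mem_coe, Finset.mem_product] at hp hp'
          obtain ⟨_, e1, e2⟩ := maxN_uniq a k j j hj.1 hj.2 hj.1 hj.2 E₁ E₂ E₁' E₂'
            ((hmem _ _ _).1 hp.1) ((hmem _ _ _).1 hp.2) ((hmem _ _ _).1 hp'.1)
            ((hmem _ _ _).1 hp'.2) he
          rw [e1, e2]
        rw [Finset.sum_congr rfl hterm, Finset.sum_Ico_eq_sum_range]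
        obtain ⟨n, rfl⟩ : ∃ n, k = n + 2 := ⟨k - 2, by omega⟩
        have e3 : n + 2 - 1 = n + 1 := by omega
        rw [e3, catalan_succ, Finset.sum_range]
        apply Finset.sum_congr rfl
        intro i _
        have e4 : 1 + (i : ℕ) - 1 = i := by omega
        have e5 : n + 2 - (1 + (i : ℕ)) - 1 = n - i := by omega
        rw [e4, e5]
      · intro j hj j' hj' hne
        rw [Finset.mem_coe, Finset.mem_Ico] at hj hj'
        rw [Function.onFun, Finset.disjoint_left]
        intro E hE hE'
        obtain ⟨⟨E₁, E₂⟩, hp, rfl⟩ := Finset.mem_image.1 hE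
        obtain ⟨⟨E₁', E₂'⟩, hp', he⟩ := Finset.mem_image.1 hE'
        rw [Finset.mem_product] at hp hp'
        apply hne
        exact (maxN_uniq a k j j' hj.1 hj.2 hj'.1 hj'.2 E₁ E₂ E₁' E₂'
            ((hmem _ _ _).1 hp.1) ((hmem _ _ _).1 hp.2) ((hmem _ _ _).1 hp'.1)
            ((hmem _ _ _).1 hp'.2) he.symm).1

end PT39
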