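import Pool.Agent.Work.MP_02cc39_co.Mut.Chi

/-!
# MP_02cc39_co/Mut, CfgChi (size S-M): configurations satisfy the axioms

PROOFS.  `cyc`, `anti`: `ori P a b c = ori P b c a` (`ring`), `ori P b a c = - ori P a b c` (`ring`), and
`ori P a b c ≠ 0`.  `trans`: for vectors `x, y, z, r` at `p` (2 × 2 determinants `[u, v]`), with
`[r, x], [r, y], [r, z], [x, y], [y, z] > 0`: the identity
`[r, y] [x, z] = [r, x] [y, z] + [r, z] [x, y]` (Grassmann-Pluecker, `ring`) gives `[x, z] > 0`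
(`ori P p a b = [a - p, b - p]`).
`mut_of_cfg`: `C` is a configuration with `C p = (1 - l) • C q + l • C r`, `0 < l < 1`, all triples except
`{p, q, r}` nonzero, and `PA`, `PB` in general position have the same signs as `C` on all triples
of different points except `{p, q, r}`.  `agree`: clear.  `side1`: `ori C q p s = l * ori C q r s`;
`side2`: `ori C p r s = (1 - l) * ori C q r s`; `betw`: `ori C s t p = (1 - l) * ori C s t q + l * ori C s t r`.
-/

set_option autoImplicit false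

namespace PT39

variable {V : Type} [Fintype V] [DecidableEq V]

private theorem ori_cyc (P : Cfg V) (a b c : V) : ori P a b c = ori P b c a := by
  unfold ori
  ring

private theorem ori_anti (P : Cfg V) (a b c : V) : ori P b a c = -ori P a b c := by
  unfold ori
  ring

private theorem plu (P : Cfg V) (p r x y z : V) : ori P p r y * ori P p x z =
    ori P p r x * ori P p y z + ori P p r z * ori P p x y := by
  unfold ori
  ring

theorem isChi_of_gp {P : Cfg V} (hP : GP P) : IsChi (chi P) := by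
  refine ⟨?_, ?_, ?_⟩
  · intro a b c _ _ _ h
    show 0 < ori P b c a
    rw [← ori_cyc]
    exact h
  · intro a b c h1 h2 h3
    have h4 := hP a b c h1 h2 h3
    show 0 < ori P a b c ↔ ¬ 0 < ori P b a c
    rw [ori_anti P a b c, neg_pos, not_lt]
    exact ⟨fun h => h.le, fun h => lt_of_le_of_ne h h4.symm⟩
  · intro p r x y z _ _ _ _ _ _ _ _ _ _ h1 h2 h3 h4 h5
    have h6 := plu P p r x y z
    have h7 : 0 < ori P p r y * ori P p x z := by
      rw [h6]
      exact add_pos (mul_pos h1 h5) (mul_pos h3 h4)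
    exact (pos_iff_pos_of_mul_pos h7).1 h2

theorem mut_of_cfg {PA PB C : Cfg V} (hA : GP PA) (hB : GP PB) {p q r : V} (hpq : p ≠ q)
    (hpr : p ≠ r) (hqr : q ≠ r) (l : ℝ) (hl0 : 0 < l) (hl1 : l < 1)
    (hC : C p = (1 - l) • C q + l • C r)
    (hs : ∀ a b c : V, a ≠ b → a ≠ c → b ≠ c → (∃ z, (z = p ∨ z = q ∨ z = r) ∧ a ≠ z ∧ b ≠ z ∧ c ≠ z) →
      ori C a b c ≠ 0 ∧ (0 < ori C a b c ↔ 0 < ori PA a b c) ∧ (0 < ori C a b c ↔ 0 < ori PB a b c))
    (hup : 0 < ori PA q r p) (hdn : ori PB q r p < 0) : Mut (chi PA) (chi PB) p q r := by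
  have _ := hA
  have _ := hB
  have c1 : (C p).1 = (1 - l) * (C q).1 + l * (C r).1 := by
    rw [hC]
    rfl
  have c2 : (C p).2 = (1 - l) * (C q).2 + l * (C r).2 := by
    rw [hC]
    rfl
  refine ⟨hpq, hpr, hqr, ?_, hup, not_lt.2 hdn.le, ?_, ?_, ?_⟩
  · intro a b c h1 h2 h3 hz
    obtain ⟨-, h4, h5⟩ := hs a b c h1 h2 h3 hz
    exact h4.symm.trans h5
  · intro s h1 h2 h3
    obtain ⟨-, e1, -⟩ := hs q r s hqr h2.symm h3.symm ⟨p, Or.inl rfl, hpq.symm, hpr.symm, h1⟩
    obtain ⟨-, e2, -⟩ := hs q p s hpq.symm h2.symm h1.symm ⟨r, Or.inr (Or.inr rfl), hqr, hpr, h3⟩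
    have e3 : ori C q p s = l * ori C q r s := by
      unfold ori
      rw [c1, c2]
      ring
    show 0 < ori PA q r s ↔ 0 < ori PA q p s
    rw [← e1, ← e2, e3]
    exact (mul_pos_iff_of_pos_left hl0).symm
  · intro s h1 h2 h3
    obtain ⟨-, e1, -⟩ := hs q r s hqr h2.symm h3.symm ⟨p, Or.inl rfl, hpq.symm, hpr.symm, h1⟩
    obtain ⟨-, e2, -⟩ := hs p r s hpr h1.symm h3.symm ⟨q, Or.inr (Or.inl rfl), hpq, hqr.symm, h2⟩
    have e3 : ori C p r s = (1 - l) * ori C q r s := by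
      unfold ori
      rw [c1, c2]
      ring
    show 0 < ori PA q r s ↔ 0 < ori PA p r s
    rw [← e1, ← e2, e3]
    exact (mul_pos_iff_of_pos_left (sub_pos.2 hl1)).symm
  · intro s t hst h1 h2 h3 h4 h5 h6
    obtain ⟨n1, e1, -⟩ := hs s t q hst h2 h5 ⟨p, Or.inl rfl, h1, h4, hpq.symm⟩
    obtain ⟨n2, e2, -⟩ := hs s t r hst h3 h6 ⟨p, Or.inl rfl, h1, h4, hpr.symm⟩
    obtain ⟨-, e4, -⟩ := hs s t p hst h1 h4 ⟨q, Or.inr (Or.inl rfl), h2, h5, hpq⟩
    have e3 : ori C s t p = (1 - l) * ori C s t q + l * ori C s t r := by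
      unfold ori
      rw [c1, c2]
      ring
    show (0 < ori PA s t q ↔ 0 < ori PA s t r) → (0 < ori PA s t q ↔ 0 < ori PA s t p)
    rw [← e1, ← e2, ← e4, e3]
    intro h7
    have hl2 : 0 < 1 - l := sub_pos.2 hl1
    rcases lt_or_gt_of_ne n1 with h8 | h8
    · have h9 : ¬ 0 < ori C s t r := fun h => absurd (h7.2 h) (not_lt.2 h8.le)
      refine ⟨fun h => absurd h (not_lt.2 h8.le), fun h => ?_⟩
      have h10 : (1 - l) * ori C s t q < 0 := mul_neg_of_pos_of_neg hl2 h8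
      have h11 : l * ori C s t r ≤ 0 := mul_nonpos_of_nonneg_of_nonpos hl0.le (not_lt.1 h9)
      linarith
    · refine ⟨fun _ => ?_, fun _ => h8⟩
      exact add_pos (mul_pos hl2 h8) (mul_pos hl0 (h7.1 h8))

end PT39
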