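import Mathlib

/-!
# MP_02cc39_co/Mut, Chi (FIXED definitions, do not change)

The mutation law for noncrossing graphs (blueprint `/team-store/MP_02cc39_lean_helper8.md`).
`χ a b c` : the points `a, b, c` (different) are in counterclockwise order.
-/

set_option autoImplicit false

namespace PT39

open Finset Polynomial

variable {V : Type} [Fintype V] [DecidableEq V]

/-- orientation data of a point set. -/
abbrev Ori (V : Type) := V → V → V → Prop

/-- the segments `ab` and `cd` cross (for four different points). -/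
def Cross (χ : Ori V) (a b c d : V) : Prop := ¬ (χ a b c ↔ χ a b d) ∧ ¬ (χ c d a ↔ χ c d b)

/-- noncrossing sets of edges. -/
def NC (χ : Ori V) (E : Finset (Sym2 V)) : Prop :=
  ∀ a b c d : V, s(a, b) ∈ E → s(c, d) ∈ E → a ≠ b → c ≠ d → a ≠ c → a ≠ d → b ≠ c → b ≠ d →
    ¬ Cross χ a b c d

/-- the neighbours of `v`. -/
def nb (E : Finset (Sym2 V)) (v : V) : Finset V := univ.filter (fun x => s(v, x) ∈ E)

/-- `N` is pointed at `v`: all points of `N` are in an open half plane at `v` (some `x ∈ N` has all the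
others on its left side, seen from `v`). -/
def Ptd (χ : Ori V) (v : V) (N : Finset V) : Prop :=
  N = ∅ ∨ ∃ x ∈ N, ∀ y ∈ N, y ≠ x → χ v x y

/-- the noncrossing graphs which are pointed at all points of `W`. -/
structure Fam (χ : Ori V) (W : Finset V) (E : Finset (Sym2 V)) : Prop where
  loop : ∀ e ∈ E, ¬ e.IsDiag
  nc : NC χ E
  ptd : ∀ v ∈ W, Ptd χ v (nb E v)

open Classical in
/-- the counting polynomial of `Fam χ W`. -/
noncomputable def fpol (χ : Ori V) (W : Finset V) : ℤ[X] :=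
  ∑ E : Finset (Sym2 V), if Fam χ W E then X ^ E.card else 0

/-- the maximal sets of `Fam χ W`. -/
def MaxFam (χ : Ori V) (W : Finset V) (E : Finset (Sym2 V)) : Prop :=
  Fam χ W E ∧ ∀ E', E ⊆ E' → Fam χ W E' → E' = E

open Classical in
/-- the hull points: all other points are in an open half plane. -/
noncomputable def Hull (χ : Ori V) : Finset V := univ.filter (fun v => Ptd χ v (univ.erase v))

/-- the axioms used (Knuth's CC systems without interiority). -/
structure IsChi (χ : Ori V) : Prop where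
  cyc : ∀ a b c, a ≠ b → a ≠ c → b ≠ c → χ a b c → χ b c a
  anti : ∀ a b c, a ≠ b → a ≠ c → b ≠ c → (χ a b c ↔ ¬ χ b a c)
  trans : ∀ p r x y z, p ≠ r → p ≠ x → p ≠ y → p ≠ z → r ≠ x → r ≠ y → r ≠ z → x ≠ y → x ≠ z →
    y ≠ z → χ p r x → χ p r y → χ p r z → χ p x y → χ p y z → χ p x z

/-- the point `p` crosses the segment `qr`: it is on the left of `q r` in `A`, on the right in `B`, and
nothing else changes. -/
structure Mut (A B : Ori V) (p q r : V) : Prop where
  hpq : p ≠ q
  hpr : p ≠ r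
  hqr : q ≠ r
  agree : ∀ a b c, a ≠ b → a ≠ c → b ≠ c → (∃ z, (z = p ∨ z = q ∨ z = r) ∧ a ≠ z ∧ b ≠ z ∧ c ≠ z) →
    (A a b c ↔ B a b c)
  up : A q r p
  dn : ¬ B q r p
  side1 : ∀ s, s ≠ p → s ≠ q → s ≠ r → (A q r s ↔ A q p s)
  side2 : ∀ s, s ≠ p → s ≠ q → s ≠ r → (A q r s ↔ A p r s)
  betw : ∀ s t, s ≠ t → s ≠ p → s ≠ q → s ≠ r → t ≠ p → t ≠ q → t ≠ r →
    (A s t q ↔ A s t r) → (A s t q ↔ A s t p)

/-- `p` has a neighbour (not `q, r`) on the left of `q r`. -/
def Up (A : Ori V) (p q r : V) (E : Finset (Sym2 V)) : Prop :=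
  ∃ s, s ≠ q ∧ s ≠ r ∧ s ≠ p ∧ s(p, s) ∈ E ∧ A q r s

/-- `p` has a neighbour (not `q, r`) on the right of `q r`. -/
def Dn (A : Ori V) (p q r : V) (E : Finset (Sym2 V)) : Prop :=
  ∃ s, s ≠ q ∧ s ≠ r ∧ s ≠ p ∧ s(p, s) ∈ E ∧ ¬ A q r s

/-- point configurations. -/
abbrev Cfg (V : Type) := V → ℝ × ℝ

/-- the orientation determinant. -/
def ori (P : Cfg V) (a b c : V) : ℝ :=
  ((P b).1 - (P a).1) * ((P c).2 - (P a).2) - ((P b).2 - (P a).2) * ((P c).1 - (P a).1)

/-- general position. -/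
def GP (P : Cfg V) : Prop := ∀ a b c : V, a ≠ b → a ≠ c → b ≠ c → ori P a b c ≠ 0

/-- the orientation data of a configuration. -/
def chi (P : Cfg V) : Ori V := fun a b c => 0 < ori P a b c

end PT39
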