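import Pool.Agent.Work.MP_02cc39_co.Mut.LawW

/-!
# MP_02cc39_co/Mut, HW (size S-M): the weighted invariant

`HH χ x w` = the sum over all noncrossing graphs `E` of `∏_{e ∈ E} x e * ∏_{v not pointed in E} w v`.
PROOFS.  `hh_eq`: for each `v`: `(if Ptd χ v (nb E v) then 1 else w v) = w v + (if Ptd χ v (nb E v) then 1 - w v else 0)`;
`Finset.prod_add` (or `Finset.prod_add_...`): the product over `v ∈ univ` is
`∑ Y ∈ univ.powerset, (∏ v ∈ Y, (1 - w v)) [all v ∈ Y pointed] * ∏ v ∈ univ \ Y, w v`, and `Fam χ ∅ E ∧ (∀ v ∈ Y, Ptd ..) ↔ Fam χ Y E`.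
`hh_mut`: in `hh_eq` combine `Y` and `insert p Y` (`p ∉ Y`; `univ = insert p (univ.erase p)`, `Finset.sum_powerset_insert`):
`c_Y * (w p * wF χ x Y + (1 - w p) * wF χ x (insert p Y))` with `c_Y` not depending on `χ`; `lawW`.
`hh_inv`: `x s(u, v) = a u * a v / (1 - a u * a v)`, `w v = 1 - (a v)⁻¹ ^ 2`: the hypothesis of `hh_mut`: `field_simp`, `ring`
(with `x1 = a p a q`, `x2 = a p a r`, `x3 = a q a r = x1 x2 / (a p)^2`:
`(1 + X3)(1 + X1 + X2 + w X1 X2) = (1 - x1 x2 (1 - w)) / ((1 - x1)(1 - x2)(1 - x3)) = 1 / ((1 - x1)(1 - x2))`).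
-/

set_option autoImplicit false

namespace PT39

open Finset

variable {V : Type} [Fintype V] [DecidableEq V] {A B : Ori V} {p q r : V} {R : Type} [CommRing R]

open Classical in
/-- the weighted count of all noncrossing graphs; nonpointed vertices `v` get the weight `w v`. -/
noncomputable def HH (χ : Ori V) (x : Sym2 V → R) (w : V → R) : R :=
  ∑ E : Finset (Sym2 V), if Fam χ ∅ E then
    (∏ e ∈ E, x e) * ∏ v : V, (if Ptd χ v (nb E v) then 1 else w v) else 0

private theorem fam_iff (χ : Ori V) (Y : Finset V) (E : Finset (Sym2 V)) :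
    Fam χ Y E ↔ Fam χ ∅ E ∧ ∀ v ∈ Y, Ptd χ v (nb E v) := by
  constructor
  · intro h
    exact ⟨⟨h.loop, h.nc, fun v hv => absurd hv (Finset.notMem_empty v)⟩, h.ptd⟩
  · rintro ⟨h, h'⟩
    exact ⟨h.loop, h.nc, h'⟩

theorem hh_eq (χ : Ori V) (x : Sym2 V → R) (w : V → R) : HH χ x w =
    ∑ Y : Finset V, (∏ v ∈ Y, (1 - w v)) * (∏ v ∈ univ \ Y, w v) * wF χ x Y := by
  classical
  unfold HH wF
  have h1 : ∀ E : Finset (Sym2 V), (∏ v : V, (if Ptd χ v (nb E v) then 1 else w v)) =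
      ∑ Y : Finset V, (if ∀ v ∈ Y, Ptd χ v (nb E v) then ∏ v ∈ Y, (1 - w v) else 0) *
        ∏ v ∈ univ \ Y, w v := by
    intro E
    have h2 : ∀ v : V, (if Ptd χ v (nb E v) then (1 : R) else w v) =
        (if Ptd χ v (nb E v) then 1 - w v else 0) + w v := by
      intro v
      split_ifs
      · ring
      · ring
    rw [Finset.prod_congr rfl (fun v _ => h2 v), Finset.prod_add, Finset.powerset_univ]
    refine Finset.sum_congr rfl (fun Y _ => ?_)
    rw [Finset.prod_ite_zero]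
    by_cases hY : ∀ v ∈ Y, Ptd χ v (nb E v)
    · rw [if_pos hY, if_pos hY]
    · rw [if_neg hY, if_neg hY]
  have h3 : ∀ E : Finset (Sym2 V), (if Fam χ ∅ E then
      (∏ e ∈ E, x e) * ∏ v : V, (if Ptd χ v (nb E v) then 1 else w v) else 0) =
      ∑ Y : Finset V, (∏ v ∈ Y, (1 - w v)) * (∏ v ∈ univ \ Y, w v) *
        (if Fam χ Y E then ∏ e ∈ E, x e else 0) := by
    intro E
    by_cases hE : Fam χ ∅ E
    · rw [if_pos hE, h1 E, Finset.mul_sum]
      refine Finset.sum_congr rfl (fun Y _ => ?_)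
      by_cases hY : ∀ v ∈ Y, Ptd χ v (nb E v)
      · rw [if_pos hY, if_pos ((fam_iff χ Y E).2 ⟨hE, hY⟩)]
        ring
      · rw [if_neg hY, if_neg (fun h => hY ((fam_iff χ Y E).1 h).2)]
        ring
    · rw [if_neg hE]
      symm
      refine Finset.sum_eq_zero (fun Y _ => ?_)
      rw [if_neg (fun h => hE ((fam_iff χ Y E).1 h).1), mul_zero]
  rw [Finset.sum_congr rfl (fun E _ => h3 E), Finset.sum_comm]
  refine Finset.sum_congr rfl (fun Y _ => ?_)
  rw [Finset.mul_sum]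

private theorem hh_split (χ : Ori V) (x : Sym2 V → R) (w : V → R) (p : V) : HH χ x w =
    ∑ Y ∈ (univ.erase p).powerset, (∏ v ∈ Y, (1 - w v)) * (∏ v ∈ (univ.erase p) \ Y, w v) *
      (w p * wF χ x Y + (1 - w p) * wF χ x (insert p Y)) := by
  have hu : insert p (univ.erase p) = (univ : Finset V) := Finset.insert_erase (Finset.mem_univ p)
  rw [hh_eq, ← Finset.powerset_univ, ← hu, Finset.sum_powerset_insert (Finset.notMem_erase p _), hu,
    ← Finset.sum_add_distrib]
  refine Finset.sum_congr rfl (fun Y hY => ?_)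
  have hpY : p ∉ Y := fun h => Finset.notMem_erase p _ (Finset.mem_powerset.1 hY h)
  have e1 : univ \ Y = insert p ((univ.erase p) \ Y) := by
    ext v
    simp only [Finset.mem_sdiff, Finset.mem_univ, true_and, Finset.mem_insert, Finset.mem_erase]
    by_cases hv : v = p
    · subst hv
      simp [hpY]
    · simp [hv]
  have e2 : univ \ insert p Y = (univ.erase p) \ Y := by
    ext v
    simp only [Finset.mem_sdiff, Finset.mem_univ, true_and, Finset.mem_insert, Finset.mem_erase]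
    tauto
  have hn : p ∉ (univ.erase p) \ Y := by
    intro h
    exact Finset.notMem_erase p _ (Finset.mem_sdiff.1 h).1
  rw [e1, e2, Finset.prod_insert hn, Finset.prod_insert hpY]
  ring

theorem hh_mut (hA : IsChi A) (hB : IsChi B) (h : Mut A B p q r) (x : Sym2 V → R) (w : V → R)
    (hx : (1 + x s(q, r)) * (1 + x s(p, q) + x s(p, r) + w p * (x s(p, q) * x s(p, r))) =
      (1 + x s(p, q)) * (1 + x s(p, r))) : HH A x w = HH B x w := by
  rw [hh_split A x w p, hh_split B x w p]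
  refine Finset.sum_congr rfl (fun Y hY => ?_)
  have hpY : p ∉ Y := fun h => Finset.notMem_erase p _ (Finset.mem_powerset.1 hY h)
  rw [lawW hA hB h hpY x (w p) hx]

theorem hh_inv {K : Type} [Field K] (hA : IsChi A) (hB : IsChi B) (h : Mut A B p q r) (x : Sym2 V → K) (a : V → K)
    (ha : ∀ v, a v ≠ 0) (ha' : ∀ u v, u ≠ v → a u * a v ≠ 1)
    (hx : ∀ u v, u ≠ v → x s(u, v) = a u * a v / (1 - a u * a v)) :
    HH A x (fun v => 1 - (a v ^ 2)⁻¹) = HH B x (fun v => 1 - (a v ^ 2)⁻¹) := by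
  apply hh_mut hA hB h
  have h1 : 1 - a p * a q ≠ 0 := sub_ne_zero.2 (ha' p q h.hpq).symm
  have h2 : 1 - a p * a r ≠ 0 := sub_ne_zero.2 (ha' p r h.hpr).symm
  have h3 : 1 - a q * a r ≠ 0 := sub_ne_zero.2 (ha' q r h.hqr).symm
  have e1 : x s(p, q) * (1 - a p * a q) = a p * a q := by
    rw [hx p q h.hpq, div_mul_cancel₀ _ h1]
  have e2 : x s(p, r) * (1 - a p * a r) = a p * a r := by
    rw [hx p r h.hpr, div_mul_cancel₀ _ h2]
  have e3 : x s(q, r) * (1 - a q * a r) = a q * a r := by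
    rw [hx q r h.hqr, div_mul_cancel₀ _ h3]
  have e4 : (a p ^ 2)⁻¹ * ((a p * a q) * (a p * a r)) = a q * a r := by
    have h4 := ha p
    field_simp
  have f1 : (1 + x s(p, q)) * (1 - a p * a q) = 1 := by linear_combination e1
  have f2 : (1 + x s(p, r)) * (1 - a p * a r) = 1 := by linear_combination e2
  have f3 : (1 + x s(q, r)) * (1 - a q * a r) = 1 := by linear_combination e3
  have f4 : (1 + x s(p, q) + x s(p, r) + (1 - (a p ^ 2)⁻¹) * (x s(p, q) * x s(p, r))) *
      ((1 - a p * a q) * (1 - a p * a r)) = 1 - a q * a r := by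
    have g1 : (1 + x s(p, q) + x s(p, r) + (1 - (a p ^ 2)⁻¹) * (x s(p, q) * x s(p, r))) *
        ((1 - a p * a q) * (1 - a p * a r)) =
        ((1 + x s(p, q)) * (1 - a p * a q)) * ((1 + x s(p, r)) * (1 - a p * a r)) -
        (a p ^ 2)⁻¹ * ((x s(p, q) * (1 - a p * a q)) * (x s(p, r) * (1 - a p * a r))) := by ring
    rw [g1, f1, f2, e1, e2, e4, one_mul]
  apply mul_right_cancel₀ (mul_ne_zero h3 (mul_ne_zero h1 h2))
  calc _ = ((1 + x s(q, r)) * (1 - a q * a r)) *
        ((1 + x s(p, q) + x s(p, r) + (1 - (a p ^ 2)⁻¹) * (x s(p, q) * x s(p, r))) *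
          ((1 - a p * a q) * (1 - a p * a r))) := by ring
    _ = 1 - a q * a r := by rw [f3, f4, one_mul]
    _ = ((1 + x s(p, q)) * (1 - a p * a q)) * ((1 + x s(p, r)) * (1 - a p * a r)) *
        (1 - a q * a r) := by rw [f1, f2, one_mul, one_mul]
    _ = _ := by ring

end PT39
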