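import Pool.Agent.Work.MP_02cc39_co.Mut.LocF

/-!
# MP_02cc39_co/Mut, Law (size M): the mutation law

PROOF.  Write `univ = insert pq (insert pr (insert qr K'))` (`K'` = all other elements of `Sym2 V`);
`Finset.sum_powerset_insert` three times: `fpol χ W = ∑ E₀ ∈ K'.powerset, ∑ T, [Fam χ W (E₀ ∪ T)]
X ^ (E₀.card + T.card)`, `T` over the 8 subsets of `{pq, pr, qr}`.  So it is enough to show, for each
`E₀` without the three edges, with `w χ W T := if Fam χ W (E₀ ∪ T) then X ^ T.card else 0`: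
  `∑_T (w A W T - w B W T) = (1 + X) * ∑_T (w A (insert p W) T - w B (insert p W) T)`.
Let `g := Fam A W (E₀ ∪ {pq, pr})` (`↔ Fam B W (E₀ ∪ {pq, pr})` by `f1`), `U := Up A p q r E₀`,
`D := Dn A p q r E₀` (they do not change when `pq, pr, qr` are added).
`W`, `qr ∉ T`: no difference (`f1`).  `W`, `qr ∈ T` (4 sets, weights `X, X², X², X³`, sum `X (1 + X)²`):
`A`: `g ∧ ¬ D` (`f2`), `B`: `g ∧ ¬ U` (`f2B`).  So the left side is `X (1 + X)² ([g ∧ ¬ D] - [g ∧ ¬ U])`.
`insert p W`, `qr ∉ T`, `T ≠ {pq, pr}`: no difference (`f4`).  `T = {pq, pr}`: `A`: `g ∧ ¬ U`, `B`: `g ∧ ¬ D`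
(`f5`): contribution `X² ([g ∧ ¬ U] - [g ∧ ¬ D])`.  `qr ∈ T`, `T ≠` all: (`f3`, `f3B`) `X (1 + 2 X)
([g ∧ ¬ D] - [g ∧ ¬ U])`.  `T` = all three: `A`: `g ∧ ¬ D ∧ ¬ U`, `B`: the same: no difference.
Sum: `(X + 2 X² - X²) ([g ∧ ¬ D] - [g ∧ ¬ U]) = X (1 + X) (…)`.
-/

set_option autoImplicit false

namespace PT39

open Finset Polynomial

variable {V : Type} [Fintype V] [DecidableEq V] {A B : Ori V} {p q r : V}

private theorem s_ne {x y z w : V} (h1 : x ≠ z ∨ y ≠ w) (h2 : x ≠ w ∨ y ≠ z) : s(x, y) ≠ s(z, w) := by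
  intro h
  rw [Sym2.eq_iff] at h
  rcases h with ⟨h, h'⟩ | ⟨h, h'⟩
  · rcases h1 with h1 | h1
    · exact h1 h
    · exact h1 h'
  · rcases h2 with h2 | h2
    · exact h2 h
    · exact h2 h'

open Classical in
private noncomputable def tm (χ : Ori V) (W : Finset V) (E : Finset (Sym2 V)) : ℤ[X] :=
  if Fam χ W E then X ^ E.card else 0

open Classical in
private theorem tm_iff {χ : Ori V} {W : Finset V} {E : Finset (Sym2 V)} {P : Prop} {k : ℕ}
    (h : Fam χ W E ↔ P) (hc : E.card = k) : tm χ W E = if P then X ^ k else 0 := by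
  unfold tm
  rw [hc]
  by_cases hP : P
  · rw [if_pos hP, if_pos (h.2 hP)]
  · rw [if_neg hP, if_neg (fun h' => hP (h.1 h'))]

open Classical in
private theorem tm_congr {χ χ' : Ori V} {W W' : Finset V} {E : Finset (Sym2 V)}
    (h : Fam χ W E ↔ Fam χ' W' E) : tm χ W E = tm χ' W' E := by
  unfold tm
  by_cases hP : Fam χ' W' E
  · rw [if_pos hP, if_pos (h.2 hP)]
  · rw [if_neg hP, if_neg (fun h' => hP (h.1 h'))]

private theorem fpol_split (χ : Ori V) (W : Finset V) (a b c : Sym2 V) (hab : a ≠ b)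
    (hac : a ≠ c) (hbc : b ≠ c) :
    fpol χ W = ∑ E ∈ ((univ : Finset (Sym2 V)) \ {a, b, c}).powerset,
      (tm χ W E + tm χ W (E ∪ {a}) + tm χ W (E ∪ {b}) + tm χ W (E ∪ {a, b}) +
        (tm χ W (E ∪ insert c ∅) + tm χ W (E ∪ insert c {a}) + tm χ W (E ∪ insert c {b}) +
          tm χ W (E ∪ insert c {a, b}))) := by
  classical
  set K := (univ : Finset (Sym2 V)) \ {a, b, c} with hK
  have hcK : c ∉ K := by simp [hK]
  have hbK : b ∉ insert c K := by simp [hK, hbc]
  have haK : a ∉ insert b (insert c K) := by simp [hK, hab, hac]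
  have hu : (univ : Finset (Finset (Sym2 V))) = (insert a (insert b (insert c K))).powerset := by
    ext E
    simp only [mem_univ, mem_powerset, true_iff]
    intro x _
    by_cases h1 : x = a
    · simp [h1]
    by_cases h2 : x = b
    · simp [h2]
    by_cases h3 : x = c
    · simp [h3]
    · simp [hK, h1, h2, h3]
  have h0 : fpol χ W = ∑ E ∈ (univ : Finset (Finset (Sym2 V))), tm χ W E := by
    unfold fpol tm
    rfl
  rw [h0, hu, sum_powerset_insert haK, sum_powerset_insert hbK, sum_powerset_insert hbK,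
    sum_powerset_insert hcK, sum_powerset_insert hcK, sum_powerset_insert hcK,
    sum_powerset_insert hcK]
  simp only [← sum_add_distrib]
  apply sum_congr rfl
  intro E _
  have e1 : insert c E = E ∪ insert c ∅ := by ext x; simp only [mem_insert, mem_union, mem_singleton, notMem_empty, or_false]; tauto
  have e2 : insert b E = E ∪ {b} := by ext x; simp only [mem_insert, mem_union, mem_singleton, notMem_empty, or_false]; tauto
  have e3 : insert b (insert c E) = E ∪ insert c {b} := by ext x; simp only [mem_insert, mem_union, mem_singleton, notMem_empty, or_false]; tauto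
  have e4 : insert a E = E ∪ {a} := by ext x; simp only [mem_insert, mem_union, mem_singleton, notMem_empty, or_false]; tauto
  have e5 : insert a (insert c E) = E ∪ insert c {a} := by ext x; simp only [mem_insert, mem_union, mem_singleton, notMem_empty, or_false]; tauto
  have e6 : insert a (insert b E) = E ∪ {a, b} := by ext x; simp only [mem_insert, mem_union, mem_singleton, notMem_empty, or_false]; tauto
  have e7 : insert a (insert b (insert c E)) = E ∪ insert c {a, b} := by ext x; simp only [mem_insert, mem_union, mem_singleton, notMem_empty, or_false]; tauto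
  rw [e7, e6, e5, e4, e3, e2, e1]
  ring

private theorem card_aux {E T : Finset (Sym2 V)} (h : ∀ x ∈ T, x ∉ E) {k : ℕ} (hk : T.card = k) :
    (E ∪ T).card = E.card + k := by
  rw [card_union_of_disjoint, hk]
  rw [disjoint_left]
  intro x hx hx'
  exact h x hx' hx

private theorem up_eq {E T : Finset (Sym2 V)} (hpq : p ≠ q) (hpr : p ≠ r)
    (hT : T = {s(p, q), s(p, r)}) : Up A p q r (E ∪ T) ↔ Up A p q r E := by
  subst hT
  constructor
  · rintro ⟨s, h1, h2, h3, h4, h5⟩
    refine ⟨s, h1, h2, h3, ?_, h5⟩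
    rw [mem_union] at h4
    rcases h4 with h4 | h4
    · exact h4
    · exfalso
      rw [mem_insert, mem_singleton] at h4
      rcases h4 with h4 | h4
      · exact s_ne (Or.inr h1) (Or.inl hpq) h4
      · exact s_ne (Or.inr h2) (Or.inl hpr) h4
  · rintro ⟨s, h1, h2, h3, h4, h5⟩
    exact ⟨s, h1, h2, h3, mem_union_left _ h4, h5⟩

private theorem dn_eq {E T : Finset (Sym2 V)} (hpq : p ≠ q) (hpr : p ≠ r)
    (hT : T = {s(p, q), s(p, r)}) : Dn A p q r (E ∪ T) ↔ Dn A p q r E := by
  subst hT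
  constructor
  · rintro ⟨s, h1, h2, h3, h4, h5⟩
    refine ⟨s, h1, h2, h3, ?_, h5⟩
    rw [mem_union] at h4
    rcases h4 with h4 | h4
    · exact h4
    · exfalso
      rw [mem_insert, mem_singleton] at h4
      rcases h4 with h4 | h4
      · exact s_ne (Or.inr h1) (Or.inl hpq) h4
      · exact s_ne (Or.inr h2) (Or.inl hpr) h4
  · rintro ⟨s, h1, h2, h3, h4, h5⟩
    exact ⟨s, h1, h2, h3, mem_union_left _ h4, h5⟩

private theorem pointwise (hA : IsChi A) (hB : IsChi B) (h : Mut A B p q r) {W : Finset V}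
    (hp : p ∉ W) {E : Finset (Sym2 V)} (h1 : s(p, q) ∉ E) (h2 : s(p, r) ∉ E) (h3 : s(q, r) ∉ E) :
    (tm A W E + tm A W (E ∪ {s(p, q)}) + tm A W (E ∪ {s(p, r)}) +
        tm A W (E ∪ {s(p, q), s(p, r)}) +
        (tm A W (E ∪ insert s(q, r) ∅) + tm A W (E ∪ insert s(q, r) {s(p, q)}) +
          tm A W (E ∪ insert s(q, r) {s(p, r)}) +
          tm A W (E ∪ insert s(q, r) {s(p, q), s(p, r)}))) -
      (1 + X) * (tm A (insert p W) E + tm A (insert p W) (E ∪ {s(p, q)}) +
        tm A (insert p W) (E ∪ {s(p, r)}) + tm A (insert p W) (E ∪ {s(p, q), s(p, r)}) +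
        (tm A (insert p W) (E ∪ insert s(q, r) ∅) +
          tm A (insert p W) (E ∪ insert s(q, r) {s(p, q)}) +
          tm A (insert p W) (E ∪ insert s(q, r) {s(p, r)}) +
          tm A (insert p W) (E ∪ insert s(q, r) {s(p, q), s(p, r)}))) =
    (tm B W E + tm B W (E ∪ {s(p, q)}) + tm B W (E ∪ {s(p, r)}) +
        tm B W (E ∪ {s(p, q), s(p, r)}) +
        (tm B W (E ∪ insert s(q, r) ∅) + tm B W (E ∪ insert s(q, r) {s(p, q)}) +
          tm B W (E ∪ insert s(q, r) {s(p, r)}) +
          tm B W (E ∪ insert s(q, r) {s(p, q), s(p, r)}))) -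
      (1 + X) * (tm B (insert p W) E + tm B (insert p W) (E ∪ {s(p, q)}) +
        tm B (insert p W) (E ∪ {s(p, r)}) + tm B (insert p W) (E ∪ {s(p, q), s(p, r)}) +
        (tm B (insert p W) (E ∪ insert s(q, r) ∅) +
          tm B (insert p W) (E ∪ insert s(q, r) {s(p, q)}) +
          tm B (insert p W) (E ∪ insert s(q, r) {s(p, r)}) +
          tm B (insert p W) (E ∪ insert s(q, r) {s(p, q), s(p, r)}))) := by
  classical
  have nab : s(p, q) ≠ s(p, r) := s_ne (Or.inr h.hqr) (Or.inl h.hpr)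
  have nac : s(p, q) ≠ s(q, r) := s_ne (Or.inl h.hpq) (Or.inl h.hpr)
  have nbc : s(p, r) ≠ s(q, r) := s_ne (Or.inl h.hpq) (Or.inl h.hpr)
  -- membership facts
  have sub0 : (∅ : Finset (Sym2 V)) ⊆ {s(p, q), s(p, r)} := empty_subset _
  have suba : ({s(p, q)} : Finset (Sym2 V)) ⊆ {s(p, q), s(p, r)} := by
    intro x hx; rw [mem_singleton] at hx; rw [hx]; simp
  have subb : ({s(p, r)} : Finset (Sym2 V)) ⊆ {s(p, q), s(p, r)} := by
    intro x hx; rw [mem_singleton] at hx; rw [hx]; simp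
  have ne0 : (∅ : Finset (Sym2 V)) ≠ {s(p, q), s(p, r)} := by
    intro hh
    have : s(p, q) ∈ (∅ : Finset (Sym2 V)) := by rw [hh]; simp
    simp at this
  have nea : ({s(p, q)} : Finset (Sym2 V)) ≠ {s(p, q), s(p, r)} := by
    intro hh
    have : s(p, r) ∈ ({s(p, q)} : Finset (Sym2 V)) := by rw [hh]; simp
    rw [mem_singleton] at this
    exact nab this.symm
  have neb : ({s(p, r)} : Finset (Sym2 V)) ≠ {s(p, q), s(p, r)} := by
    intro hh
    have : s(p, q) ∈ ({s(p, r)} : Finset (Sym2 V)) := by rw [hh]; simp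
    rw [mem_singleton] at this
    exact nab this
  -- equalities of the terms without `qr`
  have q0 : tm A W E = tm B W E := tm_congr (f1 hA hB h hp h3)
  have qa : tm A W (E ∪ {s(p, q)}) = tm B W (E ∪ {s(p, q)}) :=
    tm_congr (f1 hA hB h hp (by simp [h3, nac.symm]))
  have qb : tm A W (E ∪ {s(p, r)}) = tm B W (E ∪ {s(p, r)}) :=
    tm_congr (f1 hA hB h hp (by simp [h3, nbc.symm]))
  have fab : Fam A W (E ∪ {s(p, q), s(p, r)}) ↔ Fam B W (E ∪ {s(p, q), s(p, r)}) :=
    f1 hA hB h hp (by simp [h3, nbc.symm, nac.symm])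
  have qab : tm A W (E ∪ {s(p, q), s(p, r)}) = tm B W (E ∪ {s(p, q), s(p, r)}) := tm_congr fab
  have r0 : tm A (insert p W) E = tm B (insert p W) E :=
    tm_congr (f4 hA hB h h3 (fun hh => h1 hh.1))
  have ra : tm A (insert p W) (E ∪ {s(p, q)}) = tm B (insert p W) (E ∪ {s(p, q)}) :=
    tm_congr (f4 hA hB h (by simp [h3, nac.symm]) (by
      rintro ⟨-, hh⟩
      rw [mem_union, mem_singleton] at hh
      rcases hh with hh | hh
      · exact h2 hh
      · exact nab hh.symm))
  have rb : tm A (insert p W) (E ∪ {s(p, r)}) = tm B (insert p W) (E ∪ {s(p, r)}) :=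
    tm_congr (f4 hA hB h (by simp [h3, nbc.symm]) (by
      rintro ⟨hh, -⟩
      rw [mem_union, mem_singleton] at hh
      rcases hh with hh | hh
      · exact h1 hh
      · exact nab hh))
  -- cards
  have k2 : (E ∪ {s(p, q), s(p, r)}).card = E.card + 2 := card_aux (by
    intro x hx
    rw [mem_insert, mem_singleton] at hx
    rcases hx with hx | hx
    · rw [hx]; exact h1
    · rw [hx]; exact h2) (card_pair nab)
  have c0 : (E ∪ insert s(q, r) ∅).card = E.card + 1 := card_aux (by
    intro x hx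
    rw [mem_insert] at hx
    rcases hx with hx | hx
    · rw [hx]; exact h3
    · simp at hx) (by simp)
  have ca : (E ∪ insert s(q, r) {s(p, q)}).card = E.card + 2 := card_aux (by
    intro x hx
    rw [mem_insert, mem_singleton] at hx
    rcases hx with hx | hx
    · rw [hx]; exact h3
    · rw [hx]; exact h1) (card_pair nac.symm)
  have cb : (E ∪ insert s(q, r) {s(p, r)}).card = E.card + 2 := card_aux (by
    intro x hx
    rw [mem_insert, mem_singleton] at hx
    rcases hx with hx | hx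
    · rw [hx]; exact h3
    · rw [hx]; exact h2) (card_pair nbc.symm)
  have cab : (E ∪ insert s(q, r) {s(p, q), s(p, r)}).card = E.card + 3 := card_aux (by
    intro x hx
    rw [mem_insert, mem_insert, mem_singleton] at hx
    rcases hx with hx | hx | hx
    · rw [hx]; exact h3
    · rw [hx]; exact h1
    · rw [hx]; exact h2) (by
      rw [card_insert_of_notMem, card_pair nab]
      simp [nac.symm, nbc.symm])
  have upe := up_eq (A := A) (E := E) (T := {s(p, q), s(p, r)}) h.hpq h.hpr rfl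
  have dne := dn_eq (A := A) (E := E) (T := {s(p, q), s(p, r)}) h.hpq h.hpr rfl
  have mab1 : s(p, q) ∈ E ∪ {s(p, q), s(p, r)} := by simp
  have mab2 : s(p, r) ∈ E ∪ {s(p, q), s(p, r)} := by simp
  have g5 := f5 hA hB h hp mab1 mab2
  rw [upe, dne, ← fab] at g5
  -- the values
  have F2B : ∀ {T : Finset (Sym2 V)}, T ⊆ {s(p, q), s(p, r)} →
      (Fam B W (E ∪ insert s(q, r) T) ↔
        Fam A W (E ∪ {s(p, q), s(p, r)}) ∧ ¬ Up A p q r E) := fun {T} hT =>
    (f2B hA hB h hp h1 h2 h3 hT).trans (and_congr_left' fab.symm)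
  have A0 := tm_iff (f2 hA hB h hp h1 h2 h3 sub0) c0
  have Aa := tm_iff (f2 hA hB h hp h1 h2 h3 suba) ca
  have Ab := tm_iff (f2 hA hB h hp h1 h2 h3 subb) cb
  have Aab := tm_iff (f2 hA hB h hp h1 h2 h3 (Subset.refl _)) cab
  have B0 := tm_iff (F2B sub0) c0
  have Ba := tm_iff (F2B suba) ca
  have Bb := tm_iff (F2B subb) cb
  have Bab := tm_iff (F2B (Subset.refl _)) cab
  have A'0 := tm_iff ((f3 hA hB h hp h1 h2 h3 sub0).trans
    (and_congr_left' (f2 hA hB h hp h1 h2 h3 sub0))) c0
  have A'a := tm_iff ((f3 hA hB h hp h1 h2 h3 suba).trans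
    (and_congr_left' (f2 hA hB h hp h1 h2 h3 suba))) ca
  have A'b := tm_iff ((f3 hA hB h hp h1 h2 h3 subb).trans
    (and_congr_left' (f2 hA hB h hp h1 h2 h3 subb))) cb
  have A'ab := tm_iff ((f3 hA hB h hp h1 h2 h3 (Subset.refl _)).trans
    (and_congr_left' (f2 hA hB h hp h1 h2 h3 (Subset.refl _)))) cab
  have B'0 := tm_iff ((f3B hA hB h hp h1 h2 h3 sub0).trans
    (and_congr_left' (F2B sub0))) c0
  have B'a := tm_iff ((f3B hA hB h hp h1 h2 h3 suba).trans
    (and_congr_left' (F2B suba))) ca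
  have B'b := tm_iff ((f3B hA hB h hp h1 h2 h3 subb).trans
    (and_congr_left' (F2B subb))) cb
  have B'ab := tm_iff ((f3B hA hB h hp h1 h2 h3 (Subset.refl _)).trans
    (and_congr_left' (F2B (Subset.refl _)))) cab
  have A5 := tm_iff g5.1 k2
  have B5 := tm_iff g5.2 k2
  rw [A0, Aa, Ab, Aab, B0, Ba, Bb, Bab, A'0, A'a, A'b, A'ab, B'0, B'a, B'b, B'ab, A5, B5,
    q0, qa, qb, qab, r0, ra, rb]
  simp only [eq_false ne0, eq_false nea, eq_false neb, false_imp_iff, forall_true_left, and_true]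
  generalize tm B W (E ∪ {s(p, q), s(p, r)}) = t1
  generalize tm B W (E ∪ {s(p, q)}) = t2
  generalize tm B W (E ∪ {s(p, r)}) = t3
  generalize tm B W E = t4
  generalize tm B (insert p W) (E ∪ {s(p, q)}) = t5
  generalize tm B (insert p W) (E ∪ {s(p, r)}) = t6
  generalize tm B (insert p W) E = t7
  generalize Fam A W (E ∪ {s(p, q), s(p, r)}) = G
  generalize Up A p q r E = U
  generalize Dn A p q r E = D
  by_cases hg : G
  · by_cases hU : U
    · by_cases hD : D
      · simp [hg, hU, hD]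
      · simp [hg, hU, hD]
        ring
    · by_cases hD : D
      · simp [hg, hU, hD]
        ring
      · simp [hg, hU, hD]
  · simp [hg]

theorem law (hA : IsChi A) (hB : IsChi B) (h : Mut A B p q r) {W : Finset V} (hp : p ∉ W) :
    fpol A W - (1 + X) * fpol A (insert p W) = fpol B W - (1 + X) * fpol B (insert p W) := by
  have nab : s(p, q) ≠ s(p, r) := s_ne (Or.inr h.hqr) (Or.inl h.hpr)
  have nac : s(p, q) ≠ s(q, r) := s_ne (Or.inl h.hpq) (Or.inl h.hpr)
  have nbc : s(p, r) ≠ s(q, r) := s_ne (Or.inl h.hpq) (Or.inl h.hpr)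
  rw [fpol_split A W _ _ _ nab nac nbc, fpol_split A (insert p W) _ _ _ nab nac nbc,
    fpol_split B W _ _ _ nab nac nbc, fpol_split B (insert p W) _ _ _ nab nac nbc,
    mul_sum, mul_sum, ← sum_sub_distrib, ← sum_sub_distrib]
  apply sum_congr rfl
  intro E hE
  rw [mem_powerset] at hE
  have h1 : s(p, q) ∉ E := fun hh => by
    have := hE hh
    simp at this
  have h2 : s(p, r) ∉ E := fun hh => by
    have := hE hh
    simp at this
  have h3 : s(q, r) ∉ E := fun hh => by
    have := hE hh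
    simp at this
  exact pointwise hA hB h hp h1 h2 h3

end PT39
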