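import Pool.Agent.Work.MP_02cc39_co.Mut.LocF

/-!
# MP_02cc39_co/Mut, LawW (size M): the mutation law with free weights (helper92)

`wF χ x W = ∑_{E ∈ Fam χ W} ∏_{e ∈ E} x e`.
PROOF: exactly as for `law` in Mut/Law.lean (copy that file: `fpol_split`, `tm`, `pointwise`; only the weights change: `X ^ E.card`
is replaced by `∏ e ∈ E, x e`, for `T ⊆ {pq, pr, qr}` disjoint from `E`: `∏ over E ∪ T = (∏ over E) * (∏ over T)`).
With `X1 = x pq`, `X2 = x pr`, `X3 = x qr` and `g, U, D` as there: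
`W`, `qr ∉ T`: no difference (`f1`).  `W`, `qr ∈ T` (4 sets, sum of the weights `X3 (1 + X1) (1 + X2)`): `A`: `g ∧ ¬ D` (`f2`),
`B`: `g ∧ ¬ U` (`f2B`).  `insert p W`, `qr ∉ T`, `T ≠ {pq, pr}`: no difference (`f4`).  `T = {pq, pr}`: `A`: `g ∧ ¬ U`, `B`: `g ∧ ¬ D` (`f5`),
contribution `X1 X2 ([g ∧ ¬ U] - [g ∧ ¬ D])`.  `qr ∈ T`, `T ≠` all: (`f3`, `f3B`) `X3 (1 + X1 + X2) ([g ∧ ¬ D] - [g ∧ ¬ U])`.
`T` = all three: `A`, `B`: `g ∧ ¬ D ∧ ¬ U`: no difference.
Difference of the two sides: `([g ∧ ¬ D] - [g ∧ ¬ U]) * (w X3 (1 + X1) (1 + X2) + (1 - w) X3 (1 + X1 + X2) - (1 - w) X1 X2)`, and the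
last factor is 0 by `hx` (`(1 + X3)(1 + X1 + X2 + w X1 X2) = (1 + X1)(1 + X2)`; `linear_combination hx`).
-/

set_option autoImplicit false

namespace PT39

open Finset

variable {V : Type} [Fintype V] [DecidableEq V] {A B : Ori V} {p q r : V} {R : Type} [CommRing R]

open Classical in
/-- the weighted count of `Fam χ W`. -/
noncomputable def wF (χ : Ori V) (x : Sym2 V → R) (W : Finset V) : R :=
  ∑ E : Finset (Sym2 V), if Fam χ W E then ∏ e ∈ E, x e else 0

private theorem s_ne {x y z w : V} (h1 : x ≠ z ∨ y ≠ w) (h2 : x ≠ w ∨ y ≠ z) : s(x, y) ≠ s(z, w) := by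
  intro h
  rw [Sym2.eq_iff] at h
  rcases h with ⟨h, h'⟩ | ⟨h, h'⟩
  · rcases h1 with h1 | h1
    · exact h1 h
    · exact h1 h'
  · rcases h2 with h2 | h2
    · exact h2 h
    · exact h2 h'

open Classical in
private noncomputable def tm (χ : Ori V) (x : Sym2 V → R) (W : Finset V)
    (E : Finset (Sym2 V)) : R :=
  if Fam χ W E then ∏ e ∈ E, x e else 0

open Classical in
private theorem tm_iff {χ : Ori V} {x : Sym2 V → R} {W : Finset V} {E : Finset (Sym2 V)}
    {P : Prop} {k : R} (h : Fam χ W E ↔ P) (hc : ∏ e ∈ E, x e = k) :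
    tm χ x W E = if P then k else 0 := by
  unfold tm
  rw [hc]
  by_cases hP : P
  · rw [if_pos hP, if_pos (h.2 hP)]
  · rw [if_neg hP, if_neg (fun h' => hP (h.1 h'))]

open Classical in
private theorem tm_congr {χ χ' : Ori V} {x : Sym2 V → R} {W W' : Finset V}
    {E : Finset (Sym2 V)} (h : Fam χ W E ↔ Fam χ' W' E) : tm χ x W E = tm χ' x W' E := by
  unfold tm
  by_cases hP : Fam χ' W' E
  · rw [if_pos hP, if_pos (h.2 hP)]
  · rw [if_neg hP, if_neg (fun h' => hP (h.1 h'))]

private theorem wF_split (χ : Ori V) (x : Sym2 V → R) (W : Finset V) (a b c : Sym2 V) (hab : a ≠ b)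
    (hac : a ≠ c) (hbc : b ≠ c) :
    wF χ x W = ∑ E ∈ ((univ : Finset (Sym2 V)) \ {a, b, c}).powerset,
      (tm χ x W E + tm χ x W (E ∪ {a}) + tm χ x W (E ∪ {b}) + tm χ x W (E ∪ {a, b}) +
        (tm χ x W (E ∪ insert c ∅) + tm χ x W (E ∪ insert c {a}) + tm χ x W (E ∪ insert c {b}) +
          tm χ x W (E ∪ insert c {a, b}))) := by
  classical
  set K := (univ : Finset (Sym2 V)) \ {a, b, c} with hK
  have hcK : c ∉ K := by simp [hK]
  have hbK : b ∉ insert c K := by simp [hK, hbc]
  have haK : a ∉ insert b (insert c K) := by simp [hK, hab, hac]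
  have hu : (univ : Finset (Finset (Sym2 V))) = (insert a (insert b (insert c K))).powerset := by
    ext E
    simp only [mem_univ, mem_powerset, true_iff]
    intro x' _
    by_cases h1 : x' = a
    · simp [h1]
    by_cases h2 : x' = b
    · simp [h2]
    by_cases h3 : x' = c
    · simp [h3]
    · simp [hK, h1, h2, h3]
  have h0 : wF χ x W = ∑ E ∈ (univ : Finset (Finset (Sym2 V))), tm χ x W E := by
    unfold wF tm
    rfl
  rw [h0, hu, sum_powerset_insert haK, sum_powerset_insert hbK, sum_powerset_insert hbK,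
    sum_powerset_insert hcK, sum_powerset_insert hcK, sum_powerset_insert hcK,
    sum_powerset_insert hcK]
  simp only [← sum_add_distrib]
  apply sum_congr rfl
  intro E _
  have e1 : insert c E = E ∪ insert c ∅ := by ext y; simp only [mem_insert, mem_union, mem_singleton, notMem_empty, or_false]; tauto
  have e2 : insert b E = E ∪ {b} := by ext y; simp only [mem_insert, mem_union, mem_singleton, notMem_empty, or_false]; tauto
  have e3 : insert b (insert c E) = E ∪ insert c {b} := by ext y; simp only [mem_insert, mem_union, mem_singleton, notMem_empty, or_false]; tauto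
  have e4 : insert a E = E ∪ {a} := by ext y; simp only [mem_insert, mem_union, mem_singleton, notMem_empty, or_false]; tauto
  have e5 : insert a (insert c E) = E ∪ insert c {a} := by ext y; simp only [mem_insert, mem_union, mem_singleton, notMem_empty, or_false]; tauto
  have e6 : insert a (insert b E) = E ∪ {a, b} := by ext y; simp only [mem_insert, mem_union, mem_singleton, notMem_empty, or_false]; tauto
  have e7 : insert a (insert b (insert c E)) = E ∪ insert c {a, b} := by ext y; simp only [mem_insert, mem_union, mem_singleton, notMem_empty, or_false]; tauto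
  rw [e7, e6, e5, e4, e3, e2, e1]
  ring

private theorem prod_aux {E T : Finset (Sym2 V)} (x : Sym2 V → R) (h : ∀ y ∈ T, y ∉ E) {k : R}
    (hk : ∏ e ∈ T, x e = k) : ∏ e ∈ E ∪ T, x e = (∏ e ∈ E, x e) * k := by
  rw [prod_union, hk]
  rw [disjoint_left]
  intro y hy hy'
  exact h y hy' hy

private theorem up_eq {E T : Finset (Sym2 V)} (hpq : p ≠ q) (hpr : p ≠ r)
    (hT : T = {s(p, q), s(p, r)}) : Up A p q r (E ∪ T) ↔ Up A p q r E := by
  subst hT
  constructor
  · rintro ⟨s, h1, h2, h3, h4, h5⟩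
    refine ⟨s, h1, h2, h3, ?_, h5⟩
    rw [mem_union] at h4
    rcases h4 with h4 | h4
    · exact h4
    · exfalso
      rw [mem_insert, mem_singleton] at h4
      rcases h4 with h4 | h4
      · exact s_ne (Or.inr h1) (Or.inl hpq) h4
      · exact s_ne (Or.inr h2) (Or.inl hpr) h4
  · rintro ⟨s, h1, h2, h3, h4, h5⟩
    exact ⟨s, h1, h2, h3, mem_union_left _ h4, h5⟩

private theorem dn_eq {E T : Finset (Sym2 V)} (hpq : p ≠ q) (hpr : p ≠ r)
    (hT : T = {s(p, q), s(p, r)}) : Dn A p q r (E ∪ T) ↔ Dn A p q r E := by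
  subst hT
  constructor
  · rintro ⟨s, h1, h2, h3, h4, h5⟩
    refine ⟨s, h1, h2, h3, ?_, h5⟩
    rw [mem_union] at h4
    rcases h4 with h4 | h4
    · exact h4
    · exfalso
      rw [mem_insert, mem_singleton] at h4
      rcases h4 with h4 | h4
      · exact s_ne (Or.inr h1) (Or.inl hpq) h4
      · exact s_ne (Or.inr h2) (Or.inl hpr) h4
  · rintro ⟨s, h1, h2, h3, h4, h5⟩
    exact ⟨s, h1, h2, h3, mem_union_left _ h4, h5⟩

private theorem pointwise (hA : IsChi A) (hB : IsChi B) (h : Mut A B p q r) {W : Finset V}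
    (hp : p ∉ W) {x : Sym2 V → R} {w : R}
    (hx : (1 + x s(q, r)) * (1 + x s(p, q) + x s(p, r) + w * (x s(p, q) * x s(p, r))) =
      (1 + x s(p, q)) * (1 + x s(p, r)))
    {E : Finset (Sym2 V)} (h1 : s(p, q) ∉ E) (h2 : s(p, r) ∉ E) (h3 : s(q, r) ∉ E) :
    w * (tm A x W E + tm A x W (E ∪ {s(p, q)}) + tm A x W (E ∪ {s(p, r)}) +
        tm A x W (E ∪ {s(p, q), s(p, r)}) +
        (tm A x W (E ∪ insert s(q, r) ∅) + tm A x W (E ∪ insert s(q, r) {s(p, q)}) +
          tm A x W (E ∪ insert s(q, r) {s(p, r)}) +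
          tm A x W (E ∪ insert s(q, r) {s(p, q), s(p, r)}))) +
      (1 - w) * (tm A x (insert p W) E + tm A x (insert p W) (E ∪ {s(p, q)}) +
        tm A x (insert p W) (E ∪ {s(p, r)}) + tm A x (insert p W) (E ∪ {s(p, q), s(p, r)}) +
        (tm A x (insert p W) (E ∪ insert s(q, r) ∅) +
          tm A x (insert p W) (E ∪ insert s(q, r) {s(p, q)}) +
          tm A x (insert p W) (E ∪ insert s(q, r) {s(p, r)}) +
          tm A x (insert p W) (E ∪ insert s(q, r) {s(p, q), s(p, r)}))) =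
    w * (tm B x W E + tm B x W (E ∪ {s(p, q)}) + tm B x W (E ∪ {s(p, r)}) +
        tm B x W (E ∪ {s(p, q), s(p, r)}) +
        (tm B x W (E ∪ insert s(q, r) ∅) + tm B x W (E ∪ insert s(q, r) {s(p, q)}) +
          tm B x W (E ∪ insert s(q, r) {s(p, r)}) +
          tm B x W (E ∪ insert s(q, r) {s(p, q), s(p, r)}))) +
      (1 - w) * (tm B x (insert p W) E + tm B x (insert p W) (E ∪ {s(p, q)}) +
        tm B x (insert p W) (E ∪ {s(p, r)}) + tm B x (insert p W) (E ∪ {s(p, q), s(p, r)}) +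
        (tm B x (insert p W) (E ∪ insert s(q, r) ∅) +
          tm B x (insert p W) (E ∪ insert s(q, r) {s(p, q)}) +
          tm B x (insert p W) (E ∪ insert s(q, r) {s(p, r)}) +
          tm B x (insert p W) (E ∪ insert s(q, r) {s(p, q), s(p, r)}))) := by
  classical
  have nab : s(p, q) ≠ s(p, r) := s_ne (Or.inr h.hqr) (Or.inl h.hpr)
  have nac : s(p, q) ≠ s(q, r) := s_ne (Or.inl h.hpq) (Or.inl h.hpr)
  have nbc : s(p, r) ≠ s(q, r) := s_ne (Or.inl h.hpq) (Or.inl h.hpr)
  -- membership facts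
  have sub0 : (∅ : Finset (Sym2 V)) ⊆ {s(p, q), s(p, r)} := empty_subset _
  have suba : ({s(p, q)} : Finset (Sym2 V)) ⊆ {s(p, q), s(p, r)} := by
    intro x hx; rw [mem_singleton] at hx; rw [hx]; simp
  have subb : ({s(p, r)} : Finset (Sym2 V)) ⊆ {s(p, q), s(p, r)} := by
    intro x hx; rw [mem_singleton] at hx; rw [hx]; simp
  have ne0 : (∅ : Finset (Sym2 V)) ≠ {s(p, q), s(p, r)} := by
    intro hh
    have : s(p, q) ∈ (∅ : Finset (Sym2 V)) := by rw [hh]; simp
    simp at this
  have nea : ({s(p, q)} : Finset (Sym2 V)) ≠ {s(p, q), s(p, r)} := by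
    intro hh
    have : s(p, r) ∈ ({s(p, q)} : Finset (Sym2 V)) := by rw [hh]; simp
    rw [mem_singleton] at this
    exact nab this.symm
  have neb : ({s(p, r)} : Finset (Sym2 V)) ≠ {s(p, q), s(p, r)} := by
    intro hh
    have : s(p, q) ∈ ({s(p, r)} : Finset (Sym2 V)) := by rw [hh]; simp
    rw [mem_singleton] at this
    exact nab this
  -- equalities of the terms without `qr`
  have q0 : tm A x W E = tm B x W E := tm_congr (f1 hA hB h hp h3)
  have qa : tm A x W (E ∪ {s(p, q)}) = tm B x W (E ∪ {s(p, q)}) :=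
    tm_congr (f1 hA hB h hp (by simp [h3, nac.symm]))
  have qb : tm A x W (E ∪ {s(p, r)}) = tm B x W (E ∪ {s(p, r)}) :=
    tm_congr (f1 hA hB h hp (by simp [h3, nbc.symm]))
  have fab : Fam A W (E ∪ {s(p, q), s(p, r)}) ↔ Fam B W (E ∪ {s(p, q), s(p, r)}) :=
    f1 hA hB h hp (by simp [h3, nbc.symm, nac.symm])
  have qab : tm A x W (E ∪ {s(p, q), s(p, r)}) = tm B x W (E ∪ {s(p, q), s(p, r)}) := tm_congr fab
  have r0 : tm A x (insert p W) E = tm B x (insert p W) E :=
    tm_congr (f4 hA hB h h3 (fun hh => h1 hh.1))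
  have ra : tm A x (insert p W) (E ∪ {s(p, q)}) = tm B x (insert p W) (E ∪ {s(p, q)}) :=
    tm_congr (f4 hA hB h (by simp [h3, nac.symm]) (by
      rintro ⟨-, hh⟩
      rw [mem_union, mem_singleton] at hh
      rcases hh with hh | hh
      · exact h2 hh
      · exact nab hh.symm))
  have rb : tm A x (insert p W) (E ∪ {s(p, r)}) = tm B x (insert p W) (E ∪ {s(p, r)}) :=
    tm_congr (f4 hA hB h (by simp [h3, nbc.symm]) (by
      rintro ⟨hh, -⟩
      rw [mem_union, mem_singleton] at hh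
      rcases hh with hh | hh
      · exact h1 hh
      · exact nab hh))
  -- products
  have k2 : ∏ e ∈ E ∪ {s(p, q), s(p, r)}, x e =
      (∏ e ∈ E, x e) * (x s(p, q) * x s(p, r)) := prod_aux x (by
    intro y hy
    rw [mem_insert, mem_singleton] at hy
    rcases hy with hy | hy
    · rw [hy]; exact h1
    · rw [hy]; exact h2) (prod_pair nab)
  have c0 : ∏ e ∈ E ∪ insert s(q, r) ∅, x e = (∏ e ∈ E, x e) * x s(q, r) := prod_aux x (by
    intro y hy
    rw [mem_insert] at hy
    rcases hy with hy | hy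
    · rw [hy]; exact h3
    · simp at hy) (by simp)
  have ca : ∏ e ∈ E ∪ insert s(q, r) {s(p, q)}, x e =
      (∏ e ∈ E, x e) * (x s(q, r) * x s(p, q)) := prod_aux x (by
    intro y hy
    rw [mem_insert, mem_singleton] at hy
    rcases hy with hy | hy
    · rw [hy]; exact h3
    · rw [hy]; exact h1) (prod_pair nac.symm)
  have cb : ∏ e ∈ E ∪ insert s(q, r) {s(p, r)}, x e =
      (∏ e ∈ E, x e) * (x s(q, r) * x s(p, r)) := prod_aux x (by
    intro y hy
    rw [mem_insert, mem_singleton] at hy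
    rcases hy with hy | hy
    · rw [hy]; exact h3
    · rw [hy]; exact h2) (prod_pair nbc.symm)
  have cab : ∏ e ∈ E ∪ insert s(q, r) {s(p, q), s(p, r)}, x e =
      (∏ e ∈ E, x e) * (x s(q, r) * (x s(p, q) * x s(p, r))) := prod_aux x (by
    intro y hy
    rw [mem_insert, mem_insert, mem_singleton] at hy
    rcases hy with hy | hy | hy
    · rw [hy]; exact h3
    · rw [hy]; exact h1
    · rw [hy]; exact h2) (by
      rw [prod_insert, prod_pair nab]
      simp [nac.symm, nbc.symm])
  have upe := up_eq (A := A) (E := E) (T := {s(p, q), s(p, r)}) h.hpq h.hpr rfl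
  have dne := dn_eq (A := A) (E := E) (T := {s(p, q), s(p, r)}) h.hpq h.hpr rfl
  have mab1 : s(p, q) ∈ E ∪ {s(p, q), s(p, r)} := by simp
  have mab2 : s(p, r) ∈ E ∪ {s(p, q), s(p, r)} := by simp
  have g5 := f5 hA hB h hp mab1 mab2
  rw [upe, dne, ← fab] at g5
  -- the values
  have F2B : ∀ {T : Finset (Sym2 V)}, T ⊆ {s(p, q), s(p, r)} →
      (Fam B W (E ∪ insert s(q, r) T) ↔
        Fam A W (E ∪ {s(p, q), s(p, r)}) ∧ ¬ Up A p q r E) := fun {T} hT =>
    (f2B hA hB h hp h1 h2 h3 hT).trans (and_congr_left' fab.symm)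
  have A0 := tm_iff (f2 hA hB h hp h1 h2 h3 sub0) c0
  have Aa := tm_iff (f2 hA hB h hp h1 h2 h3 suba) ca
  have Ab := tm_iff (f2 hA hB h hp h1 h2 h3 subb) cb
  have Aab := tm_iff (f2 hA hB h hp h1 h2 h3 (Subset.refl _)) cab
  have B0 := tm_iff (F2B sub0) c0
  have Ba := tm_iff (F2B suba) ca
  have Bb := tm_iff (F2B subb) cb
  have Bab := tm_iff (F2B (Subset.refl _)) cab
  have A'0 := tm_iff ((f3 hA hB h hp h1 h2 h3 sub0).trans
    (and_congr_left' (f2 hA hB h hp h1 h2 h3 sub0))) c0
  have A'a := tm_iff ((f3 hA hB h hp h1 h2 h3 suba).trans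
    (and_congr_left' (f2 hA hB h hp h1 h2 h3 suba))) ca
  have A'b := tm_iff ((f3 hA hB h hp h1 h2 h3 subb).trans
    (and_congr_left' (f2 hA hB h hp h1 h2 h3 subb))) cb
  have A'ab := tm_iff ((f3 hA hB h hp h1 h2 h3 (Subset.refl _)).trans
    (and_congr_left' (f2 hA hB h hp h1 h2 h3 (Subset.refl _)))) cab
  have B'0 := tm_iff ((f3B hA hB h hp h1 h2 h3 sub0).trans
    (and_congr_left' (F2B sub0))) c0
  have B'a := tm_iff ((f3B hA hB h hp h1 h2 h3 suba).trans
    (and_congr_left' (F2B suba))) ca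
  have B'b := tm_iff ((f3B hA hB h hp h1 h2 h3 subb).trans
    (and_congr_left' (F2B subb))) cb
  have B'ab := tm_iff ((f3B hA hB h hp h1 h2 h3 (Subset.refl _)).trans
    (and_congr_left' (F2B (Subset.refl _)))) cab
  have A5 := tm_iff g5.1 k2
  have B5 := tm_iff g5.2 k2
  rw [A0, Aa, Ab, Aab, B0, Ba, Bb, Bab, A'0, A'a, A'b, A'ab, B'0, B'a, B'b, B'ab, A5, B5,
    q0, qa, qb, qab, r0, ra, rb]
  simp only [eq_false ne0, eq_false nea, eq_false neb, false_imp_iff, forall_true_left, and_true]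
  generalize tm B x W (E ∪ {s(p, q), s(p, r)}) = t1
  generalize tm B x W (E ∪ {s(p, q)}) = t2
  generalize tm B x W (E ∪ {s(p, r)}) = t3
  generalize tm B x W E = t4
  generalize tm B x (insert p W) (E ∪ {s(p, q)}) = t5
  generalize tm B x (insert p W) (E ∪ {s(p, r)}) = t6
  generalize tm B x (insert p W) E = t7
  generalize Fam A W (E ∪ {s(p, q), s(p, r)}) = G
  generalize Up A p q r E = U
  generalize Dn A p q r E = D
  generalize ∏ e ∈ E, x e = P0
  generalize x s(p, q) = X1 at *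
  generalize x s(p, r) = X2 at *
  generalize x s(q, r) = X3 at *
  by_cases hg : G
  · by_cases hU : U
    · by_cases hD : D
      · simp only [hg, hU, hD, not_true_eq_false, and_true, and_false, if_false]
      · simp only [hg, hU, hD, not_true_eq_false, not_false_eq_true, and_true, and_false,
          if_true, if_false]
        linear_combination P0 * hx
    · by_cases hD : D
      · simp only [hg, hU, hD, not_true_eq_false, not_false_eq_true, and_true, and_false,
          if_true, if_false]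
        linear_combination (-P0) * hx
      · simp only [hg, hU, hD, not_false_eq_true, and_true, if_true]
  · simp only [hg, false_and, if_false]

theorem lawW (hA : IsChi A) (hB : IsChi B) (h : Mut A B p q r) {W : Finset V} (hp : p ∉ W)
    (x : Sym2 V → R) (w : R)
    (hx : (1 + x s(q, r)) * (1 + x s(p, q) + x s(p, r) + w * (x s(p, q) * x s(p, r))) =
      (1 + x s(p, q)) * (1 + x s(p, r))) :
    w * wF A x W + (1 - w) * wF A x (insert p W) = w * wF B x W + (1 - w) * wF B x (insert p W) := by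
  have nab : s(p, q) ≠ s(p, r) := s_ne (Or.inr h.hqr) (Or.inl h.hpr)
  have nac : s(p, q) ≠ s(q, r) := s_ne (Or.inl h.hpq) (Or.inl h.hpr)
  have nbc : s(p, r) ≠ s(q, r) := s_ne (Or.inl h.hpq) (Or.inl h.hpr)
  rw [wF_split A x W _ _ _ nab nac nbc, wF_split A x (insert p W) _ _ _ nab nac nbc,
    wF_split B x W _ _ _ nab nac nbc, wF_split B x (insert p W) _ _ _ nab nac nbc,
    mul_sum, mul_sum, mul_sum, mul_sum, ← sum_add_distrib, ← sum_add_distrib]
  apply sum_congr rfl
  intro E hE
  rw [mem_powerset] at hE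
  have h1 : s(p, q) ∉ E := fun hh => by
    have := hE hh
    simp at this
  have h2 : s(p, r) ∉ E := fun hh => by
    have := hE hh
    simp at this
  have h3 : s(q, r) ∉ E := fun hh => by
    have := hE hh
    simp at this
  exact pointwise hA hB h hp hx h1 h2 h3

end PT39
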