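import Pool.Agent.Work.MP_02cc39_co.Mut.LocP

/-!
# MP_02cc39_co/Mut, LocF (size M-L): families under a mutation

`E₀` avoids `s(p,q), s(p,r), s(q,r)`.  `nb E v` is the neighbour set (`v ∉ nb E v` for loopless `E`).

PROOFS.
`fam_mono`: NC is inherited; `ptd_mono`, `nb E' v ⊆ nb E v`.
`f1` (`p ∉ W`, `qr ∉ E`): crossings agree (`cross_agree`), `ptd_agree` at the points `≠ p`.
`f2` (`p ∉ W`, `T ⊆ {pq, pr}`, adding `qr`): (⇒) `E₀ ∪ insert qr T` noncrossing: if some down neighbour `s` of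
`p` is in `E₀` then `ps` crosses `qr` (`x_pA`), so `¬ Dn`.  `E₀ ∪ {pq, pr}` is noncrossing: an edge `st ∈ E₀` not
at `p, q, r` crossing `pq` or `pr` crosses `qr` (`x_newq`, `x_newr`); edges `qs` do not cross `pr`, edges `rs` do
not cross `pq` (`x_qs`, `x_rs`), other pairs have a common end or are both in `E₀`.  Pointedness at
`v ∈ W` (`v ≠ p`): `v ≠ q, r`: same neighbours.  `v = q`: the neighbours of `q` in `E₀ ∪ insert qr T` are
`insert r N₀` or `insert p (insert r N₀)`, in `E₀ ∪ {pq, pr}` they are `insert p N₀`: `ptd_idq`.  `v = r`: `ptd_idr`.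
(⇐) noncrossing: an edge of `E₀` not at `p` crossing `qr` crosses `pq` or `pr` (`x_old`; `E₀` edges at `q` or
`r` have a common end with `qr`), an edge `ps ∈ E₀` crosses `qr` only if `s` is down (`x_pA`); the edges of
`T ⊆ {pq, pr}`: fine.  Pointedness as before.
`f2B`: `f2` for `Mut B A p r q` (`up_symm`, `dn_symm`).
`f3`: (`insert p W`) the only new condition is at `p`; the neighbours of `p` in `E₀ ∪ insert qr T` are
`nb E₀ p` together with `q` if `pq ∈ T`, `r` if `pr ∈ T`.  `ptd_up` if not both are in `T` (`¬ Dn` says that all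
of `nb E₀ p` is up), `ptd_both` if both are in `T`.  `f3B` symmetric (`ptd_dn` used in `B`).
`f4`: `qr ∉ E`, not both `pq, pr` in `E`: `f1` and `ptd_agree_p`.
`f5`: `pq, pr ∈ E`, `qr ∉ E` or not: condition at `p`: `ptd_both`, `ptd_bothB`.
-/

set_option autoImplicit false

namespace PT39

open Finset

variable {V : Type} [Fintype V] [DecidableEq V] {A B : Ori V} {p q r : V}

private theorem mem_nb' {E : Finset (Sym2 V)} {v x : V} : x ∈ nb E v ↔ s(v, x) ∈ E := by
  simp [nb]

private theorem loop_nb {E : Finset (Sym2 V)} (h : ∀ e ∈ E, ¬ e.IsDiag) (v : V) : v ∉ nb E v := by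
  intro hv
  exact h _ (mem_nb'.1 hv) (Sym2.mk_isDiag_iff.2 rfl)

private theorem cross_comm3 {χ : Ori V} (hχ : IsChi χ) {a b c d : V} (h1 : a ≠ b) (h2 : a ≠ c)
    (h3 : a ≠ d) (h4 : b ≠ c) (h5 : b ≠ d) (h6 : c ≠ d) : Cross χ a b c d ↔ Cross χ a b d c := by
  rw [cross_comm2 χ a b c d, cross_comm2 χ a b d c]
  exact cross_comm1 hχ h6 h2.symm h4.symm h3.symm h5.symm h1

/-- no edge of `E` crosses the segment `cd`. -/
private def Kc (χ : Ori V) (E : Finset (Sym2 V)) (c d : V) : Prop :=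
  ∀ a b : V, s(a, b) ∈ E → a ≠ b → a ≠ c → a ≠ d → b ≠ c → b ≠ d → ¬ Cross χ a b c d

private theorem nc_iff {χ : Ori V} (hχ : IsChi χ) {p q r : V} (hpq : p ≠ q) (hpr : p ≠ r)
    (hqr : q ≠ r) {E F : Finset (Sym2 V)} (hF : F ⊆ {s(p, q), s(p, r), s(q, r)}) :
    NC χ (E ∪ F) ↔ NC χ E ∧ (s(p, q) ∈ F → Kc χ E p q) ∧ (s(p, r) ∈ F → Kc χ E p r) ∧
      (s(q, r) ∈ F → Kc χ E q r) := by
  constructor
  · intro h
    refine ⟨?_, ?_, ?_, ?_⟩
    · intro a b c d hab hcd
      exact h a b c d (mem_union_left _ hab) (mem_union_left _ hcd)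
    · intro hm a b hab h1 h2 h3 h4 h5
      exact h a b p q (mem_union_left _ hab) (mem_union_right _ hm) h1 hpq h2 h3 h4 h5
    · intro hm a b hab h1 h2 h3 h4 h5
      exact h a b p r (mem_union_left _ hab) (mem_union_right _ hm) h1 hpr h2 h3 h4 h5
    · intro hm a b hab h1 h2 h3 h4 h5
      exact h a b q r (mem_union_left _ hab) (mem_union_right _ hm) h1 hqr h2 h3 h4 h5
  · rintro ⟨h0, h1, h2, h3⟩
    have key : ∀ a b c d : V, s(a, b) ∈ E → s(c, d) ∈ F → a ≠ b → c ≠ d → a ≠ c → a ≠ d → b ≠ c →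
        b ≠ d → ¬ Cross χ a b c d := by
      intro a b c d hab hcd n1 n2 n3 n4 n5 n6
      have hc := hF hcd
      rw [mem_insert, mem_insert, mem_singleton] at hc
      rcases hc with hc | hc | hc
      · have hm : s(p, q) ∈ F := hc ▸ hcd
        rcases Sym2.eq_iff.1 hc with ⟨rfl, rfl⟩ | ⟨rfl, rfl⟩
        · exact h1 hm a b hab n1 n3 n4 n5 n6
        · rw [cross_comm3 hχ n1 n3 n4 n5 n6 n2]
          exact h1 hm a b hab n1 n4 n3 n6 n5
      · have hm : s(p, r) ∈ F := hc ▸ hcd
        rcases Sym2.eq_iff.1 hc with ⟨rfl, rfl⟩ | ⟨rfl, rfl⟩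
        · exact h2 hm a b hab n1 n3 n4 n5 n6
        · rw [cross_comm3 hχ n1 n3 n4 n5 n6 n2]
          exact h2 hm a b hab n1 n4 n3 n6 n5
      · have hm : s(q, r) ∈ F := hc ▸ hcd
        rcases Sym2.eq_iff.1 hc with ⟨rfl, rfl⟩ | ⟨rfl, rfl⟩
        · exact h3 hm a b hab n1 n3 n4 n5 n6
        · rw [cross_comm3 hχ n1 n3 n4 n5 n6 n2]
          exact h3 hm a b hab n1 n4 n3 n6 n5
    intro a b c d hab hcd n1 n2 n3 n4 n5 n6
    rcases mem_union.1 hab with hab | hab <;> rcases mem_union.1 hcd with hcd | hcd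
    · exact h0 a b c d hab hcd n1 n2 n3 n4 n5 n6
    · exact key a b c d hab hcd n1 n2 n3 n4 n5 n6
    · rw [cross_comm2]
      exact key c d a b hcd hab n2 n1 n3.symm n5.symm n4.symm n6.symm
    · exfalso
      have h1 := hF hab
      have h2 := hF hcd
      simp only [mem_insert, mem_singleton, Sym2.eq_iff] at h1 h2
      rcases h1 with h1 | h1 | h1 <;> rcases h1 with ⟨rfl, rfl⟩ | ⟨rfl, rfl⟩ <;>
        rcases h2 with h2 | h2 | h2 <;> rcases h2 with ⟨rfl, rfl⟩ | ⟨rfl, rfl⟩ <;>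
        first
        | exact n3 rfl
        | exact n4 rfl
        | exact n5 rfl
        | exact n6 rfl

private theorem k_iff (hA : IsChi A) (h : Mut A B p q r) {E₀ : Finset (Sym2 V)} :
    Kc A E₀ q r ↔ (Kc A E₀ p q ∧ Kc A E₀ p r) ∧ ¬ Dn A p q r E₀ := by
  have hpq := h.hpq
  have hpr := h.hpr
  have hqr := h.hqr
  constructor
  · intro hk
    refine ⟨⟨?_, ?_⟩, ?_⟩
    · intro a b hab n1 n2 n3 n4 n5
      by_cases har : a = r
      · subst har
        exact x_rs hA h n4 n5 n1.symm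
      by_cases hbr : b = r
      · subst hbr
        rw [cross_comm1 hA n1 n2 n3 n4 n5 hpq]
        exact x_rs hA h n2 n3 n1
      intro hx
      exact hk a b hab n1 n3 har n5 hbr (x_newq hA h n1 n2 n3 har n4 n5 hbr hx)
    · intro a b hab n1 n2 n3 n4 n5
      by_cases haq : a = q
      · subst haq
        exact x_qs hA h n4 n1.symm n5
      by_cases hbq : b = q
      · subst hbq
        rw [cross_comm1 hA n1 n2 n3 n4 n5 hpr]
        exact x_qs hA h n2 n1 n3
      intro hx
      exact hk a b hab n1 haq n3 hbq n5 (x_newr hA h n1 n2 haq n3 n4 hbq n5 hx)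
    · rintro ⟨s, n1, n2, n3, hs, hd⟩
      exact hk p s hs n3.symm hpq hpr n1 n2 ((x_pA hA h n3 n1 n2).2 hd)
  · rintro ⟨⟨h1, h2⟩, h3⟩ a b hab n1 n2 n3 n4 n5
    by_cases hap : a = p
    · subst hap
      rw [x_pA hA h n1.symm n4 n5]
      intro hd
      exact h3 ⟨b, n4, n5, n1.symm, hab, hd⟩
    by_cases hbp : b = p
    · subst hbp
      rw [cross_comm1 hA n1 n2 n3 n4 n5 hqr, x_pA hA h n1 n2 n3]
      intro hd
      exact h3 ⟨a, n2, n3, n1, by rw [Sym2.eq_swap]; exact hab, hd⟩
    intro hx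
    rcases x_old hA h n1 hap n2 n3 hbp n4 n5 hx with hx | hx
    · exact h1 a b hab n1 hap n2 hbp n4 hx
    · exact h2 a b hab n1 hap n3 hbp n5 hx

private theorem nc2 (hA : IsChi A) (h : Mut A B p q r)
    {E₀ T : Finset (Sym2 V)} (hT : T ⊆ {s(p, q), s(p, r)}) :
    NC A (E₀ ∪ insert s(q, r) T) ↔ NC A (E₀ ∪ {s(p, q), s(p, r)}) ∧ ¬ Dn A p q r E₀ := by
  have e1 : insert s(q, r) T ⊆ ({s(p, q), s(p, r), s(q, r)} : Finset (Sym2 V)) := by
    intro e he
    rcases mem_insert.1 he with rfl | he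
    · simp
    · have := hT he
      simp only [mem_insert, mem_singleton] at this ⊢
      tauto
  have e2 : ({s(p, q), s(p, r)} : Finset (Sym2 V)) ⊆ {s(p, q), s(p, r), s(q, r)} := by
    intro e he
    simp only [mem_insert, mem_singleton] at he ⊢
    tauto
  have e3 : s(q, r) ∉ ({s(p, q), s(p, r)} : Finset (Sym2 V)) := by
    have := h.hpq
    have := h.hpr
    have := h.hqr
    simp only [mem_insert, mem_singleton, Sym2.eq_iff]
    rintro ((⟨h1, h2⟩ | ⟨h1, h2⟩) | (⟨h1, h2⟩ | ⟨h1, h2⟩))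
    · exact this h2.symm
    · exact h.hpr h2.symm
    · exact h.hpq h1.symm
    · exact h.hpr h2.symm
  rw [nc_iff hA h.hpq h.hpr h.hqr e1, nc_iff hA h.hpq h.hpr h.hqr e2]
  constructor
  · rintro ⟨h0, -, -, h3⟩
    obtain ⟨⟨k1, k2⟩, k3⟩ := (k_iff hA h).1 (h3 (mem_insert_self _ _))
    exact ⟨⟨h0, fun _ => k1, fun _ => k2, fun h4 => absurd h4 e3⟩, k3⟩
  · rintro ⟨⟨h0, k1, k2, -⟩, k3⟩
    have k1' := k1 (by simp)
    have k2' := k2 (by simp)
    exact ⟨h0, fun _ => k1', fun _ => k2', fun _ => (k_iff hA h).2 ⟨⟨k1', k2'⟩, k3⟩⟩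

private theorem fam_insert {χ : Ori V} {W : Finset V} {E : Finset (Sym2 V)} {v : V} :
    Fam χ (insert v W) E ↔ Fam χ W E ∧ Ptd χ v (nb E v) := by
  constructor
  · intro h
    exact ⟨⟨h.loop, h.nc, fun w hw => h.ptd w (mem_insert_of_mem hw)⟩,
      h.ptd v (mem_insert_self _ _)⟩
  · rintro ⟨h, hv⟩
    refine ⟨h.loop, h.nc, fun w hw => ?_⟩
    rcases mem_insert.1 hw with rfl | hw
    · exact hv
    · exact h.ptd w hw

private theorem famAB (hA : IsChi A) (hB : IsChi B) (h : Mut A B p q r) {W : Finset V}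
    {E : Finset (Sym2 V)} (hqr : s(q, r) ∉ E)
    (hW : p ∈ W → ¬ (s(p, q) ∈ E ∧ s(p, r) ∈ E)) : Fam A W E ↔ Fam B W E := by
  have hx : ∀ a b c d : V, s(a, b) ∈ E → s(c, d) ∈ E → a ≠ b → c ≠ d → a ≠ c → a ≠ d → b ≠ c →
      b ≠ d → (Cross A a b c d ↔ Cross B a b c d) := by
    intro a b c d hab hcd n1 n2 n3 n4 n5 n6
    refine cross_agree hA hB h n1 n3 n4 n5 n6 n2 ?_ ?_
    · intro he
      exact hqr (he ▸ hab)
    · intro he
      exact hqr (he ▸ hcd)
  have hp : (∀ e ∈ E, ¬ e.IsDiag) → ∀ v ∈ W, (Ptd A v (nb E v) ↔ Ptd B v (nb E v)) := by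
    intro hl v hv
    by_cases hvp : v = p
    · subst hvp
      refine ptd_agree_p h _ (loop_nb hl _) ?_
      rw [mem_nb', mem_nb']
      exact hW hv
    · exact ptd_agree hA hB h hvp _ (loop_nb hl _)
  constructor
  · intro hf
    refine ⟨hf.loop, ?_, ?_⟩
    · intro a b c d hab hcd n1 n2 n3 n4 n5 n6
      rw [← hx a b c d hab hcd n1 n2 n3 n4 n5 n6]
      exact hf.nc a b c d hab hcd n1 n2 n3 n4 n5 n6
    · intro v hv
      exact (hp hf.loop v hv).1 (hf.ptd v hv)
  · intro hf
    refine ⟨hf.loop, ?_, ?_⟩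
    · intro a b c d hab hcd n1 n2 n3 n4 n5 n6
      rw [hx a b c d hab hcd n1 n2 n3 n4 n5 n6]
      exact hf.nc a b c d hab hcd n1 n2 n3 n4 n5 n6
    · intro v hv
      exact (hp hf.loop v hv).2 (hf.ptd v hv)

private theorem ptd2 (hA : IsChi A) (h : Mut A B p q r) {W : Finset V} (hp : p ∉ W)
    {E₀ T : Finset (Sym2 V)} (hl : ∀ e ∈ E₀, ¬ e.IsDiag) (h1 : s(p, q) ∉ E₀) (h2 : s(p, r) ∉ E₀)
    (h3 : s(q, r) ∉ E₀) (hT : T ⊆ {s(p, q), s(p, r)}) {v : V} (hv : v ∈ W) :
    Ptd A v (nb (E₀ ∪ insert s(q, r) T) v) ↔ Ptd A v (nb (E₀ ∪ {s(p, q), s(p, r)}) v) := by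
  have hpq := h.hpq
  have hpr := h.hpr
  have hqr := h.hqr
  have hvp : v ≠ p := by
    rintro rfl
    exact hp hv
  by_cases hvq : v = q
  · subst hvq
    have m1 : p ∉ nb E₀ v := by
      rw [mem_nb', Sym2.eq_swap]
      exact h1
    have m2 : v ∉ nb E₀ v := loop_nb hl v
    have m3 : r ∉ nb E₀ v := by
      rw [mem_nb']
      exact h3
    have e2 : nb (E₀ ∪ {s(p, v), s(p, r)}) v = insert p (nb E₀ v) := by
      ext x
      simp only [mem_nb', mem_union, mem_insert, mem_singleton, Sym2.eq_iff]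
      constructor
      · rintro (h4 | (⟨h4, -⟩ | ⟨-, h4⟩) | (⟨h4, -⟩ | ⟨h4, -⟩))
        · exact Or.inr h4
        · exact absurd h4.symm hpq
        · exact Or.inl h4
        · exact absurd h4.symm hpq
        · exact absurd h4 hqr
      · rintro (h4 | h4)
        · exact Or.inr (Or.inl (Or.inr ⟨trivial, h4⟩))
        · exact Or.inl h4
    have hid := ptd_idq hA h (nb E₀ v) m1 m2 m3
    rw [e2, hid.1]
    by_cases hpT : s(p, v) ∈ T
    · have e1 : nb (E₀ ∪ insert s(v, r) T) v = insert p (insert r (nb E₀ v)) := by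
        ext x
        simp only [mem_nb', mem_union, mem_insert]
        constructor
        · rintro (h4 | h4 | h4)
          · exact Or.inr (Or.inr h4)
          · rcases Sym2.eq_iff.1 h4 with ⟨-, h5⟩ | ⟨h5, -⟩
            · exact Or.inr (Or.inl h5)
            · exact absurd h5 hqr
          · have h5 := hT h4
            simp only [mem_insert, mem_singleton, Sym2.eq_iff] at h5
            rcases h5 with (⟨h5, -⟩ | ⟨-, h5⟩) | (⟨h5, -⟩ | ⟨h5, -⟩)
            · exact absurd h5.symm hpq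
            · exact Or.inl h5
            · exact absurd h5.symm hpq
            · exact absurd h5 hqr
        · rintro (h4 | h4 | h4)
          · subst h4
            right; right
            rw [Sym2.eq_swap]
            exact hpT
          · subst h4
            exact Or.inr (Or.inl rfl)
          · exact Or.inl h4
      rw [e1, hid.2]
    · have e1 : nb (E₀ ∪ insert s(v, r) T) v = insert r (nb E₀ v) := by
        ext x
        simp only [mem_nb', mem_union, mem_insert]
        constructor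
        · rintro (h4 | h4 | h4)
          · exact Or.inr h4
          · rcases Sym2.eq_iff.1 h4 with ⟨-, h5⟩ | ⟨h5, -⟩
            · exact Or.inl h5
            · exact absurd h5 hqr
          · have h5 := hT h4
            simp only [mem_insert, mem_singleton, Sym2.eq_iff] at h5
            rcases h5 with (⟨h5, -⟩ | ⟨-, h5⟩) | (⟨h5, -⟩ | ⟨h5, -⟩)
            · exact absurd h5.symm hpq
            · subst h5
              exact absurd (by rw [Sym2.eq_swap]; exact h4) hpT
            · exact absurd h5.symm hpq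
            · exact absurd h5 hqr
        · rintro (h4 | h4)
          · subst h4
            exact Or.inr (Or.inl rfl)
          · exact Or.inl h4
      rw [e1]
  by_cases hvr : v = r
  · subst hvr
    have m1 : p ∉ nb E₀ v := by
      rw [mem_nb', Sym2.eq_swap]
      exact h2
    have m2 : v ∉ nb E₀ v := loop_nb hl v
    have m3 : q ∉ nb E₀ v := by
      rw [mem_nb', Sym2.eq_swap]
      exact h3
    have e2 : nb (E₀ ∪ {s(p, q), s(p, v)}) v = insert p (nb E₀ v) := by
      ext x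
      simp only [mem_nb', mem_union, mem_insert, mem_singleton, Sym2.eq_iff]
      constructor
      · rintro (h4 | (⟨h4, -⟩ | ⟨h4, -⟩) | (⟨h4, -⟩ | ⟨-, h4⟩))
        · exact Or.inr h4
        · exact absurd h4.symm hpr
        · exact absurd h4.symm hqr
        · exact absurd h4.symm hpr
        · exact Or.inl h4
      · rintro (h4 | h4)
        · exact Or.inr (Or.inr (Or.inr ⟨trivial, h4⟩))
        · exact Or.inl h4
    have hid := ptd_idr hA h (nb E₀ v) m1 m3 m2
    rw [e2, hid.1]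
    by_cases hpT : s(p, v) ∈ T
    · have e1 : nb (E₀ ∪ insert s(q, v) T) v = insert p (insert q (nb E₀ v)) := by
        ext x
        simp only [mem_nb', mem_union, mem_insert]
        constructor
        · rintro (h4 | h4 | h4)
          · exact Or.inr (Or.inr h4)
          · rcases Sym2.eq_iff.1 h4 with ⟨h5, -⟩ | ⟨-, h5⟩
            · exact absurd h5.symm hqr
            · exact Or.inr (Or.inl h5)
          · have h5 := hT h4
            simp only [mem_insert, mem_singleton, Sym2.eq_iff] at h5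
            rcases h5 with (⟨h5, -⟩ | ⟨h5, -⟩) | (⟨h5, -⟩ | ⟨-, h5⟩)
            · exact absurd h5.symm hpr
            · exact absurd h5.symm hqr
            · exact absurd h5.symm hpr
            · exact Or.inl h5
        · rintro (h4 | h4 | h4)
          · subst h4
            right; right
            rw [Sym2.eq_swap]
            exact hpT
          · subst h4
            right; left
            exact Sym2.eq_swap
          · exact Or.inl h4
      rw [e1, hid.2]
    · have e1 : nb (E₀ ∪ insert s(q, v) T) v = insert q (nb E₀ v) := by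
        ext x
        simp only [mem_nb', mem_union, mem_insert]
        constructor
        · rintro (h4 | h4 | h4)
          · exact Or.inr h4
          · rcases Sym2.eq_iff.1 h4 with ⟨h5, -⟩ | ⟨-, h5⟩
            · exact absurd h5.symm hqr
            · exact Or.inl h5
          · have h5 := hT h4
            simp only [mem_insert, mem_singleton, Sym2.eq_iff] at h5
            rcases h5 with (⟨h5, -⟩ | ⟨h5, -⟩) | (⟨h5, -⟩ | ⟨-, h5⟩)
            · exact absurd h5.symm hpr
            · exact absurd h5.symm hqr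
            · exact absurd h5.symm hpr
            · subst h5
              exact absurd (by rw [Sym2.eq_swap]; exact h4) hpT
        · rintro (h4 | h4)
          · subst h4
            right; left
            exact Sym2.eq_swap
          · exact Or.inl h4
      rw [e1]
  have e : nb (E₀ ∪ insert s(q, r) T) v = nb (E₀ ∪ {s(p, q), s(p, r)}) v := by
    ext x
    simp only [mem_nb', mem_union, mem_insert, mem_singleton, Sym2.eq_iff]
    constructor
    · rintro (h4 | (⟨h4, -⟩ | ⟨h4, -⟩) | h4)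
      · exact Or.inl h4
      · exact absurd h4 hvq
      · exact absurd h4 hvr
      · have h5 := hT h4
        simp only [mem_insert, mem_singleton, Sym2.eq_iff] at h5
        exact Or.inr h5
    · rintro (h4 | (⟨h4, -⟩ | ⟨h4, -⟩) | (⟨h4, -⟩ | ⟨h4, -⟩))
      · exact Or.inl h4
      · exact absurd h4 hvp
      · exact absurd h4 hvq
      · exact absurd h4 hvp
      · exact absurd h4 hvr
  rw [e]

theorem fam_mono {χ : Ori V} (hχ : IsChi χ) {W W' : Finset V} {E E' : Finset (Sym2 V)}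
    (hW : W' ⊆ W) (hE : E' ⊆ E) (h : Fam χ W E) : Fam χ W' E' := by
  refine ⟨fun e he => h.loop e (hE he), ?_, ?_⟩
  · intro a b c d hab hcd
    exact h.nc a b c d (hE hab) (hE hcd)
  · intro v hv
    refine ptd_mono hχ (loop_nb h.loop v) ?_ (h.ptd v (hW hv))
    intro x hx
    rw [mem_nb'] at hx ⊢
    exact hE hx

theorem f1 (hA : IsChi A) (hB : IsChi B) (h : Mut A B p q r) {W : Finset V} (hp : p ∉ W)
    {E : Finset (Sym2 V)} (hqr : s(q, r) ∉ E) : Fam A W E ↔ Fam B W E := by
  exact famAB hA hB h hqr (fun hp' => absurd hp' hp)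

theorem f2 (hA : IsChi A) (hB : IsChi B) (h : Mut A B p q r) {W : Finset V} (hp : p ∉ W)
    {E₀ T : Finset (Sym2 V)} (h1 : s(p, q) ∉ E₀) (h2 : s(p, r) ∉ E₀) (h3 : s(q, r) ∉ E₀)
    (hT : T ⊆ {s(p, q), s(p, r)}) : Fam A W (E₀ ∪ insert s(q, r) T) ↔
      Fam A W (E₀ ∪ {s(p, q), s(p, r)}) ∧ ¬ Dn A p q r E₀ := by
  have hpq := h.hpq
  have hpr := h.hpr
  have hqr := h.hqr
  constructor
  · intro hf
    have hl : ∀ e ∈ E₀, ¬ e.IsDiag := fun e he => hf.loop e (mem_union_left _ he)
    obtain ⟨n1, n2⟩ := (nc2 hA h hT).1 hf.nc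
    refine ⟨⟨?_, n1, ?_⟩, n2⟩
    · intro e he
      rcases mem_union.1 he with he | he
      · exact hl e he
      · rw [mem_insert, mem_singleton] at he
        rcases he with rfl | rfl
        · rw [Sym2.mk_isDiag_iff]
          exact hpq
        · rw [Sym2.mk_isDiag_iff]
          exact hpr
    · intro v hv
      exact (ptd2 hA h hp hl h1 h2 h3 hT hv).1 (hf.ptd v hv)
  · rintro ⟨hf, hd⟩
    have hl : ∀ e ∈ E₀, ¬ e.IsDiag := fun e he => hf.loop e (mem_union_left _ he)
    refine ⟨?_, (nc2 hA h hT).2 ⟨hf.nc, hd⟩, ?_⟩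
    · intro e he
      rcases mem_union.1 he with he | he
      · exact hl e he
      · rcases mem_insert.1 he with rfl | he
        · rw [Sym2.mk_isDiag_iff]
          exact hqr
        · exact hf.loop e (mem_union_right _ (hT he))
    · intro v hv
      exact (ptd2 hA h hp hl h1 h2 h3 hT hv).2 (hf.ptd v hv)

theorem f2B (hA : IsChi A) (hB : IsChi B) (h : Mut A B p q r) {W : Finset V} (hp : p ∉ W)
    {E₀ T : Finset (Sym2 V)} (h1 : s(p, q) ∉ E₀) (h2 : s(p, r) ∉ E₀) (h3 : s(q, r) ∉ E₀)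
    (hT : T ⊆ {s(p, q), s(p, r)}) : Fam B W (E₀ ∪ insert s(q, r) T) ↔
      Fam B W (E₀ ∪ {s(p, q), s(p, r)}) ∧ ¬ Up A p q r E₀ := by
  have e1 : s(q, r) = s(r, q) := Sym2.eq_swap
  have e2 : ({s(p, q), s(p, r)} : Finset (Sym2 V)) = {s(p, r), s(p, q)} := pair_comm _ _
  rw [e1] at h3
  rw [e2] at hT
  rw [e1, e2, ← dn_symm hA hB h E₀]
  exact f2 hB hA (mut_symm hA hB h) hp h2 h1 h3 hT

theorem f3 (hA : IsChi A) (hB : IsChi B) (h : Mut A B p q r) {W : Finset V} (hp : p ∉ W)
    {E₀ T : Finset (Sym2 V)} (h1 : s(p, q) ∉ E₀) (h2 : s(p, r) ∉ E₀) (h3 : s(q, r) ∉ E₀)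
    (hT : T ⊆ {s(p, q), s(p, r)}) : Fam A (insert p W) (E₀ ∪ insert s(q, r) T) ↔
      Fam A W (E₀ ∪ insert s(q, r) T) ∧ (T = {s(p, q), s(p, r)} → ¬ Up A p q r E₀) := by
  have hpq := h.hpq
  have hpr := h.hpr
  have hqr := h.hqr
  rw [fam_insert]
  refine and_congr_right fun hf => ?_
  have hd : ¬ Dn A p q r E₀ := ((nc2 hA h hT).1 hf.nc).2
  have hl : ∀ e ∈ E₀, ¬ e.IsDiag := fun e he => hf.loop e (mem_union_left _ he)
  by_cases hTe : T = {s(p, q), s(p, r)}
  · have e1 : nb (E₀ ∪ insert s(q, r) T) p = insert q (insert r (nb E₀ p)) := by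
      ext x
      rw [hTe]
      simp only [mem_nb', mem_union, mem_insert, mem_singleton, Sym2.eq_iff]
      constructor
      · rintro (h4 | (⟨h4, -⟩ | ⟨h4, -⟩) | (⟨-, h4⟩ | ⟨h4, -⟩) | (⟨-, h4⟩ | ⟨h4, -⟩))
        · exact Or.inr (Or.inr h4)
        · exact absurd h4 hpq
        · exact absurd h4 hpr
        · exact Or.inl h4
        · exact absurd h4 hpq
        · exact Or.inr (Or.inl h4)
        · exact absurd h4 hpr
      · rintro (h4 | h4 | h4)
        · exact Or.inr (Or.inr (Or.inl (Or.inl ⟨trivial, h4⟩)))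
        · exact Or.inr (Or.inr (Or.inr (Or.inl ⟨trivial, h4⟩)))
        · exact Or.inl h4
    have m2 : q ∉ nb E₀ p := by
      rw [mem_nb']
      exact h1
    have m3 : r ∉ nb E₀ p := by
      rw [mem_nb']
      exact h2
    rw [e1, ptd_both hA h (nb E₀ p) (loop_nb hl p) m2 m3]
    constructor
    · rintro h4 - ⟨s, -, -, -, hs, hu⟩
      exact h4 s (mem_nb'.2 hs) hu
    · intro h4 s hs hu
      refine h4 hTe ⟨s, ?_, ?_, ?_, mem_nb'.1 hs, hu⟩
      · rintro rfl
        exact m2 hs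
      · rintro rfl
        exact m3 hs
      · rintro rfl
        exact loop_nb hl _ hs
  · have hnb : ∀ s ∈ nb (E₀ ∪ insert s(q, r) T) p, s(p, s) ∈ E₀ ∨ s(p, s) ∈ T := by
      intro s hs
      rw [mem_nb', mem_union, mem_insert] at hs
      rcases hs with hs | hs | hs
      · exact Or.inl hs
      · rcases Sym2.eq_iff.1 hs with ⟨h4, -⟩ | ⟨h4, -⟩
        · exact absurd h4 hpq
        · exact absurd h4 hpr
      · exact Or.inr hs
    refine iff_of_true ?_ (fun h4 => absurd h4 hTe)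
    refine ptd_up hA h _ (loop_nb hf.loop p) ?_ ?_
    · rintro ⟨hq, hr⟩
      apply hTe
      apply subset_antisymm hT
      intro e he
      rw [mem_insert, mem_singleton] at he
      rcases he with rfl | rfl
      · rcases hnb q hq with h4 | h4
        · exact absurd h4 h1
        · exact h4
      · rcases hnb r hr with h4 | h4
        · exact absurd h4 h2
        · exact h4
    · intro s hs hsq hsr
      have hsp : s ≠ p := by
        rintro rfl
        exact loop_nb hf.loop _ hs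
      rcases hnb s hs with h4 | h4
      · by_contra h5
        exact hd ⟨s, hsq, hsr, hsp, h4, h5⟩
      · exfalso
        have h5 := hT h4
        simp only [mem_insert, mem_singleton, Sym2.eq_iff] at h5
        rcases h5 with (⟨-, h5⟩ | ⟨h5, -⟩) | (⟨-, h5⟩ | ⟨h5, -⟩)
        · exact hsq h5
        · exact hpq h5
        · exact hsr h5
        · exact hpr h5

theorem f3B (hA : IsChi A) (hB : IsChi B) (h : Mut A B p q r) {W : Finset V} (hp : p ∉ W)
    {E₀ T : Finset (Sym2 V)} (h1 : s(p, q) ∉ E₀) (h2 : s(p, r) ∉ E₀) (h3 : s(q, r) ∉ E₀)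
    (hT : T ⊆ {s(p, q), s(p, r)}) : Fam B (insert p W) (E₀ ∪ insert s(q, r) T) ↔
      Fam B W (E₀ ∪ insert s(q, r) T) ∧ (T = {s(p, q), s(p, r)} → ¬ Dn A p q r E₀) := by
  have e1 : s(q, r) = s(r, q) := Sym2.eq_swap
  have e2 : ({s(p, q), s(p, r)} : Finset (Sym2 V)) = {s(p, r), s(p, q)} := pair_comm _ _
  rw [e1] at h3
  rw [e2] at hT
  rw [e1, e2, ← up_symm hA hB h E₀]
  exact f3 hB hA (mut_symm hA hB h) hp h2 h1 h3 hT

theorem f4 (hA : IsChi A) (hB : IsChi B) (h : Mut A B p q r) {W : Finset V}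
    {E : Finset (Sym2 V)} (hqr : s(q, r) ∉ E) (hT : ¬ (s(p, q) ∈ E ∧ s(p, r) ∈ E)) :
    Fam A W E ↔ Fam B W E := by
  exact famAB hA hB h hqr (fun _ => hT)

theorem f5 (hA : IsChi A) (hB : IsChi B) (h : Mut A B p q r) {W : Finset V} (hp : p ∉ W)
    {E : Finset (Sym2 V)} (h1 : s(p, q) ∈ E) (h2 : s(p, r) ∈ E) :
    (Fam A (insert p W) E ↔ Fam A W E ∧ ¬ Up A p q r E) ∧
      (Fam B (insert p W) E ↔ Fam B W E ∧ ¬ Dn A p q r E) := by
  have e1 : nb E p = insert q (insert r (((nb E p).erase q).erase r)) := by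
    ext x
    simp only [mem_insert, mem_erase]
    constructor
    · intro hx
      by_cases hxq : x = q
      · exact Or.inl hxq
      by_cases hxr : x = r
      · exact Or.inr (Or.inl hxr)
      exact Or.inr (Or.inr ⟨hxr, hxq, hx⟩)
    · rintro (rfl | rfl | hx)
      · exact mem_nb'.2 h1
      · exact mem_nb'.2 h2
      · exact hx.2.2
  have m2 : q ∉ ((nb E p).erase q).erase r := by simp
  have m3 : r ∉ ((nb E p).erase q).erase r := by simp
  refine ⟨?_, ?_⟩
  · rw [fam_insert]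
    refine and_congr_right fun hf => ?_
    have m1 : p ∉ ((nb E p).erase q).erase r := by
      intro h4
      exact loop_nb hf.loop p (mem_of_mem_erase (mem_of_mem_erase h4))
    rw [e1, ptd_both hA h _ m1 m2 m3]
    constructor
    · rintro h4 ⟨s, n1, n2, n3, hs, hu⟩
      exact h4 s (mem_erase.2 ⟨n2, mem_erase.2 ⟨n1, mem_nb'.2 hs⟩⟩) hu
    · intro h4 s hs hu
      rw [mem_erase, mem_erase, mem_nb'] at hs
      refine h4 ⟨s, hs.2.1, hs.1, ?_, hs.2.2, hu⟩
      rintro rfl
      exact loop_nb hf.loop _ (mem_nb'.2 hs.2.2)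
  · rw [fam_insert]
    refine and_congr_right fun hf => ?_
    have m1 : p ∉ ((nb E p).erase q).erase r := by
      intro h4
      exact loop_nb hf.loop p (mem_of_mem_erase (mem_of_mem_erase h4))
    rw [e1, ptd_bothB hA hB h _ m1 m2 m3]
    constructor
    · rintro h4 ⟨s, n1, n2, n3, hs, hu⟩
      exact hu (h4 s (mem_erase.2 ⟨n2, mem_erase.2 ⟨n1, mem_nb'.2 hs⟩⟩))
    · intro h4 s hs
      rw [mem_erase, mem_erase, mem_nb'] at hs
      by_contra hu
      refine h4 ⟨s, hs.2.1, hs.1, ?_, hs.2.2, hu⟩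
      rintro rfl
      exact loop_nb hf.loop _ (mem_nb'.2 hs.2.2)

end PT39
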