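import Pool.Agent.Work.MP_02cc39_co.Mut.LocX

/-!
# MP_02cc39_co/Mut, LocP (size M): pointedness under a mutation

PROOFS.  (`χ a b c ↔ χ b c a`, `χ a b c ↔ ¬ χ b a c` for different points.)
`exists_first`: induction on `N`.  `insert a N`, `x` the first point of `N` (if `N = ∅`: `a`).  If `χ v x a`
then `x` is first.  Otherwise `χ v a x` and `a` is first: for `y ∈ N`, `y ≠ x`: `χ v x y`, so `χ v a y` by
`trans` (`p := v`, `r := r`, `x := a`, `y := x`, `z := y`).
`ptd_mono`: if `x` is first in `N` and `x ∈ N'` it is first in `N'`; otherwise `exists_first` with `r := x`.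
`ptd_agree`: `v ≠ p`.  (1) `v ∉ {q, r}`: a triple `(v, x, y)` misses one of `p, q, r`.  (2) `v = q`: if `p ∉ N` or
`r ∉ N` all triples `(q, x, y)` with `x, y ∈ N` miss `p` or `r`.  If `p, r ∈ N`: `ptd_idq` removes `p` on both
sides (in `B` use `ptd_idr` for the mutation `Mut B A p r q`).  (3) `v = r`: the same with `q, r` exchanged.
`ptd_idq` (at `q`, `N₀` without `p, q, r`): for `y ∈ N₀`: `A q p y ↔ A q r y` (side1), `A q y p ↔ A q y r`; and
`A q r p` is true, `A q p r` false.  (a) exchange `p` and `r` (the first point `p` becomes `r`);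
(b) in `insert p (insert r N₀)` the first point is not `p` (`¬ A q p r`), and a first point of `insert r N₀` is
also before `p`.  `ptd_idr` (at `r`): `A r p y ↔ A r q y`, `A r y p ↔ A r y q`, `A r p q` is true
(`A r p q ↔ A q r p`), `A r q p` false: (a) the same; (b) in `insert p (insert q N₀)` the first point is not
`q`; so it is `p` or in `N₀`; if it is `p` then `q` is first in `insert q N₀`; if `x ∈ N₀` is first it stays
first; conversely if `q` is first in `insert q N₀` then `p` is first in `insert p (insert q N₀)`.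
`ptd_both`: `N₀` without `p, q, r`.  If no `s ∈ N₀` is up (`A q r s`), `q` is first: `A p q s ↔ ¬ A q p s ↔
¬ A q r s`, and `A p q r ↔ A q r p` true.  If `u ∈ N₀` is up: `q` is not first (`A p q u` false), `r` is not
first (`A p r q ↔ ¬ A p q r` false), `x ∈ N₀` up is not first (`A p x r ↔ A r p x ↔ ¬ A p r x ↔ ¬ A q r x`
false), `x ∈ N₀` down is not first (`A p x q ↔ A q p x ↔ A q r x` false).
`ptd_agree_p`: no triple `(p, q, r)`.
`ptd_up`: all `s ∈ N₀` up: `A p r s`, so `exists_first` (`v = p`, `r`) gives a first `x ∈ N₀`; `A p x q ↔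
A q p x ↔ A q r x` true; and `r` is first in `insert r N₀`.
`ptd_dn`: the same for `Mut B A p r q` and `ptd_agree_p`.
-/

set_option autoImplicit false

namespace PT39

open Finset

variable {V : Type} [Fintype V] [DecidableEq V] {A B : Ori V} {p q r : V}

omit [Fintype V] [DecidableEq V] in
private theorem rot {χ : Ori V} (hχ : IsChi χ) {a b c : V} (h1 : a ≠ b) (h2 : a ≠ c)
    (h3 : b ≠ c) : χ a b c ↔ χ b c a :=
  ⟨hχ.cyc a b c h1 h2 h3, fun h => hχ.cyc c a b h2.symm h3.symm h1 (hχ.cyc b c a h3 h1.symm h2.symm h)⟩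

omit [Fintype V] [DecidableEq V] in
/-- exchange of the last two points -/
private theorem sw {χ : Ori V} (hχ : IsChi χ) {a b c : V} (h1 : a ≠ b) (h2 : a ≠ c)
    (h3 : b ≠ c) : χ a b c ↔ ¬ χ a c b := by
  rw [hχ.anti a b c h1 h2 h3, rot hχ h1.symm h3 h2]

omit [Fintype V] [DecidableEq V] in
private theorem ptd_congr {χ χ' : Ori V} {v : V} {N : Finset V}
    (h : ∀ x ∈ N, ∀ y ∈ N, y ≠ x → (χ v x y ↔ χ' v x y)) : Ptd χ v N ↔ Ptd χ' v N := by
  unfold Ptd
  constructor
  · rintro (h1 | ⟨x, hx, hx'⟩)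
    · exact Or.inl h1
    · exact Or.inr ⟨x, hx, fun y hy hyx => (h x hx y hy hyx).1 (hx' y hy hyx)⟩
  · rintro (h1 | ⟨x, hx, hx'⟩)
    · exact Or.inl h1
    · exact Or.inr ⟨x, hx, fun y hy hyx => (h x hx y hy hyx).2 (hx' y hy hyx)⟩

theorem exists_first {χ : Ori V} (hχ : IsChi χ) {v r : V} (hvr : v ≠ r) (N : Finset V)
    (hv : v ∉ N) (hr : r ∉ N) (h : ∀ s ∈ N, χ v r s) : Ptd χ v N := by
  induction N using Finset.induction_on with
  | empty => exact Or.inl rfl
  | insert a N ha ih =>
    have hva : v ≠ a := fun e => hv (by rw [e]; exact mem_insert_self _ _)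
    have hra : r ≠ a := fun e => hr (by rw [e]; exact mem_insert_self _ _)
    have hvN : v ∉ N := fun e => hv (mem_insert_of_mem e)
    have hrN : r ∉ N := fun e => hr (mem_insert_of_mem e)
    rcases ih hvN hrN (fun s hs => h s (mem_insert_of_mem hs)) with h0 | ⟨x, hx, hx'⟩
    · right
      subst h0
      refine ⟨a, mem_insert_self _ _, fun y hy hya => ?_⟩
      rcases mem_insert.1 hy with h1 | h1
      · exact absurd h1 hya
      · exact absurd h1 (notMem_empty _)
    · right
      have hax : a ≠ x := fun e => ha (by rw [e]; exact hx)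
      have hvx : v ≠ x := fun e => hvN (by rw [e]; exact hx)
      have hrx : r ≠ x := fun e => hrN (by rw [e]; exact hx)
      by_cases hxa : χ v x a
      · refine ⟨x, mem_insert_of_mem hx, fun y hy hyx => ?_⟩
        rcases mem_insert.1 hy with h1 | h1
        · rw [h1]; exact hxa
        · exact hx' y h1 hyx
      · have hax' : χ v a x := (sw hχ hva hvx hax).2 hxa
        refine ⟨a, mem_insert_self _ _, fun y hy hya => ?_⟩
        rcases mem_insert.1 hy with h1 | h1
        · exact absurd h1 hya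
        · by_cases hyx : y = x
          · rw [hyx]; exact hax'
          · have hvy : v ≠ y := fun e => hvN (by rw [e]; exact h1)
            have hry : r ≠ y := fun e => hrN (by rw [e]; exact h1)
            exact hχ.trans v r a x y hvr hva hvx hvy hra hrx hry hax hya.symm
              (Ne.symm hyx) (h a (mem_insert_self _ _)) (h x (mem_insert_of_mem hx))
              (h y (mem_insert_of_mem h1)) hax' (hx' y h1 hyx)

theorem ptd_mono {χ : Ori V} (hχ : IsChi χ) {v : V} {N N' : Finset V} (hv : v ∉ N) (hN : N' ⊆ N)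
    (h : Ptd χ v N) : Ptd χ v N' := by
  rcases h with h | ⟨x, hx, hx'⟩
  · left
    rw [h] at hN
    exact subset_empty.1 hN
  · by_cases hxN : x ∈ N'
    · exact Or.inr ⟨x, hxN, fun y hy hyx => hx' y (hN hy) hyx⟩
    · have hvx : v ≠ x := fun e => hv (by rw [e]; exact hx)
      exact exists_first hχ hvx N' (fun e => hv (hN e)) hxN
        (fun s hs => hx' s (hN hs) (fun e => hxN (by rw [← e]; exact hs)))

theorem ptd_idq (hA : IsChi A) (h : Mut A B p q r) (N₀ : Finset V) (h1 : p ∉ N₀) (h2 : q ∉ N₀)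
    (h3 : r ∉ N₀) : (Ptd A q (insert p N₀) ↔ Ptd A q (insert r N₀)) ∧
      (Ptd A q (insert p (insert r N₀)) ↔ Ptd A q (insert r N₀)) := by
  have np : ∀ y ∈ N₀, y ≠ p := fun y hy e => h1 (by rw [← e]; exact hy)
  have nq : ∀ y ∈ N₀, y ≠ q := fun y hy e => h2 (by rw [← e]; exact hy)
  have nr : ∀ y ∈ N₀, y ≠ r := fun y hy e => h3 (by rw [← e]; exact hy)
  have e1 : ∀ y ∈ N₀, (A q p y ↔ A q r y) := fun y hy => (h.side1 y (np y hy) (nq y hy) (nr y hy)).symm
  have e2 : ∀ y ∈ N₀, (A q y p ↔ A q y r) := by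
    intro y hy
    rw [sw hA (nq y hy).symm h.hpq.symm (np y hy), sw hA (nq y hy).symm h.hqr (nr y hy), e1 y hy]
  refine ⟨⟨?_, ?_⟩, ?_, ?_⟩
  · rintro (h0 | ⟨x, hx, hx'⟩)
    · exact absurd h0 (insert_ne_empty _ _)
    · right
      rcases mem_insert.1 hx with rfl | hx
      · refine ⟨r, mem_insert_self _ _, fun y hy hyr => ?_⟩
        have hy' : y ∈ N₀ := (mem_insert.1 hy).resolve_left hyr
        exact (e1 y hy').1 (hx' y (mem_insert_of_mem hy') (np y hy'))
      · refine ⟨x, mem_insert_of_mem hx, fun y hy hyx => ?_⟩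
        rcases mem_insert.1 hy with rfl | hy
        · exact (e2 x hx).1 (hx' p (mem_insert_self _ _) (np x hx).symm)
        · exact hx' y (mem_insert_of_mem hy) hyx
  · rintro (h0 | ⟨x, hx, hx'⟩)
    · exact absurd h0 (insert_ne_empty _ _)
    · right
      rcases mem_insert.1 hx with rfl | hx
      · refine ⟨p, mem_insert_self _ _, fun y hy hyp => ?_⟩
        have hy' : y ∈ N₀ := (mem_insert.1 hy).resolve_left hyp
        exact (e1 y hy').2 (hx' y (mem_insert_of_mem hy') (nr y hy'))
      · refine ⟨x, mem_insert_of_mem hx, fun y hy hyx => ?_⟩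
        rcases mem_insert.1 hy with rfl | hy
        · exact (e2 x hx).2 (hx' r (mem_insert_self _ _) (nr x hx).symm)
        · exact hx' y (mem_insert_of_mem hy) hyx
  · intro h0
    refine ptd_mono hA ?_ (subset_insert _ _) h0
    intro hq
    rcases mem_insert.1 hq with e | e
    · exact h.hpq e.symm
    · rcases mem_insert.1 e with e | e
      · exact h.hqr e
      · exact h2 e
  · rintro (h0 | ⟨x, hx, hx'⟩)
    · exact absurd h0 (insert_ne_empty _ _)
    · right
      refine ⟨x, mem_insert_of_mem hx, fun y hy hyx => ?_⟩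
      rcases mem_insert.1 hy with rfl | hy
      · rcases mem_insert.1 hx with rfl | hx
        · exact h.up
        · exact (e2 x hx).2 (hx' r (mem_insert_self _ _) (nr x hx).symm)
      · exact hx' y hy hyx

theorem ptd_idr (hA : IsChi A) (h : Mut A B p q r) (N₀ : Finset V) (h1 : p ∉ N₀) (h2 : q ∉ N₀)
    (h3 : r ∉ N₀) : (Ptd A r (insert p N₀) ↔ Ptd A r (insert q N₀)) ∧
      (Ptd A r (insert p (insert q N₀)) ↔ Ptd A r (insert q N₀)) := by
  have np : ∀ y ∈ N₀, y ≠ p := fun y hy e => h1 (by rw [← e]; exact hy)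
  have nq : ∀ y ∈ N₀, y ≠ q := fun y hy e => h2 (by rw [← e]; exact hy)
  have nr : ∀ y ∈ N₀, y ≠ r := fun y hy e => h3 (by rw [← e]; exact hy)
  have e1 : ∀ y ∈ N₀, (A r p y ↔ A r q y) := by
    intro y hy
    have t1 := h.side2 y (np y hy) (nq y hy) (nr y hy)
    have t2 := hA.anti q r y h.hqr (nq y hy).symm (nr y hy).symm
    have t3 := hA.anti p r y h.hpr (np y hy).symm (nr y hy).symm
    tauto
  have e2 : ∀ y ∈ N₀, (A r y p ↔ A r y q) := by
    intro y hy
    rw [sw hA (nr y hy).symm h.hpr.symm (np y hy), sw hA (nr y hy).symm h.hqr.symm (nq y hy),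
      e1 y hy]
  have e3 : A r p q := hA.cyc q r p h.hqr h.hpq.symm h.hpr.symm h.up
  refine ⟨⟨?_, ?_⟩, ?_, ?_⟩
  · rintro (h0 | ⟨x, hx, hx'⟩)
    · exact absurd h0 (insert_ne_empty _ _)
    · right
      rcases mem_insert.1 hx with rfl | hx
      · refine ⟨q, mem_insert_self _ _, fun y hy hyq => ?_⟩
        have hy' : y ∈ N₀ := (mem_insert.1 hy).resolve_left hyq
        exact (e1 y hy').1 (hx' y (mem_insert_of_mem hy') (np y hy'))
      · refine ⟨x, mem_insert_of_mem hx, fun y hy hyx => ?_⟩
        rcases mem_insert.1 hy with rfl | hy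
        · exact (e2 x hx).1 (hx' p (mem_insert_self _ _) (np x hx).symm)
        · exact hx' y (mem_insert_of_mem hy) hyx
  · rintro (h0 | ⟨x, hx, hx'⟩)
    · exact absurd h0 (insert_ne_empty _ _)
    · right
      rcases mem_insert.1 hx with rfl | hx
      · refine ⟨p, mem_insert_self _ _, fun y hy hyp => ?_⟩
        have hy' : y ∈ N₀ := (mem_insert.1 hy).resolve_left hyp
        exact (e1 y hy').2 (hx' y (mem_insert_of_mem hy') (nq y hy'))
      · refine ⟨x, mem_insert_of_mem hx, fun y hy hyx => ?_⟩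
        rcases mem_insert.1 hy with rfl | hy
        · exact (e2 x hx).2 (hx' q (mem_insert_self _ _) (nq x hx).symm)
        · exact hx' y (mem_insert_of_mem hy) hyx
  · intro h0
    refine ptd_mono hA ?_ (subset_insert _ _) h0
    intro hq
    rcases mem_insert.1 hq with e | e
    · exact h.hpr e.symm
    · rcases mem_insert.1 e with e | e
      · exact h.hqr e.symm
      · exact h3 e
  · rintro (h0 | ⟨x, hx, hx'⟩)
    · exact absurd h0 (insert_ne_empty _ _)
    · right
      rcases mem_insert.1 hx with rfl | hx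
      · refine ⟨p, mem_insert_self _ _, fun y hy hyp => ?_⟩
        rcases mem_insert.1 ((mem_insert.1 hy).resolve_left hyp) with rfl | hy'
        · exact e3
        · exact (e1 y hy').2 (hx' y (mem_insert_of_mem hy') (nq y hy'))
      · refine ⟨x, mem_insert_of_mem (mem_insert_of_mem hx), fun y hy hyx => ?_⟩
        rcases mem_insert.1 hy with rfl | hy
        · exact (e2 x hx).2 (hx' q (mem_insert_self _ _) (nq x hx).symm)
        · exact hx' y hy hyx

omit [Fintype V] in
private theorem split2 {N : Finset V} {a b : V} (hab : a ≠ b) (ha : a ∈ N) (hb : b ∈ N) :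
    N = insert a (insert b ((N.erase a).erase b)) := by
  rw [insert_erase (mem_erase.2 ⟨hab.symm, hb⟩), insert_erase ha]

theorem ptd_agree (hA : IsChi A) (hB : IsChi B) (h : Mut A B p q r) {v : V} (hv : v ≠ p)
    (N : Finset V) (hN : v ∉ N) : Ptd A v N ↔ Ptd B v N := by
  have hBA := mut_symm hA hB h
  have ne : ∀ x ∈ N, v ≠ x := fun x hx e => hN (by rw [e]; exact hx)
  by_cases hq : v = q
  · subst hq
    -- sets which miss `p` or `r`
    have key : ∀ N' : Finset V, v ∉ N' → (p ∉ N' ∨ r ∉ N') → (Ptd A v N' ↔ Ptd B v N') := by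
      intro N' hvN' hpr
      apply ptd_congr
      intro x hx y hy hyx
      have vx : v ≠ x := fun e => hvN' (by rw [e]; exact hx)
      have vy : v ≠ y := fun e => hvN' (by rw [e]; exact hy)
      rcases hpr with hp | hr
      · exact h.agree v x y vx vy hyx.symm ⟨p, Or.inl rfl, hv, fun e => hp (by rw [← e]; exact hx),
          fun e => hp (by rw [← e]; exact hy)⟩
      · exact h.agree v x y vx vy hyx.symm ⟨r, Or.inr (Or.inr rfl), h.hqr,
          fun e => hr (by rw [← e]; exact hx), fun e => hr (by rw [← e]; exact hy)⟩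
    by_cases hp : p ∈ N
    · by_cases hr : r ∈ N
      · have hs := split2 h.hpr hp hr
        set N₀ := (N.erase p).erase r with hN₀
        have k1 : p ∉ N₀ := by simp [hN₀]
        have k2 : v ∉ N₀ := by simp [hN₀, hN]
        have k3 : r ∉ N₀ := by simp [hN₀]
        rw [hs, (ptd_idq hA h N₀ k1 k2 k3).2, (ptd_idr hB hBA N₀ k1 k3 k2).2]
        apply key
        · intro e
          rcases mem_insert.1 e with e | e
          · exact h.hqr e
          · exact k2 e
        · left
          intro e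
          rcases mem_insert.1 e with e | e
          · exact h.hpr e
          · exact k1 e
      · exact key N hN (Or.inr hr)
    · exact key N hN (Or.inl hp)
  · by_cases hr : v = r
    · subst hr
      have key : ∀ N' : Finset V, v ∉ N' → (p ∉ N' ∨ q ∉ N') → (Ptd A v N' ↔ Ptd B v N') := by
        intro N' hvN' hpr
        apply ptd_congr
        intro x hx y hy hyx
        have vx : v ≠ x := fun e => hvN' (by rw [e]; exact hx)
        have vy : v ≠ y := fun e => hvN' (by rw [e]; exact hy)
        rcases hpr with hp | hq'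
        · exact h.agree v x y vx vy hyx.symm ⟨p, Or.inl rfl, hv, fun e => hp (by rw [← e]; exact hx),
            fun e => hp (by rw [← e]; exact hy)⟩
        · exact h.agree v x y vx vy hyx.symm ⟨q, Or.inr (Or.inl rfl), hq,
            fun e => hq' (by rw [← e]; exact hx), fun e => hq' (by rw [← e]; exact hy)⟩
      by_cases hp : p ∈ N
      · by_cases hq' : q ∈ N
        · have hs := split2 h.hpq hp hq'
          set N₀ := (N.erase p).erase q with hN₀
          have k1 : p ∉ N₀ := by simp [hN₀]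
          have k2 : v ∉ N₀ := by simp [hN₀, hN]
          have k3 : q ∉ N₀ := by simp [hN₀]
          rw [hs, (ptd_idr hA h N₀ k1 k3 k2).2, (ptd_idq hB hBA N₀ k1 k2 k3).2]
          apply key
          · intro e
            rcases mem_insert.1 e with e | e
            · exact hq e
            · exact k2 e
          · left
            intro e
            rcases mem_insert.1 e with e | e
            · exact h.hpq e
            · exact k1 e
        · exact key N hN (Or.inr hq')
      · exact key N hN (Or.inl hp)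
    · apply ptd_congr
      intro x hx y hy hyx
      apply h.agree v x y (ne x hx) (ne y hy) hyx.symm
      by_cases c1 : x = p
      · by_cases c2 : y = q
        · exact ⟨r, Or.inr (Or.inr rfl), hr, by rw [c1]; exact h.hpr, by rw [c2]; exact h.hqr⟩
        · exact ⟨q, Or.inr (Or.inl rfl), hq, by rw [c1]; exact h.hpq, c2⟩
      · by_cases c2 : y = p
        · by_cases c3 : x = q
          · exact ⟨r, Or.inr (Or.inr rfl), hr, by rw [c3]; exact h.hqr, by rw [c2]; exact h.hpr⟩
          · exact ⟨q, Or.inr (Or.inl rfl), hq, c3, by rw [c2]; exact h.hpq⟩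
        · exact ⟨p, Or.inl rfl, hv, c1, c2⟩

theorem ptd_both (hA : IsChi A) (h : Mut A B p q r) (N₀ : Finset V) (h1 : p ∉ N₀) (h2 : q ∉ N₀)
    (h3 : r ∉ N₀) : Ptd A p (insert q (insert r N₀)) ↔ ∀ s ∈ N₀, ¬ A q r s := by
  have np : ∀ y ∈ N₀, y ≠ p := fun y hy e => h1 (by rw [← e]; exact hy)
  have nq : ∀ y ∈ N₀, y ≠ q := fun y hy e => h2 (by rw [← e]; exact hy)
  have nr : ∀ y ∈ N₀, y ≠ r := fun y hy e => h3 (by rw [← e]; exact hy)
  have e0 : A p q r := (rot hA h.hpq h.hpr h.hqr).2 h.up
  have e1 : ∀ y ∈ N₀, (A p q y ↔ ¬ A q r y) := by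
    intro y hy
    rw [hA.anti p q y h.hpq (np y hy).symm (nq y hy).symm,
      h.side1 y (np y hy) (nq y hy) (nr y hy)]
  have e2 : ∀ y ∈ N₀, (A p r y ↔ A q r y) := fun y hy =>
    (h.side2 y (np y hy) (nq y hy) (nr y hy)).symm
  constructor
  · rintro (h0 | ⟨x, hx, hx'⟩) u hu hup
    · exact absurd h0 (insert_ne_empty _ _)
    · rcases mem_insert.1 hx with rfl | hx
      · exact ((e1 u hu).1 (hx' u (mem_insert_of_mem (mem_insert_of_mem hu)) (nq u hu))) hup
      · rcases mem_insert.1 hx with rfl | hx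
        · exact (sw hA h.hpr h.hpq h.hqr.symm).1 (hx' q (mem_insert_self _ _) h.hqr) e0
        · by_cases hxu : A q r x
          · exact (sw hA (np x hx).symm h.hpr (nr x hx)).1
              (hx' r (mem_insert_of_mem (mem_insert_self _ _)) (nr x hx).symm) ((e2 x hx).2 hxu)
          · exact (sw hA (np x hx).symm h.hpq (nq x hx)).1
              (hx' q (mem_insert_self _ _) (nq x hx).symm) ((e1 x hx).2 hxu)
  · intro h0
    right
    refine ⟨q, mem_insert_self _ _, fun y hy hyq => ?_⟩
    rcases mem_insert.1 ((mem_insert.1 hy).resolve_left hyq) with rfl | hy'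
    · exact e0
    · exact (e1 y hy').2 (h0 y hy')

theorem ptd_bothB (hA : IsChi A) (hB : IsChi B) (h : Mut A B p q r) (N₀ : Finset V) (h1 : p ∉ N₀)
    (h2 : q ∉ N₀) (h3 : r ∉ N₀) : Ptd B p (insert q (insert r N₀)) ↔ ∀ s ∈ N₀, A q r s := by
  have np : ∀ y ∈ N₀, y ≠ p := fun y hy e => h1 (by rw [← e]; exact hy)
  have nq : ∀ y ∈ N₀, y ≠ q := fun y hy e => h2 (by rw [← e]; exact hy)
  have nr : ∀ y ∈ N₀, y ≠ r := fun y hy e => h3 (by rw [← e]; exact hy)
  rw [insert_comm, ptd_both hB (mut_symm hA hB h) N₀ h1 h3 h2]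
  constructor
  · intro h0 s hs
    have t1 := h0 s hs
    rw [hB.anti r q s h.hqr.symm (nr s hs).symm (nq s hs).symm, not_not] at t1
    exact (h.agree q r s h.hqr (nq s hs).symm (nr s hs).symm
      ⟨p, Or.inl rfl, h.hpq.symm, h.hpr.symm, np s hs⟩).2 t1
  · intro h0 s hs
    rw [hB.anti r q s h.hqr.symm (nr s hs).symm (nq s hs).symm, not_not]
    exact (h.agree q r s h.hqr (nq s hs).symm (nr s hs).symm
      ⟨p, Or.inl rfl, h.hpq.symm, h.hpr.symm, np s hs⟩).1 (h0 s hs)

theorem ptd_agree_p (h : Mut A B p q r) (N : Finset V) (h1 : p ∉ N) (h2 : ¬ (q ∈ N ∧ r ∈ N)) :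
    Ptd A p N ↔ Ptd B p N := by
  apply ptd_congr
  intro x hx y hy hyx
  have px : p ≠ x := fun e => h1 (by rw [e]; exact hx)
  have py : p ≠ y := fun e => h1 (by rw [e]; exact hy)
  by_cases hq : q ∈ N
  · have hr : r ∉ N := fun e => h2 ⟨hq, e⟩
    exact h.agree p x y px py hyx.symm ⟨r, Or.inr (Or.inr rfl), h.hpr,
      fun e => hr (by rw [← e]; exact hx), fun e => hr (by rw [← e]; exact hy)⟩
  · exact h.agree p x y px py hyx.symm ⟨q, Or.inr (Or.inl rfl), h.hpq,
      fun e => hq (by rw [← e]; exact hx), fun e => hq (by rw [← e]; exact hy)⟩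

theorem ptd_up (hA : IsChi A) (h : Mut A B p q r) (N : Finset V) (h1 : p ∉ N)
    (h2 : ¬ (q ∈ N ∧ r ∈ N)) (h3 : ∀ s ∈ N, s ≠ q → s ≠ r → A q r s) : Ptd A p N := by
  have np : ∀ y ∈ N, y ≠ p := fun y hy e => h1 (by rw [← e]; exact hy)
  have e2 : ∀ y ∈ N, y ≠ q → y ≠ r → A p r y := fun y hy hq hr =>
    (h.side2 y (np y hy) hq hr).1 (h3 y hy hq hr)
  by_cases hr : r ∈ N
  · have hq : q ∉ N := fun e => h2 ⟨e, hr⟩
    exact Or.inr ⟨r, hr, fun y hy hyr => e2 y hy (fun e => hq (by rw [← e]; exact hy)) hyr⟩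
  · by_cases hq : q ∈ N
    · have h4 : Ptd A p (N.erase q) := by
        apply exists_first hA h.hpr
        · exact fun e => h1 (mem_of_mem_erase e)
        · exact fun e => hr (mem_of_mem_erase e)
        · intro s hs
          exact e2 s (mem_of_mem_erase hs) (ne_of_mem_erase hs)
            (fun e => hr (by rw [← e]; exact mem_of_mem_erase hs))
      rcases h4 with h4 | ⟨x, hx, hx'⟩
      · right
        refine ⟨q, hq, fun y hy hyq => ?_⟩
        exact absurd (mem_erase.2 ⟨hyq, hy⟩) (by rw [h4]; exact notMem_empty _)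
      · right
        have hxN := mem_of_mem_erase hx
        have hxq := ne_of_mem_erase hx
        have hxr : x ≠ r := fun e => hr (by rw [← e]; exact hxN)
        refine ⟨x, hxN, fun y hy hyx => ?_⟩
        by_cases hyq : y = q
        · rw [hyq, sw hA (np x hxN).symm h.hpq hxq, hA.anti p q x h.hpq (np x hxN).symm hxq.symm,
            not_not, ← h.side1 x (np x hxN) hxq hxr]
          exact h3 x hxN hxq hxr
        · exact hx' y (mem_erase.2 ⟨hyq, hy⟩) hyx
    · apply exists_first hA h.hpr N h1 hr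
      intro s hs
      exact e2 s hs (fun e => hq (by rw [← e]; exact hs)) (fun e => hr (by rw [← e]; exact hs))

theorem ptd_dn (hA : IsChi A) (hB : IsChi B) (h : Mut A B p q r) (N : Finset V) (h1 : p ∉ N)
    (h2 : ¬ (q ∈ N ∧ r ∈ N)) (h3 : ∀ s ∈ N, s ≠ q → s ≠ r → ¬ A q r s) : Ptd A p N := by
  have np : ∀ y ∈ N, y ≠ p := fun y hy e => h1 (by rw [← e]; exact hy)
  rw [ptd_agree_p h N h1 h2]
  apply ptd_up hB (mut_symm hA hB h) N h1 (fun e => h2 ⟨e.2, e.1⟩)
  intro s hs hsr hsq
  rw [hB.anti r q s h.hqr.symm hsr.symm hsq.symm, ← h.agree q r s h.hqr hsq.symm hsr.symm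
    ⟨p, Or.inl rfl, h.hpq.symm, h.hpr.symm, np s hs⟩]
  exact h3 s hs hsq hsr

end PT39
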