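import Pool.Agent.Work.MP_02cc39_co.Mut.Chi

/-!
# MP_02cc39_co/Mut, LocX (size M): crossings under a mutation

Everything is propositional logic with `IsChi.cyc` (so `χ a b c ↔ χ b c a ↔ χ c a b`),
`IsChi.anti` (`χ a b c ↔ ¬ χ b a c`) and the fields of `Mut`.

PROOFS.
`mut_symm`: `B r q p ↔ ¬ B q r p`; `¬ A r q p` as `A q r p`; `side1`: `B r q s ↔ A r q s ↔ ¬ A q r s ↔
¬ A p r s ↔ A r p s ↔ B r p s` (`agree`: the triples miss `p` or `q`); `side2` similarly; `betw` with `q, r`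
exchanged (if `A s t r ↔ A s t q` then `A s t q ↔ A s t p`, so `A s t r ↔ A s t p`), and `A`, `B` agree on
the triples `s, t, *`.
`up_symm`, `dn_symm`: `B r q s ↔ ¬ A q r s` for `s ≠ p, q, r`.
`cross_comm1/2`: from `cyc`, `anti` (both sides of each `↔` are negated).
`x_old`: `A s t p` agrees with `A s t q` or with `A s t r`, which are different; in the first case
`Cross A s t p r` (`A p r s ↔ A q r s`), in the second `Cross A s t p q` (`A p q s ↔ ¬ A q r s`).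
`x_newq`, `x_newr`: by `betw`, if `A s t p` differs from `A s t q` (or from `A s t r`) then
`A s t q` and `A s t r` differ.
`x_qs`: `A q s p ↔ ¬ A q p s ↔ ¬ A q r s ↔ A q s r`.  `x_rs`: `A r s p ↔ ¬ A r p s ↔ A p r s ↔ A q r s`,
`A r s q ↔ A q r s`.
`x_pA`: `A p s q ↔ A q p s ↔ A q r s`, `A p s r ↔ A r p s ↔ ¬ A q r s` always differ, and `A q r p` is true.
`x_pB`: the same in `B`, where `B q r p` is false.
`cross_agree`: if one of `p, q, r` is not among `a, b, c, d` all four triples agree.  Otherwise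
`{a, b, c, d} = {p, q, r, s}` and, since none of the two edges is `qr`, they are `qs, pr` or `rs, pq`
(in some order): not crossing in `A` and (by `mut_symm`) not in `B`.
-/

set_option autoImplicit false

namespace PT39

variable {V : Type} [Fintype V] [DecidableEq V] {A B : Ori V} {p q r : V}

private theorem cy (hA : IsChi A) {a b c : V} (h1 : a ≠ b) (h2 : a ≠ c) (h3 : b ≠ c) :
    A a b c ↔ A b c a :=
  ⟨hA.cyc a b c h1 h2 h3, fun h => hA.cyc c a b h2.symm h3.symm h1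
    (hA.cyc b c a h3 h1.symm h2.symm h)⟩

/-- exchange of the last two points -/
private theorem sw (hA : IsChi A) {a b c : V} (h1 : a ≠ b) (h2 : a ≠ c) (h3 : b ≠ c) :
    A a b c ↔ ¬ A a c b := by
  rw [cy hA h1 h2 h3, hA.anti b c a h3 h1.symm h2.symm, cy hA h3.symm h2.symm h1.symm,
    cy hA h1.symm h3 h2]

theorem mut_symm (hA : IsChi A) (hB : IsChi B) (h : Mut A B p q r) : Mut B A p r q := by
  refine ⟨h.hpr, h.hpq, h.hqr.symm, ?_, ?_, ?_, ?_, ?_, ?_⟩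
  · rintro a b c h1 h2 h3 ⟨z, hz, hz'⟩
    exact (h.agree a b c h1 h2 h3 ⟨z, by tauto, hz'⟩).symm
  · rw [hB.anti r q p h.hqr.symm h.hpr.symm h.hpq.symm]
    exact h.dn
  · rw [hA.anti r q p h.hqr.symm h.hpr.symm h.hpq.symm]
    exact not_not.2 h.up
  · intro s h1 h2 h3
    rw [← h.agree r q s h.hqr.symm h2.symm h3.symm ⟨p, Or.inl rfl, h.hpr.symm, h.hpq.symm, h1⟩,
      hA.anti r q s h.hqr.symm h2.symm h3.symm, h.side2 s h1 h3 h2,
      ← hA.anti r p s h.hpr.symm h2.symm h1.symm]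
    exact h.agree r p s h.hpr.symm h2.symm h1.symm
      ⟨q, Or.inr (Or.inl rfl), h.hqr.symm, h.hpq, h3⟩
  · intro s h1 h2 h3
    rw [← h.agree r q s h.hqr.symm h2.symm h3.symm ⟨p, Or.inl rfl, h.hpr.symm, h.hpq.symm, h1⟩,
      hA.anti r q s h.hqr.symm h2.symm h3.symm, h.side1 s h1 h3 h2,
      ← hA.anti p q s h.hpq h1.symm h3.symm]
    exact h.agree p q s h.hpq h1.symm h3.symm
      ⟨r, Or.inr (Or.inr rfl), h.hpr, h.hqr, h2⟩
  · intro s t hst h1 h2 h3 h4 h5 h6 hx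
    have e1 := h.agree s t r hst h2 h5 ⟨p, Or.inl rfl, h1, h4, h.hpr.symm⟩
    have e2 := h.agree s t q hst h3 h6 ⟨p, Or.inl rfl, h1, h4, h.hpq.symm⟩
    have e3 := h.agree s t p hst h1 h4 ⟨q, Or.inr (Or.inl rfl), h3, h6, h.hpq⟩
    have e4 := h.betw s t hst h1 h3 h2 h4 h6 h5
    tauto

theorem up_symm (hA : IsChi A) (hB : IsChi B) (h : Mut A B p q r) (E : Finset (Sym2 V)) :
    Up B p r q E ↔ Dn A p q r E := by
  unfold Up Dn
  refine exists_congr fun s => ?_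
  constructor
  · rintro ⟨h1, h2, h3, h4, h5⟩
    refine ⟨h2, h1, h3, h4, ?_⟩
    rw [hB.anti r q s h.hqr.symm h1.symm h2.symm,
      ← h.agree q r s h.hqr h2.symm h1.symm ⟨p, Or.inl rfl, h.hpq.symm, h.hpr.symm, h3⟩] at h5
    exact h5
  · rintro ⟨h2, h1, h3, h4, h5⟩
    refine ⟨h1, h2, h3, h4, ?_⟩
    rw [hB.anti r q s h.hqr.symm h1.symm h2.symm,
      ← h.agree q r s h.hqr h2.symm h1.symm ⟨p, Or.inl rfl, h.hpq.symm, h.hpr.symm, h3⟩]
    exact h5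

theorem dn_symm (hA : IsChi A) (hB : IsChi B) (h : Mut A B p q r) (E : Finset (Sym2 V)) :
    Dn B p r q E ↔ Up A p q r E := by
  unfold Up Dn
  refine exists_congr fun s => ?_
  constructor
  · rintro ⟨h1, h2, h3, h4, h5⟩
    refine ⟨h2, h1, h3, h4, ?_⟩
    rw [hB.anti r q s h.hqr.symm h1.symm h2.symm,
      ← h.agree q r s h.hqr h2.symm h1.symm ⟨p, Or.inl rfl, h.hpq.symm, h.hpr.symm, h3⟩] at h5
    exact not_not.1 h5
  · rintro ⟨h2, h1, h3, h4, h5⟩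
    refine ⟨h1, h2, h3, h4, ?_⟩
    rw [hB.anti r q s h.hqr.symm h1.symm h2.symm,
      ← h.agree q r s h.hqr h2.symm h1.symm ⟨p, Or.inl rfl, h.hpq.symm, h.hpr.symm, h3⟩]
    exact not_not.2 h5

theorem cross_comm1 (hA : IsChi A) {a b c d : V} (h1 : a ≠ b) (h2 : a ≠ c) (h3 : a ≠ d)
    (h4 : b ≠ c) (h5 : b ≠ d) (h6 : c ≠ d) : Cross A a b c d ↔ Cross A b a c d := by
  unfold Cross
  have e1 := hA.anti a b c h1 h2 h4
  have e2 := hA.anti a b d h1 h3 h5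
  have _ := h6
  tauto

theorem cross_comm2 (A : Ori V) (a b c d : V) : Cross A a b c d ↔ Cross A c d a b := by
  unfold Cross
  exact and_comm

theorem x_old (hA : IsChi A) (h : Mut A B p q r) {s t : V} (hst : s ≠ t) (h1 : s ≠ p) (h2 : s ≠ q)
    (h3 : s ≠ r) (h4 : t ≠ p) (h5 : t ≠ q) (h6 : t ≠ r) (hx : Cross A s t q r) :
    Cross A s t p q ∨ Cross A s t p r := by
  unfold Cross at *
  have _ := hst
  have e1 := h.side2 s h1 h2 h3
  have e2 := h.side2 t h4 h5 h6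
  have e3 := h.side1 s h1 h2 h3
  have e4 := h.side1 t h4 h5 h6
  have e5 := hA.anti p q s h.hpq h1.symm h2.symm
  have e6 := hA.anti p q t h.hpq h4.symm h5.symm
  tauto

theorem x_newq (hA : IsChi A) (h : Mut A B p q r) {s t : V} (hst : s ≠ t) (h1 : s ≠ p) (h2 : s ≠ q)
    (h3 : s ≠ r) (h4 : t ≠ p) (h5 : t ≠ q) (h6 : t ≠ r) (hx : Cross A s t p q) :
    Cross A s t q r := by
  unfold Cross at *
  have e3 := h.side1 s h1 h2 h3
  have e4 := h.side1 t h4 h5 h6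
  have e5 := hA.anti p q s h.hpq h1.symm h2.symm
  have e6 := hA.anti p q t h.hpq h4.symm h5.symm
  have e7 := h.betw s t hst h1 h2 h3 h4 h5 h6
  tauto

theorem x_newr (hA : IsChi A) (h : Mut A B p q r) {s t : V} (hst : s ≠ t) (h1 : s ≠ p) (h2 : s ≠ q)
    (h3 : s ≠ r) (h4 : t ≠ p) (h5 : t ≠ q) (h6 : t ≠ r) (hx : Cross A s t p r) :
    Cross A s t q r := by
  unfold Cross at *
  have _ := hA
  have e1 := h.side2 s h1 h2 h3
  have e2 := h.side2 t h4 h5 h6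
  have e7 := h.betw s t hst h1 h2 h3 h4 h5 h6
  tauto

theorem x_qs (hA : IsChi A) (h : Mut A B p q r) {s : V} (h1 : s ≠ p) (h2 : s ≠ q) (h3 : s ≠ r) :
    ¬ Cross A q s p r := by
  unfold Cross
  have e1 := sw hA h2.symm h.hpq.symm h1
  have e2 := sw hA h2.symm h.hqr h3
  have e3 := h.side1 s h1 h2 h3
  tauto

theorem x_rs (hA : IsChi A) (h : Mut A B p q r) {s : V} (h1 : s ≠ p) (h2 : s ≠ q) (h3 : s ≠ r) :
    ¬ Cross A r s p q := by
  unfold Cross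
  have e1 := sw hA h3.symm h.hpr.symm h1
  have e2 := hA.anti r p s h.hpr.symm h3.symm h1.symm
  have e3 := h.side2 s h1 h2 h3
  have e4 := cy hA h.hqr h2.symm h3.symm
  tauto

theorem x_pA (hA : IsChi A) (h : Mut A B p q r) {s : V} (h1 : s ≠ p) (h2 : s ≠ q) (h3 : s ≠ r) :
    Cross A p s q r ↔ ¬ A q r s := by
  unfold Cross
  have e1 := cy hA h.hpq.symm h2.symm h1.symm
  have e2 := cy hA h.hpr.symm h3.symm h1.symm
  have e3 := h.side1 s h1 h2 h3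
  have e4 := h.side2 s h1 h2 h3
  have e5 := hA.anti r p s h.hpr.symm h3.symm h1.symm
  have e6 := h.up
  tauto

theorem x_pB (hA : IsChi A) (hB : IsChi B) (h : Mut A B p q r) {s : V} (h1 : s ≠ p) (h2 : s ≠ q)
    (h3 : s ≠ r) : Cross B p s q r ↔ A q r s := by
  unfold Cross
  have e1 := cy hB h.hpq.symm h2.symm h1.symm
  have e2 := cy hB h.hpr.symm h3.symm h1.symm
  have e3 := h.side1 s h1 h2 h3
  have e4 := h.side2 s h1 h2 h3
  have e5 := hA.anti r p s h.hpr.symm h3.symm h1.symm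
  have e6 := h.dn
  have e7 := h.agree q p s h.hpq.symm h2.symm h1.symm
    ⟨r, Or.inr (Or.inr rfl), h.hqr, h.hpr, h3⟩
  have e8 := h.agree r p s h.hpr.symm h3.symm h1.symm
    ⟨q, Or.inr (Or.inl rfl), h.hqr.symm, h.hpq, h2⟩
  have e9 := h.agree q r s h.hqr h2.symm h3.symm ⟨p, Or.inl rfl, h.hpq.symm, h.hpr.symm, h1⟩
  tauto

private theorem miss (h : Mut A B p q r) {a b c d : V} (h1 : a ≠ b)
    (h2 : a ≠ c) (h3 : a ≠ d) (h4 : b ≠ c) (h5 : b ≠ d) (h6 : c ≠ d) {z : V}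
    (hz : z = p ∨ z = q ∨ z = r) (ha : a ≠ z) (hb : b ≠ z) (hc : c ≠ z) (hd : d ≠ z) :
    Cross A a b c d ↔ Cross B a b c d := by
  unfold Cross
  rw [h.agree a b c h1 h2 h4 ⟨z, hz, ha, hb, hc⟩, h.agree a b d h1 h3 h5 ⟨z, hz, ha, hb, hd⟩,
    h.agree c d a h6 h2.symm h3.symm ⟨z, hz, hc, hd, ha⟩,
    h.agree c d b h6 h4.symm h5.symm ⟨z, hz, hc, hd, hb⟩]

private theorem base {X : Ori V} (hX : IsChi X)
    (hk : ∀ s, s ≠ p → s ≠ q → s ≠ r → ¬ Cross X q s p r ∧ ¬ Cross X r s p q) {a b c d : V}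
    (h1 : a ≠ b) (h2 : a ≠ c) (h3 : a ≠ d) (h4 : b ≠ c) (h5 : b ≠ d) (h6 : c ≠ d)
    (hab : s(a, b) ≠ s(q, r)) (hp : p = c) (hq : q = a ∨ q = b ∨ q = c ∨ q = d)
    (hr : r = a ∨ r = b ∨ r = c ∨ r = d) (hpq : p ≠ q) (hpr : p ≠ r) (hqr : q ≠ r) :
    ¬ Cross X a b c d := by
  subst hp
  rcases hq with rfl | rfl | rfl | rfl
  · rcases hr with rfl | rfl | rfl | rfl
    · exact absurd rfl hqr
    · exact absurd rfl hab
    · exact absurd rfl hpr
    · exact (hk b h4 h1.symm h5).1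
  · rcases hr with rfl | rfl | rfl | rfl
    · exact absurd Sym2.eq_swap hab
    · exact absurd rfl hqr
    · exact absurd rfl hpr
    · rw [cross_comm1 hX h1 h2 h3 h4 h5 h6]
      exact (hk a h2 h1 h3).1
  · exact absurd rfl hpq
  · rcases hr with rfl | rfl | rfl | rfl
    · exact (hk b h4 h5 h1.symm).2
    · rw [cross_comm1 hX h1 h2 h3 h4 h5 h6]
      exact (hk a h2 h3 h1).2
    · exact absurd rfl hpr
    · exact absurd rfl hqr

private theorem gen {X : Ori V} (hX : IsChi X)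
    (hk : ∀ s, s ≠ p → s ≠ q → s ≠ r → ¬ Cross X q s p r ∧ ¬ Cross X r s p q) {a b c d : V}
    (h1 : a ≠ b) (h2 : a ≠ c) (h3 : a ≠ d) (h4 : b ≠ c) (h5 : b ≠ d) (h6 : c ≠ d)
    (hab : s(a, b) ≠ s(q, r)) (hcd : s(c, d) ≠ s(q, r)) (hp : p = a ∨ p = b ∨ p = c ∨ p = d)
    (hq : q = a ∨ q = b ∨ q = c ∨ q = d) (hr : r = a ∨ r = b ∨ r = c ∨ r = d) (hpq : p ≠ q)
    (hpr : p ≠ r) (hqr : q ≠ r) : ¬ Cross X a b c d := by
  rcases hp with hp | hp | hp | hp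
  · rw [cross_comm2]
    exact base hX hk h6 h2.symm h4.symm h3.symm h5.symm h1 hcd hp (by tauto) (by tauto) hpq hpr hqr
  · rw [cross_comm1 hX h1 h2 h3 h4 h5 h6, cross_comm2]
    exact base hX hk h6 h4.symm h2.symm h5.symm h3.symm h1.symm hcd hp (by tauto) (by tauto)
      hpq hpr hqr
  · exact base hX hk h1 h2 h3 h4 h5 h6 hab hp hq hr hpq hpr hqr
  · rw [cross_comm2, cross_comm1 hX h6 h2.symm h4.symm h3.symm h5.symm h1, cross_comm2]
    exact base hX hk h1 h3 h2 h5 h4 h6.symm hab hp (by tauto) (by tauto) hpq hpr hqr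

theorem cross_agree (hA : IsChi A) (hB : IsChi B) (h : Mut A B p q r) {a b c d : V} (h1 : a ≠ b)
    (h2 : a ≠ c) (h3 : a ≠ d) (h4 : b ≠ c) (h5 : b ≠ d) (h6 : c ≠ d) (hab : s(a, b) ≠ s(q, r))
    (hcd : s(c, d) ≠ s(q, r)) : Cross A a b c d ↔ Cross B a b c d := by
  have hm := mut_symm hA hB h
  by_cases hp : p = a ∨ p = b ∨ p = c ∨ p = d
  swap
  · push Not at hp
    exact miss h h1 h2 h3 h4 h5 h6 (Or.inl rfl) hp.1.symm hp.2.1.symm hp.2.2.1.symm hp.2.2.2.symm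
  by_cases hq : q = a ∨ q = b ∨ q = c ∨ q = d
  swap
  · push Not at hq
    exact miss h h1 h2 h3 h4 h5 h6 (Or.inr (Or.inl rfl)) hq.1.symm hq.2.1.symm hq.2.2.1.symm
      hq.2.2.2.symm
  by_cases hr : r = a ∨ r = b ∨ r = c ∨ r = d
  swap
  · push Not at hr
    exact miss h h1 h2 h3 h4 h5 h6 (Or.inr (Or.inr rfl)) hr.1.symm hr.2.1.symm hr.2.2.1.symm
      hr.2.2.2.symm
  refine iff_of_false ?_ ?_
  · exact gen hA (fun s g1 g2 g3 => ⟨x_qs hA h g1 g2 g3, x_rs hA h g1 g2 g3⟩) h1 h2 h3 h4 h5 h6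
      hab hcd hp hq hr h.hpq h.hpr h.hqr
  · exact gen hB (fun s g1 g2 g3 => ⟨x_rs hB hm g1 g3 g2, x_qs hB hm g1 g3 g2⟩) h1 h2 h3 h4 h5 h6
      hab hcd hp hq hr h.hpq h.hpr h.hqr

end PT39
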