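import Pool.Agent.Work.MP_02cc39_co.Mut.CfgChi

/-!
# MP_02cc39_co/Mut, Mot0 (FIXED definitions): motion of a point
-/

set_option autoImplicit false

namespace PT39

variable {V : Type} [Fintype V] [DecidableEq V]

/-- one step: the configurations `PA`, `PB` are close to a configuration `C` with `C p` in the open segment between `C q` and `C r`
and no other collinear triple; `p` is on the left of `q r` in `PA`, on the right in `PB`. -/
def Step (PA PB : Cfg V) : Prop := ∃ (C : Cfg V) (p q r : V) (l : ℝ), p ≠ q ∧ p ≠ r ∧ q ≠ r ∧ 0 < l ∧ l < 1 ∧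
  C p = (1 - l) • C q + l • C r ∧
  (∀ a b c : V, a ≠ b → a ≠ c → b ≠ c → (∃ z, (z = p ∨ z = q ∨ z = r) ∧ a ≠ z ∧ b ≠ z ∧ c ≠ z) →
    ori C a b c ≠ 0 ∧ (0 < ori C a b c ↔ 0 < ori PA a b c) ∧ (0 < ori C a b c ↔ 0 < ori PB a b c)) ∧
  0 < ori PA q r p ∧ ori PB q r p < 0

/-- `g` does not change in a step. -/
def Inv {β : Type} (g : Ori V → β) : Prop := ∀ PA PB : Cfg V, GP PA → GP PB → Step PA PB → g (chi PA) = g (chi PB)

/-- the affine function `z ↦ ori (z, P a, P b)`. -/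
def lf (P : Cfg V) (a b : V) (z : ℝ × ℝ) : ℝ := ((P a).1 - z.1) * ((P b).2 - z.2) - ((P a).2 - z.2) * ((P b).1 - z.1)

/-- the point `(1 - t) x + t y`. -/
def pt (x y : ℝ × ℝ) (t : ℝ) : ℝ × ℝ := ((1 - t) * x.1 + t * y.1, (1 - t) * x.2 + t * y.2)

/-- the way from `x` to `y` is in general position with respect to the points of `P` other than `P d`. -/
structure Way (P : Cfg V) (d : V) (x y : ℝ × ℝ) : Prop where
  off : ∀ t, 0 < t → t < 1 → ∀ a b, a ≠ d → b ≠ d → a ≠ b → pt x y t ≠ P a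
  one : ∀ t, 0 < t → t < 1 → ∀ a b a' b', a ≠ d → b ≠ d → a ≠ b → a' ≠ d → b' ≠ d → a' ≠ b' →
    lf P a b (pt x y t) = 0 → lf P a' b' (pt x y t) = 0 → (a = a' ∧ b = b') ∨ (a = b' ∧ b = a')

end PT39
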