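import Pool.Agent.Work.MP_02cc39_co.Mut.Mot0

/-!
# MP_02cc39_co/Mut, Mot1 (size S-M): algebra of a moving point

PROOFS.  All by `unfold ori lf pt`, `Function.update_of_ne`, `Function.update_self`, `ring`.
`chi_upd`: funext a b c. If `d` is not among `a, b, c`: `ori_upd_ne`. If two of `a, b, c` are equal: `ori = 0` on both sides (`ring`), so both sides
are false. Otherwise exactly one of them is `d`: `ori_upd_d1, _d2, _d3` (`ori .. d a b = lf a b`, `ori a d b = lf b a`, `ori a b d = lf a b`) and the hypothesis.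
`gp_upd`: the same case distinction.
-/

set_option autoImplicit false

namespace PT39

variable {V : Type} [Fintype V] [DecidableEq V] (P : Cfg V) {d : V}

theorem ori_upd_ne {a b c : V} (ha : a ≠ d) (hb : b ≠ d) (hc : c ≠ d) (z : ℝ × ℝ) :
    ori (Function.update P d z) a b c = ori P a b c := by
  sorry

theorem ori_upd_d1 {a b : V} (ha : a ≠ d) (hb : b ≠ d) (z : ℝ × ℝ) : ori (Function.update P d z) d a b = lf P a b z := by
  sorry

theorem ori_upd_d2 {a b : V} (ha : a ≠ d) (hb : b ≠ d) (z : ℝ × ℝ) : ori (Function.update P d z) a d b = lf P b a z := by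
  sorry

theorem ori_upd_d3 {a b : V} (ha : a ≠ d) (hb : b ≠ d) (z : ℝ × ℝ) : ori (Function.update P d z) a b d = lf P a b z := by
  sorry

theorem lf_swap (a b : V) (z : ℝ × ℝ) : lf P b a z = - lf P a b z := by
  sorry

theorem lf_self (a b : V) : lf P a b (P a) = 0 ∧ lf P a b (P b) = 0 := by
  sorry

/-- `lf` at a point of `P`. -/
theorem lf_pt (a b c : V) : lf P a b (P c) = ori P a b c := by
  sorry

theorem lf_affine (a b : V) (x y : ℝ × ℝ) (t : ℝ) : lf P a b (pt x y t) = (1 - t) * lf P a b x + t * lf P a b y := by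
  sorry

theorem chi_upd {x y : ℝ × ℝ} (h : ∀ a b, a ≠ d → b ≠ d → a ≠ b → (0 < lf P a b x ↔ 0 < lf P a b y)) :
    chi (Function.update P d x) = chi (Function.update P d y) := by
  sorry

theorem gp_upd {x : ℝ × ℝ} : GP (Function.update P d x) ↔
    (∀ a b c, a ≠ d → b ≠ d → c ≠ d → a ≠ b → a ≠ c → b ≠ c → ori P a b c ≠ 0) ∧
      (∀ a b, a ≠ d → b ≠ d → a ≠ b → lf P a b x ≠ 0) := by
  sorry

theorem pt_pt (x y : ℝ × ℝ) (s t : ℝ) : pt (pt x y s) y t = pt x y (s + t - s * t) := by
  sorry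

theorem pt_pt2 (x y : ℝ × ℝ) (s t : ℝ) : pt x (pt x y s) t = pt x y (s * t) := by
  sorry

end PT39
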