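import Mathlib

/-!
# MP_02cc39_co/Mut, Mot2 (size S-M): points near a given point which avoid finitely many lines

PROOF.  On the curve `δ ↦ (y.1 + δ, y.2 + δ ^ 2)` the function of a triple `f` is `f.2.1 * δ ^ 2 + f.1 * δ + (f.1 * y.1 + f.2.1 * y.2 + f.2.2)`, a
nonzero polynomial in `δ` (or: at most two zeros), so the set of its zeros is finite (`Polynomial.rootSet_finite` / `Polynomial.roots`, or a direct
argument).  The union over `F` is finite, `Set.Ioo 0 (min ε 1)` is infinite (`Set.Ioo_infinite`), so some `δ` in it avoids all zeros;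
`|δ ^ 2| < ε` because `0 < δ < 1` and `δ < ε`.
-/

set_option autoImplicit false

namespace PT39

theorem avoid (F : Finset (ℝ × ℝ × ℝ)) (hF : ∀ f ∈ F, f.1 ≠ 0 ∨ f.2.1 ≠ 0) (y : ℝ × ℝ) {ε : ℝ} (hε : 0 < ε) :
    ∃ z : ℝ × ℝ, |z.1 - y.1| < ε ∧ |z.2 - y.2| < ε ∧ ∀ f ∈ F, f.1 * z.1 + f.2.1 * z.2 + f.2.2 ≠ 0 := by
  sorry

end PT39
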