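import Pool.Agent.Work.MP_02cc39_co.Mut.Mot1
import Pool.Agent.Work.MP_02cc39_co.Mut.Mot2

/-!
# MP_02cc39_co/Mut, Mot3 (size M): a generic target near a given point

PROOFS.  Coefficients of `lf P a b z = α z.1 + β z.2 + γ`: `α = (P a).2 - (P b).2`, `β = (P b).1 - (P a).1`, `γ = (P a).1 (P b).2 - (P a).2 (P b).1`
(`ring`).
`avoid_lf` (used twice): for finitely many pairs with `lf P a b` not the zero function (`P a ≠ P b`, since `lf P a b x ≠ 0`): `avoid`.
`exists_way`: apply `avoid` to the following finite set of triples (images of `Finset.univ` filtered; a, b, a', b' different from d):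
(1) `lf P a b` for all `a ≠ b` (its linear part is nonzero because `lf P a b x ≠ 0` and `lf P a b (P a) = 0`: a function with zero linear part is constant);
(2) for `a` such that some `b ≠ a, b ≠ d` exists: `z ↦ ((P a).1 - x.1) (z.2 - x.2) - ((P a).2 - x.2) (z.1 - x.1)`; linear part nonzero because `P a ≠ x` (`lf P a b x ≠ 0`);
(3) for `a ≠ b`, `a' ≠ b'`, not the same unordered pair: `G z := lf P a b x * lf P a' b' z - lf P a' b' x * lf P a b z`.  Its linear part is nonzero: otherwise
    `G` is constant, `= G x = 0`; `z = P a` and `z = P b` give `lf P a' b' (P a) = 0 = lf P a' b' (P b)` (`lf_self`), and one of `a, b` is not in `{a', b'}`, say `a`: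
    `ori P a' b' a = 0` (`lf_pt`), contradiction to `GP` (`gp_upd`).
Then for the point `z = y'` found: `lf P a b y' ≠ 0` by (1).  `off`: if `pt x y' t = P a` then `t * ((P a).1 - x.1) ..`: `P a - x = t (y' - x)`, so the function (2) is 0
at `y'`.  `one`: `(1-t) lf_ab(x) + t lf_ab(y') = 0` and the same for `a' b'` (`lf_affine`) give `G y' = 0` (`t ≠ 0`), so the unordered pairs are the same.
-/

set_option autoImplicit false

namespace PT39

variable {V : Type} [Fintype V] [DecidableEq V] (P : Cfg V) {d : V}

theorem exists_way {x : ℝ × ℝ} (hx : GP (Function.update P d x)) (y : ℝ × ℝ) {ε : ℝ} (hε : 0 < ε) :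
    ∃ y' : ℝ × ℝ, |y'.1 - y.1| < ε ∧ |y'.2 - y.2| < ε ∧ (∀ a b, a ≠ d → b ≠ d → a ≠ b → lf P a b y' ≠ 0) ∧
      Way P d x y' := by
  sorry

end PT39
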