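import Pool.Agent.Work.MP_02cc39_co.Mut.Mot1

/-!
# MP_02cc39_co/Mut, Mot4 (size M): one event is a step

PROOFS.  `C := Function.update P d z`.  `lf P a b z = 0`, `P a ≠ P b` (because `lf P a b x ≠ 0`), `z ≠ P a`, `z ≠ P b`: there is a real number `u` with
`z = (1 - u) P a + u P b` (coordinatewise; `u = (z.1 - (P a).1) / ((P b).1 - (P a).1)` or the same with the second coordinates), `u ≠ 0, 1`.
`0 < u < 1`: middle point `d`, ends `a, b`, `l = u`.   `u < 0`: `P a = (1 - l) z + l P b` with `l = -u / (1 - u)`: middle `a`, ends `d, b`.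
`u > 1`: `P b = (1 - l) P a + l z`, `l = 1 / u`: middle `b`, ends `a, d`.
In each case `p` = the middle, `q, r` = the ends: `ori .. q r p` is `± lf P a b` at `x`, resp. `y` (cyclic permutations: `ring`/`ori_upd_d1..3`), so the signs at `x` and
`y` are different and nonzero: if `ori (update P d x) q r p > 0` we get `Step (update P d x) (update P d y)`, otherwise the other one.
The condition for the other triples `a1 b1 c1` (they miss one of `d, a, b`): without `d`: all three `ori` are `ori P a1 b1 c1 ≠ 0` (`ori_upd_ne`, `gp_upd` of `hx`); with `d`: the other two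
`{a1', b1'}` are not `{a, b}`: `hother` (use `ori_upd_d1, _d2, _d3`, `lf_swap`).
-/

set_option autoImplicit false

namespace PT39

variable {V : Type} [Fintype V] [DecidableEq V] (P : Cfg V) {d : V}

theorem collinear_mid {a b : V} {z : ℝ × ℝ} (hab : P a ≠ P b) (h : lf P a b z = 0) :
    ∃ u : ℝ, z = (1 - u) • P a + u • P b := by
  sorry

theorem step_of_event {x y z : ℝ × ℝ} (hx : GP (Function.update P d x)) (hy : GP (Function.update P d y)) {a b : V}
    (ha : a ≠ d) (hb : b ≠ d) (hab : a ≠ b) (hz : lf P a b z = 0) (hza : z ≠ P a) (hzb : z ≠ P b)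
    (hxy : 0 < lf P a b x ↔ ¬ 0 < lf P a b y)
    (hother : ∀ a' b', a' ≠ d → b' ≠ d → a' ≠ b' → ¬ ((a = a' ∧ b = b') ∨ (a = b' ∧ b = a')) →
      lf P a' b' z ≠ 0 ∧ (0 < lf P a' b' z ↔ 0 < lf P a' b' x) ∧ (0 < lf P a' b' z ↔ 0 < lf P a' b' y)) :
    Step (Function.update P d x) (Function.update P d y) ∨ Step (Function.update P d y) (Function.update P d x) := by
  sorry

end PT39
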