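import Pool.Agent.Work.MP_02cc39_co.Mut.Mot4

/-!
# MP_02cc39_co/Mut, Mot5 (size M): a generic way

PROOF of `way_inv`: induction over the number `N x y` of ordered pairs `(a, b)`, `a, b ≠ d`, `a ≠ b`, with `¬ (0 < lf P a b x ↔ 0 < lf P a b y)` (`x` varies, `y` fixed).
`N = 0`: `chi_upd`.   `N > 0`: for a pair with different signs the affine function `t ↦ lf P a b (pt x y t)` (`lf_affine`) has exactly one zero
`τ = lf x / (lf x - lf y)` in `(0, 1)`; for a pair with equal signs it has no zero in `[0, 1]` (and keeps the sign).  Let `T` be the finite nonempty set of the zeros `τ` of the pairs with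
different signs, `t1 = min T` (attained by the pair `a, b`), `t2` = the smallest element of `T` larger than `t1`, or `1`; `t' = (t1 + t2) / 2`, `x' = pt x y t'`.
- `GP (update P d x')` (`gp_upd`; no zero at `t'`),
- `Step` between `x` and `x'` in one of the two directions: `step_of_event` with `z = pt x y t1`: for the pairs `{a', b'} ≠ {a, b}` there is no zero in `[0, t']`
  (zeros are `> t1` by `Way.one`, so `≥ t2`), so the signs at `0, t1, t'` agree; for `(a, b)` the signs at `0` and `t'` differ.  `z ≠ P a, P b`: `Way.off`.
- `Way P d x' y`: `pt_pt`: `pt x' y s = pt x y (t' + s - t' * s)` and `0 < t' + s - t' s < 1`.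
- `N x' y < N x y`: the pair `(a, b)` now has equal signs at `x'` and `y`, the other pairs with different signs at `x'`, `y` had them at `x`, `y` (no zero before `t'` except `{a, b}`).
So `g (chi x) = g (chi x') = g (chi y)` by `Inv` and the induction.
(A useful lemma: `f` affine on `[0,1]`, `f 0 ≠ 0`, `f 1 ≠ 0`, ... : sign at `t` = sign at `0` for `t < τ`, = sign at `1` for `t > τ`.)
-/

set_option autoImplicit false

namespace PT39

variable {V : Type} [Fintype V] [DecidableEq V] (P : Cfg V) {d : V}

theorem way_inv {β : Type} {g : Ori V → β} (hg : Inv g) {x y : ℝ × ℝ} (hx : GP (Function.update P d x))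
    (hy : GP (Function.update P d y)) (hw : Way P d x y) :
    g (chi (Function.update P d x)) = g (chi (Function.update P d y)) := by
  sorry

end PT39
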