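import Pool.Agent.Work.MP_02cc39_co.Mut.Mot3
import Pool.Agent.Work.MP_02cc39_co.Mut.Mot5

/-!
# MP_02cc39_co/Mut, Mot6 (size M): moving one point, moving all points

PROOFS.
`near_sign`: `lf P a b` is continuous (affine) and nonzero at `y` for the finitely many pairs: there is `ε > 0` such that it keeps its sign for `|z.1 - y.1| < ε`, `|z.2 - y.2| < ε`
(for one pair: `|lf z - lf y| ≤ (|α| + |β|) ε < |lf y|`; minimum over the finitely many pairs, `Finset.exists_min_image` or induction; or by
`Metric`/`eventually` with `Filter.eventually_all` and continuity on the product space).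
`move_one`: `ε` from `near_sign`, `y'` from `exists_way`: `chi (update P d y') = chi (update P d y)` (`chi_upd`), `GP (update P d y')` (`gp_upd`), `way_inv` for `x, y'`.
`conn_step`: induction over the number of points `v` with `P v ≠ P' v`. If it is 0: `P = P'`.  Otherwise take `d` with `P d ≠ P' d`.  For `P'` (as `update P' d (P' d)`) take `ε` from
`near_sign` at `y = P' d`; with `avoid` (or `exists_way P` with `x = P d`, `y = P' d`) find `y'` with `|y' - P' d| < ε` and `lf P a b y' ≠ 0` for all pairs: then
`GP (update P d y')`, `GP (update P' d y')`, `chi (update P' d y') = chi P'`; `g (chi P) = g (chi (update P d y'))` by `move_one` (`P = update P d (P d)`,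
`Function.update_eq_self`), and `update P d y'`, `update P' d y'` differ at fewer points (they agree at `d`).
-/

set_option autoImplicit false

namespace PT39

variable {V : Type} [Fintype V] [DecidableEq V] (P : Cfg V) {d : V}

theorem near_sign {y : ℝ × ℝ} (hy : ∀ a b, a ≠ d → b ≠ d → a ≠ b → lf P a b y ≠ 0) :
    ∃ ε : ℝ, 0 < ε ∧ ∀ z : ℝ × ℝ, |z.1 - y.1| < ε → |z.2 - y.2| < ε → ∀ a b, a ≠ d → b ≠ d → a ≠ b →
      (lf P a b z ≠ 0 ∧ (0 < lf P a b z ↔ 0 < lf P a b y)) := by
  sorry

theorem move_one {β : Type} {g : Ori V → β} (hg : Inv g) {x y : ℝ × ℝ} (hx : GP (Function.update P d x))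
    (hy : GP (Function.update P d y)) : g (chi (Function.update P d x)) = g (chi (Function.update P d y)) := by
  sorry

/-- invariants under steps are constant on configurations in general position. -/
theorem conn_step {β : Type} {g : Ori V → β} (hg : Inv g) {P P' : Cfg V} (hP : GP P) (hP' : GP P') :
    g (chi P) = g (chi P') := by
  sorry

end PT39
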