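import Pool.Agent.Work.MP_02cc39_co.Mut.Law

/-!
# MP_02cc39_co/Mut, Phi (size S): the invariant

`Phi χ U W = ∑ X ∈ U.powerset, (-(1 + X)) ^ |X| * fpol χ (W ∪ X)`.
PROOF of `phi_mut`: `U = insert p U'` (`p ∉ U'`), `Finset.sum_powerset_insert`:
`Phi χ U W = ∑ X ∈ U'.powerset, (-(1 + X)) ^ |X| * (fpol χ (W ∪ X) - (1 + X) * fpol χ (insert p (W ∪ X)))`,
and `p ∉ W ∪ X`: `law`.
-/

set_option autoImplicit false

namespace PT39

open Finset Polynomial

variable {V : Type} [Fintype V] [DecidableEq V] {A B : Ori V} {p q r : V}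

/-- the alternating sum which is invariant under the mutations with middle point in `U`. -/
noncomputable def Phi (χ : Ori V) (U W : Finset V) : ℤ[X] :=
  ∑ Y ∈ U.powerset, (-(1 + X)) ^ Y.card * fpol χ (W ∪ Y)

private theorem phi_ins (χ : Ori V) {U' W : Finset V} {p : V} (hU : p ∉ U') :
    Phi χ (insert p U') W = ∑ Y ∈ U'.powerset, (-(1 + X)) ^ Y.card *
      (fpol χ (W ∪ Y) - (1 + X) * fpol χ (insert p (W ∪ Y))) := by
  unfold Phi
  rw [Finset.sum_powerset_insert hU, ← Finset.sum_add_distrib]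
  refine Finset.sum_congr rfl (fun Y hY => ?_)
  have hpY : p ∉ Y := fun h => hU (Finset.mem_powerset.1 hY h)
  rw [Finset.card_insert_of_notMem hpY, Finset.union_insert, pow_succ]
  ring

theorem phi_mut (hA : IsChi A) (hB : IsChi B) (h : Mut A B p q r) {U W : Finset V} (hU : p ∈ U)
    (hp : p ∉ W) : Phi A U W = Phi B U W := by
  rw [← Finset.insert_erase hU, phi_ins A (Finset.notMem_erase p U),
    phi_ins B (Finset.notMem_erase p U)]
  refine Finset.sum_congr rfl (fun Y hY => ?_)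
  have hpY : p ∉ W ∪ Y := by
    rw [Finset.mem_union, not_or]
    exact ⟨hp, fun h => Finset.notMem_erase p U (Finset.mem_powerset.1 hY h)⟩
  rw [law hA hB h hpY]

end PT39
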