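import Pool.Agent.Work.MP_02cc39_co.Mut.Phi

/-!
# MP_02cc39_co/Mut, PhiH (size S-M): hull points in the invariant

PROOFS.  `phi_insert`: `Finset.sum_powerset_insert`; `(W ∪ insert v Y) = (insert v W) ∪ Y`.
`fpol_hull`: `v ∈ Hull χ`: `Fam χ (insert v W) E ↔ Fam χ W E`: pointedness at `v` holds for every `N` without
`v` (`ptd_mono` from `N = univ.erase v`).
`phi_hull`: `phi_insert` and `Phi χ U (insert v W) = Phi χ U W` (`fpol_hull` for each term):
`Phi χ (insert v U) W = Phi χ U W - (1 + X) * Phi χ U W = - X * Phi χ U W`.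
`phi_univ`: induction over the hull points: `univ = Hull χ ∪ (univ \ Hull χ)`.
`phi_const`: if `fpol χ W` does not depend on `W` then `Phi χ U ∅ = (1 - (1 + X)) ^ |U| * fpol χ ∅`
(`phi_insert` and induction, or the binomial theorem).
-/

set_option autoImplicit false

namespace PT39

open Finset Polynomial

variable {V : Type} [Fintype V] [DecidableEq V]

theorem phi_insert (χ : Ori V) {U W : Finset V} {v : V} (hv : v ∉ U) :
    Phi χ (insert v U) W = Phi χ U W - (1 + X) * Phi χ U (insert v W) := by
  unfold Phi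
  rw [Finset.sum_powerset_insert hv, sub_eq_add_neg, Finset.mul_sum, ← Finset.sum_neg_distrib]
  congr 1
  refine Finset.sum_congr rfl (fun Y hY => ?_)
  have hvY : v ∉ Y := fun h => hv (Finset.mem_powerset.1 hY h)
  rw [Finset.card_insert_of_notMem hvY, Finset.union_insert, ← Finset.insert_union, pow_succ]
  ring

theorem fpol_hull {χ : Ori V} (hχ : IsChi χ) {v : V} (hv : v ∈ Hull χ) (W : Finset V) :
    fpol χ (insert v W) = fpol χ W := by
  classical
  unfold fpol
  refine Finset.sum_congr rfl (fun E _ => ?_)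
  have hiff : Fam χ (insert v W) E ↔ Fam χ W E := by
    constructor
    · intro h
      exact ⟨h.loop, h.nc, fun x hx => h.ptd x (Finset.mem_insert_of_mem hx)⟩
    · intro h
      refine ⟨h.loop, h.nc, fun x hx => ?_⟩
      rcases Finset.mem_insert.1 hx with rfl | hx
      · have h1 : Ptd χ x (univ.erase x) := (Finset.mem_filter.1 hv).2
        refine ptd_mono hχ (Finset.notMem_erase x _) ?_ h1
        intro y hy
        have h2 : s(x, y) ∈ E := (Finset.mem_filter.1 hy).2
        refine Finset.mem_erase.2 ⟨?_, Finset.mem_univ y⟩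
        rintro rfl
        exact h.loop _ h2 (by simp)
      · exact h.ptd x hx
  by_cases h : Fam χ W E
  · rw [if_pos h, if_pos (hiff.2 h)]
  · rw [if_neg h, if_neg (fun h' => h (hiff.1 h'))]

theorem phi_hull {χ : Ori V} (hχ : IsChi χ) {v : V} (hv : v ∈ Hull χ) {U : Finset V}
    (hU : v ∉ U) (W : Finset V) : Phi χ (insert v U) W = - X * Phi χ U W := by
  rw [phi_insert χ hU]
  have h1 : Phi χ U (insert v W) = Phi χ U W := by
    unfold Phi
    refine Finset.sum_congr rfl (fun Y _ => ?_)
    rw [Finset.insert_union, fpol_hull hχ hv]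
  rw [h1]
  ring

theorem phi_univ {χ : Ori V} (hχ : IsChi χ) :
    Phi χ univ ∅ = (- X) ^ (Hull χ).card * Phi χ (univ \ Hull χ) ∅ := by
  classical
  have key : ∀ H : Finset V, H ⊆ Hull χ →
      Phi χ (H ∪ (univ \ Hull χ)) ∅ = (- X) ^ H.card * Phi χ (univ \ Hull χ) ∅ := by
    intro H
    induction H using Finset.induction_on with
    | empty =>
      intro _
      rw [Finset.empty_union, Finset.card_empty, pow_zero, one_mul]
    | insert v H hvH ih =>
      intro hsub
      have hv : v ∈ Hull χ := hsub (Finset.mem_insert_self v H)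
      have hH : H ⊆ Hull χ := fun x hx => hsub (Finset.mem_insert_of_mem hx)
      have hnot : v ∉ H ∪ (univ \ Hull χ) := by
        rw [Finset.mem_union, Finset.mem_sdiff]
        rintro (h | ⟨_, h⟩)
        · exact hvH h
        · exact h hv
      rw [Finset.insert_union, phi_hull hχ hv hnot, ih hH, Finset.card_insert_of_notMem hvH,
        pow_succ]
      ring
  have h1 := key (Hull χ) (Finset.Subset.refl _)
  rwa [Finset.union_sdiff_of_subset (Finset.subset_univ _)] at h1

theorem phi_const {χ : Ori V} (h : ∀ W, fpol χ W = fpol χ ∅) (U : Finset V) :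
    Phi χ U ∅ = (- X) ^ U.card * fpol χ ∅ := by
  unfold Phi
  have h1 : ∀ Y ∈ U.powerset, (-(1 + X) : ℤ[X]) ^ Y.card * fpol χ (∅ ∪ Y) =
      ((-(1 + X) : ℤ[X]) ^ Y.card * 1 ^ (U.card - Y.card)) * fpol χ ∅ := by
    intro Y _
    rw [h (∅ ∪ Y), one_pow, mul_one]
  rw [Finset.sum_congr rfl h1, ← Finset.sum_mul, Finset.sum_pow_mul_eq_add_pow]
  congr 2
  ring

end PT39
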