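import Pool.Agent.Work.MP_02cc39_co.Mut.PhiH
import Pool.Agent.Work.MP_02cc39_co.Mut.CfgChi
import Pool.Agent.Work.MP_02cc39_co.Mut.Conv

/-!
# MP_02cc39_co/Mut, Thm1 (helper8): the identity over all noncrossing graphs, from the connectedness of
the configurations
-/

set_option autoImplicit false

namespace PT39

open Finset Polynomial

variable {V : Type} [Fintype V] [DecidableEq V]

/-- invariants under mutations are constant on configurations in general position. -/
def Conn (V : Type) [Fintype V] [DecidableEq V] : Prop :=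
  ∀ g : Ori V → ℤ[X], (∀ PA PB : Cfg V, GP PA → GP PB → ∀ p q r : V,
    Mut (chi PA) (chi PB) p q r → g (chi PA) = g (chi PB)) →
    ∀ P P' : Cfg V, GP P → GP P' → g (chi P) = g (chi P')

theorem thm1_of_conn (hconn : Conn V) {n : ℕ} (e : V ≃ Fin n) {P : Cfg V} (hP : GP P) :
    Phi (chi P) (univ \ Hull (chi P)) ∅ =
      (- X) ^ (univ \ Hull (chi P)).card * fpol (chi (par e)) ∅ := by
  have h1 := hconn (fun χ => Phi χ univ ∅) (fun PA PB hA hB p q r h =>
    phi_mut (isChi_of_gp hA) (isChi_of_gp hB) h (mem_univ p) (notMem_empty p)) P (par e) hP (par_gp e)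
  rw [phi_univ (isChi_of_gp hP), phi_const (par_fpol e) univ] at h1
  have h2 : (univ : Finset V).card = (Hull (chi P)).card + (univ \ Hull (chi P)).card := by
    rw [card_sdiff_of_subset (subset_univ _)]
    have := card_le_card (subset_univ (Hull (chi P)))
    omega
  rw [h2, pow_add, mul_assoc] at h1
  exact mul_left_cancel₀ (pow_ne_zero _ (neg_ne_zero.2 X_ne_zero)) h1

end PT39
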